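import Pool.Agent.MMA1.Internal
import Pool.Agent.MP_b1d3ea_lc.Transfer

/-!
# The relational version of MM(aleph_1): orders on the ordinal `o` itself, all quantifiers bounded
-/

set_option autoImplicit false

namespace Pool.Agent.MMA1

open Pool.Agent.BVM Pool.Agent.StarHur Pool.Agent.StarHur.Transfer

section Notions

variable {M : Type*} (E : M → M → Prop)

def rPre (o R : M) : Prop :=
  (∀ a, E a o → PairMem E a a R) ∧
  ∀ a, E a o → ∀ b, E b o → ∀ c, E c o → PairMem E a b R → PairMem E b c R → PairMem E a c R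

def rDense (o R D i : M) : Prop :=
  ∀ p, E p o → ∃ q, E q o ∧ PairMem E q p R ∧ PairMem E i q D

def rClub (o K : M) : Prop :=
  (∀ b, E b o → ∃ a, E a o ∧ E b a ∧ E a K) ∧
  ∀ d, E d o → (∃ b, E b o ∧ E b d) →
    (∀ b, E b o → E b d → ∃ a, E a o ∧ E b a ∧ E a d ∧ E a K) → E d K

def rStat (o S : M) : Prop := ∀ K, rClub E o K → ∃ a, E a o ∧ E a S ∧ E a K

def rMem (o R C q a : M) : Prop :=
  ∀ r, E r o → PairMem E r q R →
    ∃ s, E s o ∧ PairMem E s r R ∧ ∃ t, E t o ∧ PairMem E s t R ∧ PairMem E a t C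

def rUnbName (o R C p : M) : Prop :=
  ∀ q, E q o → PairMem E q p R → ∀ b, E b o →
    ∃ a, E a o ∧ E b a ∧ ∃ r, E r o ∧ PairMem E r q R ∧ rMem E o R C r a

def rUnbBelow (o R C q d : M) : Prop :=
  ∀ r, E r o → PairMem E r q R → ∀ b, E b o → E b d →
    ∃ a, E a o ∧ E b a ∧ E a d ∧ ∃ s, E s o ∧ PairMem E s r R ∧ rMem E o R C s a

def rClubName (o R C p : M) : Prop :=
  rUnbName E o R C p ∧ ∀ d, E d o → (∃ b, E b o ∧ E b d) → ∀ q, E q o →
    PairMem E q p R → rUnbBelow E o R C q d → rMem E o R C q d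

def rSSP (o R : M) : Prop :=
  ∀ S C p, E p o → rStat E o S → rClubName E o R C p →
    ∃ q, E q o ∧ PairMem E q p R ∧ ∃ a, E a o ∧ E a S ∧ rMem E o R C q a

def rGeneric (o R D G : M) : Prop :=
  (∀ p, E p o → ∀ q, E q o → E p G → PairMem E p q R → E q G) ∧
  (∀ p, E p o → ∀ q, E q o → E p G → E q G →
    ∃ r, E r o ∧ E r G ∧ PairMem E r p R ∧ PairMem E r q R) ∧
  ∀ i, E i o → ∃ p, E p o ∧ E p G ∧ PairMem E i p D

/-- `MM(ℵ₁)` for preorders on `o`. -/
def rMM (o : M) : Prop :=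
  ∀ R D, rPre E o R → (∀ i, E i o → rDense E o R D i) → rSSP E o R → ∃ G, rGeneric E o R D G

end Notions

/-! ### formulas -/

section Formulas

variable {n : ℕ}

/-- `∀ x ∈ o, φ` -/
def fball (o : Fin n) (φ : Fml (n + 1)) : Fml n := .all (.imp (.mem 0 o.succ) φ)
/-- `∃ x ∈ o, φ` -/
def fbex (o : Fin n) (φ : Fml (n + 1)) : Fml n := fex (fand (.mem 0 o.succ) φ)

def gPre (o R : Fin n) : Fml n :=
  fand (fball o (fPM 0 0 R.succ))
    (fball o (fball o.succ (fball o.succ.succ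
      (.imp (fPM (Fin.succ (Fin.succ 0)) (Fin.succ 0) R.succ.succ.succ) (.imp (fPM (Fin.succ 0) 0 R.succ.succ.succ) (fPM (Fin.succ (Fin.succ 0)) 0 R.succ.succ.succ))))))

def gDense (o R D i : Fin n) : Fml n :=
  fball o (fbex o.succ (fand (fPM 0 (Fin.succ 0) R.succ.succ) (fPM i.succ.succ 0 D.succ.succ)))

def gClub (o K : Fin n) : Fml n :=
  fand (fball o (fbex o.succ (fand (.mem (Fin.succ 0) 0) (.mem 0 K.succ.succ))))
    (fball o (.imp (fbex o.succ (.mem 0 (Fin.succ 0)))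
      (.imp (fball o.succ (.imp (.mem 0 (Fin.succ 0))
        (fbex o.succ.succ (fand (.mem (Fin.succ 0) 0) (fand (.mem 0 (Fin.succ (Fin.succ 0))) (.mem 0 K.succ.succ.succ))))))
        (.mem 0 K.succ))))

def gStat (o S : Fin n) : Fml n :=
  .all (.imp (gClub o.succ 0) (fbex o.succ (fand (.mem 0 S.succ.succ) (.mem 0 (Fin.succ 0)))))

def gMem (o R C q a : Fin n) : Fml n :=
  fball o (.imp (fPM 0 q.succ R.succ)
    (fbex o.succ (fand (fPM 0 (Fin.succ 0) R.succ.succ)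
      (fbex o.succ.succ (fand (fPM (Fin.succ 0) 0 R.succ.succ.succ) (fPM a.succ.succ.succ 0 C.succ.succ.succ))))))

def gUnbName (o R C p : Fin n) : Fml n :=
  fball o (.imp (fPM 0 p.succ R.succ) (fball o.succ
    (fbex o.succ.succ (fand (.mem (Fin.succ 0) 0) (fbex o.succ.succ.succ (fand (fPM 0 (Fin.succ (Fin.succ (Fin.succ 0))) R.succ.succ.succ.succ)
      (gMem o.succ.succ.succ.succ R.succ.succ.succ.succ C.succ.succ.succ.succ 0 (Fin.succ 0))))))))

def gUnbBelow (o R C q d : Fin n) : Fml n :=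
  fball o (.imp (fPM 0 q.succ R.succ) (fball o.succ (.imp (.mem 0 d.succ.succ)
    (fbex o.succ.succ (fand (.mem (Fin.succ 0) 0) (fand (.mem 0 d.succ.succ.succ) (fbex o.succ.succ.succ
      (fand (fPM 0 (Fin.succ (Fin.succ (Fin.succ 0))) R.succ.succ.succ.succ) (gMem o.succ.succ.succ.succ R.succ.succ.succ.succ C.succ.succ.succ.succ 0 (Fin.succ 0))))))))))

def gClubName (o R C p : Fin n) : Fml n :=
  fand (gUnbName o R C p) (fball o (.imp (fbex o.succ (.mem 0 (Fin.succ 0))) (fball o.succ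
    (.imp (fPM 0 p.succ.succ R.succ.succ) (.imp (gUnbBelow o.succ.succ R.succ.succ C.succ.succ 0 (Fin.succ 0))
      (gMem o.succ.succ R.succ.succ C.succ.succ 0 (Fin.succ 0)))))))

def gSSP (o R : Fin n) : Fml n :=
  .all (.all (fball o.succ.succ (.imp (gStat o.succ.succ.succ (Fin.succ (Fin.succ 0))) (.imp (gClubName o.succ.succ.succ R.succ.succ.succ (Fin.succ 0) 0)
    (fbex o.succ.succ.succ (fand (fPM 0 (Fin.succ 0) R.succ.succ.succ.succ) (fbex o.succ.succ.succ.succ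
      (fand (.mem 0 (Fin.succ (Fin.succ (Fin.succ (Fin.succ 0))))) (gMem o.succ.succ.succ.succ.succ R.succ.succ.succ.succ.succ (Fin.succ (Fin.succ (Fin.succ 0))) (Fin.succ 0) 0)))))))))

def gGeneric (o R D G : Fin n) : Fml n :=
  fand (fball o (fball o.succ (.imp (.mem (Fin.succ 0) G.succ.succ) (.imp (fPM (Fin.succ 0) 0 R.succ.succ) (.mem 0 G.succ.succ)))))
  (fand (fball o (fball o.succ (.imp (.mem (Fin.succ 0) G.succ.succ) (.imp (.mem 0 G.succ.succ)
      (fbex o.succ.succ (fand (.mem 0 G.succ.succ.succ) (fand (fPM 0 (Fin.succ (Fin.succ 0)) R.succ.succ.succ) (fPM 0 (Fin.succ 0) R.succ.succ.succ))))))))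
    (fball o (fbex o.succ (fand (.mem 0 G.succ.succ) (fPM (Fin.succ 0) 0 D.succ.succ)))))

def gMM (o : Fin n) : Fml n :=
  .all (.all (.imp (gPre o.succ.succ (Fin.succ 0)) (.imp (fball o.succ.succ (gDense o.succ.succ.succ (Fin.succ (Fin.succ 0)) (Fin.succ 0) 0))
    (.imp (gSSP o.succ.succ (Fin.succ 0)) (fex (gGeneric o.succ.succ.succ (Fin.succ (Fin.succ 0)) (Fin.succ 0) 0))))))

section Sat

variable {M : Type*} (E : M → M → Prop) (v : Fin n → M)

@[simp] lemma sat_fball (o : Fin n) (φ : Fml (n + 1)) : Sat E (fball o φ) v ↔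
    ∀ x, E x (v o) → Sat E φ (Fin.cons x v : Fin (n + 1) → M) := by
  simp only [fball, sat_all, sat_imp, sat_mem, Fin.cons_zero, Fin.cons_succ]

@[simp] lemma sat_fbex (o : Fin n) (φ : Fml (n + 1)) : Sat E (fbex o φ) v ↔
    ∃ x, E x (v o) ∧ Sat E φ (Fin.cons x v : Fin (n + 1) → M) := by
  simp only [fbex, sat_ex, sat_and, sat_mem, Fin.cons_zero, Fin.cons_succ]

lemma sat_gPre (o R : Fin n) : Sat E (gPre o R) v ↔ rPre E (v o) (v R) := by
  simp only [gPre, rPre, sat_and, sat_fball, sat_imp, sat_PM, Fin.cons_zero, Fin.cons_succ]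

lemma sat_gDense (o R D i : Fin n) :
    Sat E (gDense o R D i) v ↔ rDense E (v o) (v R) (v D) (v i) := by
  simp only [gDense, rDense, sat_and, sat_fball, sat_fbex, sat_PM, Fin.cons_zero, Fin.cons_succ]

lemma sat_gClub (o K : Fin n) : Sat E (gClub o K) v ↔ rClub E (v o) (v K) := by
  simp only [gClub, rClub, sat_and, sat_fball, sat_fbex, sat_imp, sat_mem, Fin.cons_zero,
    Fin.cons_succ]

lemma sat_gStat (o S : Fin n) : Sat E (gStat o S) v ↔ rStat E (v o) (v S) := by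
  simp only [gStat, rStat, sat_all, sat_and, sat_fbex, sat_imp, sat_mem, sat_gClub, Fin.cons_zero,
    Fin.cons_succ]

lemma sat_gMem (o R C q a : Fin n) :
    Sat E (gMem o R C q a) v ↔ rMem E (v o) (v R) (v C) (v q) (v a) := by
  simp only [gMem, rMem, sat_and, sat_fball, sat_fbex, sat_imp, sat_PM, Fin.cons_zero,
    Fin.cons_succ]

lemma sat_gUnbName (o R C p : Fin n) :
    Sat E (gUnbName o R C p) v ↔ rUnbName E (v o) (v R) (v C) (v p) := by
  simp only [gUnbName, rUnbName, sat_and, sat_fball, sat_fbex, sat_imp, sat_PM, sat_mem, sat_gMem,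
    Fin.cons_zero, Fin.cons_succ]

lemma sat_gUnbBelow (o R C q d : Fin n) :
    Sat E (gUnbBelow o R C q d) v ↔ rUnbBelow E (v o) (v R) (v C) (v q) (v d) := by
  simp only [gUnbBelow, rUnbBelow, sat_and, sat_fball, sat_fbex, sat_imp, sat_PM, sat_mem,
    sat_gMem, Fin.cons_zero, Fin.cons_succ]

lemma sat_gClubName (o R C p : Fin n) :
    Sat E (gClubName o R C p) v ↔ rClubName E (v o) (v R) (v C) (v p) := by
  simp only [gClubName, rClubName, sat_and, sat_fball, sat_fbex, sat_imp, sat_PM, sat_mem,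
    sat_gMem, sat_gUnbName, sat_gUnbBelow, Fin.cons_zero, Fin.cons_succ]

lemma sat_gSSP (o R : Fin n) : Sat E (gSSP o R) v ↔ rSSP E (v o) (v R) := by
  simp only [gSSP, rSSP, sat_all, sat_and, sat_fball, sat_fbex, sat_imp, sat_PM, sat_mem,
    sat_gMem, sat_gStat, sat_gClubName, Fin.cons_zero, Fin.cons_succ]

lemma sat_gGeneric (o R D G : Fin n) :
    Sat E (gGeneric o R D G) v ↔ rGeneric E (v o) (v R) (v D) (v G) := by
  simp only [gGeneric, rGeneric, sat_and, sat_fball, sat_fbex, sat_imp, sat_PM, sat_mem,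
    Fin.cons_zero, Fin.cons_succ]

lemma sat_gMM (o : Fin n) : Sat E (gMM o) v ↔ rMM E (v o) := by
  simp only [gMM, rMM, sat_all, sat_ex, sat_fball, sat_imp, sat_gPre, sat_gDense, sat_gSSP,
    sat_gGeneric, Fin.cons_zero, Fin.cons_succ]

end Sat

end Formulas

end Pool.Agent.MMA1
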