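import Pool.Agent.MMA1.Core
import Pool.Agent.MMA1.Rel
import Pool.Agent.MP_b1d3ea_lc.Omega
import Pool.Agent.MP_b1d3ea_lc.Pairs

/-!
# Check names of a well-ordered type, names of subsets and of relations
-/

set_option autoImplicit false

namespace Pool.Agent.MMA1

open Pool.Agent.BVM Pool.Agent.StarHur Pool.Agent.StarHur.Transfer

noncomputable section

variable {W : Type} [LinearOrder W] [WellFoundedLT W] {𝔹 : Type} [CompleteBooleanAlgebra 𝔹]

variable (𝔹) in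
/-- The check name of (the set of predecessors of) `a`. -/
def chk (a : W) : BSet 𝔹 :=
  WellFounded.fix (C := fun _ : W => BSet 𝔹) (wellFounded_lt (α := W))
    (fun a ih => ⟨{b : W // b < a}, fun b => ih b.1 b.2, fun _ => ⊤⟩) a

lemma chk_eq (a : W) : chk 𝔹 a = ⟨{b : W // b < a}, fun b => chk 𝔹 b.1, fun _ => ⊤⟩ := by
  rw [chk, WellFounded.fix_eq]
  rfl

variable (W 𝔹) in
/-- The name of `W`. -/
def WN : BSet 𝔹 := ⟨W, chk 𝔹, fun _ => ⊤⟩

lemma bmem_chk (x : BSet 𝔹) (a : W) : bmem x (chk 𝔹 a) = ⨆ b, ⨆ _ : b < a, beq x (chk 𝔹 b) := by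
  rw [chk_eq, bmem_def]
  apply le_antisymm
  · refine iSup_le fun b => ?_
    exact le_iSup₂_of_le b.1 b.2 inf_le_right
  · refine iSup₂_le fun b hb => ?_
    exact le_iSup_of_le (⟨b, hb⟩ : {b : W // b < a}) (le_inf le_top le_rfl)

lemma bmem_WN (x : BSet 𝔹) : bmem x (WN W 𝔹) = ⨆ b : W, beq x (chk 𝔹 b) := by
  rw [WN, bmem_def]
  exact iSup_congr fun b => top_inf_eq _

lemma beq_chk_lt (a : W) : ∀ b, b < a → beq (chk 𝔹 b) (chk 𝔹 a) = ⊥ := by
  induction a using WellFoundedLT.induction with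
  | _ a ih =>
    intro b hb
    have h1 : bmem (chk 𝔹 b) (chk 𝔹 a) = ⊤ := by
      rw [bmem_chk, eq_top_iff]
      exact le_iSup₂_of_le b hb (beq_refl _).ge
    have h2 : bmem (chk 𝔹 b) (chk 𝔹 b) = ⊥ := by
      rw [bmem_chk, eq_bot_iff]
      refine iSup₂_le fun c hc => ?_
      rw [beq_symm, ih b hb c hc]
    have h3 := bmem_congr_right (chk 𝔹 b) (chk 𝔹 a) (chk 𝔹 b)
    rw [h1, h2, inf_top_eq, beq_symm] at h3
    exact eq_bot_iff.2 h3

open Classical in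
lemma beq_chk (a b : W) : beq (chk 𝔹 a) (chk 𝔹 b) = if a = b then ⊤ else ⊥ := by
  split_ifs with h
  · rw [h, beq_refl]
  · rcases lt_or_gt_of_ne h with h1 | h1
    · exact beq_chk_lt b a h1
    · rw [beq_symm]; exact beq_chk_lt a b h1

open Classical in
lemma bmem_chk_chk (a b : W) : bmem (chk 𝔹 a) (chk 𝔹 b) = if a < b then ⊤ else ⊥ := by
  rw [bmem_chk]
  split_ifs with h
  · rw [eq_top_iff]
    exact le_iSup₂_of_le a h (beq_refl _).ge
  · rw [eq_bot_iff]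
    refine iSup₂_le fun c hc => ?_
    rw [beq_chk, if_neg]
    rintro rfl
    exact h hc

lemma bmem_chk_WN (a : W) : bmem (chk 𝔹 a) (WN W 𝔹) = ⊤ := by
  rw [bmem_WN, eq_top_iff]
  exact le_iSup_of_le a (beq_refl _).ge

lemma ball_WN {f : BSet 𝔹 → 𝔹} (hf : Ext1 f) :
    (⨅ x, (bmem x (WN W 𝔹) ⇨ f x)) = ⨅ a : W, f (chk 𝔹 a) := by
  rw [ball_eq hf (WN W 𝔹)]
  exact iInf_congr fun n => top_himp

lemma bex_WN {f : BSet 𝔹 → 𝔹} (hf : Ext1 f) :
    (⨆ x, bmem x (WN W 𝔹) ⊓ f x) = ⨆ a : W, f (chk 𝔹 a) := by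
  rw [bex_eq hf (WN W 𝔹)]
  exact iSup_congr fun n => top_inf_eq _

/-- The subset of `W` given by a name. -/
def subOf (W : Type) [LinearOrder W] [WellFoundedLT W] (x : BSet 𝔹) : W → 𝔹 :=
  fun a => bmem (chk 𝔹 a) x

/-- The relation on `W` given by a name. -/
def relOf (W : Type) [LinearOrder W] [WellFoundedLT W] (x : BSet 𝔹) : W → W → 𝔹 :=
  fun a b => bmem (opair (chk 𝔹 a) (chk 𝔹 b)) x

/-- A name of a given subset. -/
def setN (s : W → 𝔹) : BSet 𝔹 := ⟨W, chk 𝔹, s⟩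

/-- A name of a given relation. -/
def relN (r : W → W → 𝔹) : BSet 𝔹 :=
  ⟨W × W, fun x => opair (chk 𝔹 x.1) (chk 𝔹 x.2), fun x => r x.1 x.2⟩

lemma subOf_setN (s : W → 𝔹) : subOf W (setN s) = s := by
  funext a
  rw [subOf, setN, bmem_def]
  apply le_antisymm
  · refine iSup_le fun (b : W) => ?_
    change s b ⊓ beq (chk 𝔹 a) (chk 𝔹 b) ≤ s a
    classical
    rw [beq_chk]
    split_ifs with h
    · subst h; exact inf_le_left
    · rw [inf_bot_eq]; exact bot_le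
  · refine le_iSup_of_le (a : W) ?_
    change s a ≤ s a ⊓ beq (chk 𝔹 a) (chk 𝔹 a)
    rw [beq_refl, inf_top_eq]

lemma relOf_relN (r : W → W → 𝔹) : relOf W (relN r) = r := by
  funext a b
  rw [relOf, relN, bmem_def]
  apply le_antisymm
  · refine iSup_le fun x => ?_
    change r x.1 x.2 ⊓ beq (opair (chk 𝔹 a) (chk 𝔹 b)) (opair (chk 𝔹 x.1) (chk 𝔹 x.2)) ≤ r a b
    classical
    rw [beq_opair, beq_chk, beq_chk]
    split_ifs with h1 h2 h2
    · rw [h1, h2]; exact inf_le_left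
    · rw [inf_bot_eq, inf_bot_eq]; exact bot_le
    · rw [bot_inf_eq, inf_bot_eq]; exact bot_le
    · rw [bot_inf_eq, inf_bot_eq]; exact bot_le
  · refine le_iSup_of_le ((a, b) : W × W) ?_
    change r a b ≤ r a b ⊓ beq (opair (chk 𝔹 a) (chk 𝔹 b)) (opair (chk 𝔹 a) (chk 𝔹 b))
    rw [beq_refl, inf_top_eq]

/-! ### Boolean values of the formulas -/

section Val

variable {n : ℕ} (v : Fin n → BSet 𝔹)

lemma bval_fball (o : Fin n) (ho : v o = WN W 𝔹) (φ : Fml (n + 1)) :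
    bval (fball o φ) v = ⨅ a : W, bval φ (Fin.cons (chk 𝔹 a) v : Fin (n + 1) → BSet 𝔹) := by
  rw [← ball_WN (bval_ext1 φ v), fball, bval_all]
  refine iInf_congr fun x => ?_
  rw [bval_imp, bval_mem, Fin.cons_zero, Fin.cons_succ, ho]

lemma bval_fbex (o : Fin n) (ho : v o = WN W 𝔹) (φ : Fml (n + 1)) :
    bval (fbex o φ) v = ⨆ a : W, bval φ (Fin.cons (chk 𝔹 a) v : Fin (n + 1) → BSet 𝔹) := by
  rw [← bex_WN (bval_ext1 φ v), fbex, bval_ex]
  refine iSup_congr fun x => ?_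
  rw [bval_and, bval_mem, Fin.cons_zero, Fin.cons_succ, ho]

lemma bval_fPM_chk (i j R : Fin n) (a b : W) (hi : v i = chk 𝔹 a) (hj : v j = chk 𝔹 b) :
    bval (fPM i j R) v = relOf W (v R) a b := by
  rw [bval_PM, bPM_eq, hi, hj]; rfl

end Val

end

end Pool.Agent.MMA1
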