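import Pool.Agent.MMA1.Core

/-!
# Boolean-valued functions on the first uncountable ordinal: closure points are unbounded
-/

set_option autoImplicit false

namespace Pool.Agent.MMA1.SSPAlg

open Classical

variable {W : Type} [LinearOrder W]
variable {C : Type} [CompleteBooleanAlgebra C]

/-- `c` forces that `omega_1` is preserved: every sequence of total Boolean-valued relations `g n` has a
bound. -/
def Pres (W : Type) [LinearOrder W] {C : Type} [CompleteBooleanAlgebra C] (c : C) : Prop :=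
  ∀ g : ℕ → W → C, (∀ n, c ≤ ⨆ a, g n a) → c ≤ ⨆ d, ⨅ n, ⨆ a, ⨆ _ : a < d, g n a

/-- value of: every `i < d` has a `F`-value below `d` -/
def clp (F : W → W → C) (d : W) : C := ⨅ i, ⨅ _ : i < d, ⨆ n, ⨆ _ : n < d, F i n

/-- least value: `lst G a` = value of `a` is the least element of `G` -/
def lst (G : W → C) (a : W) : C := G a ⊓ ⨅ b, ⨅ _ : b < a, (G b)ᶜ

theorem lst_le (G : W → C) (a : W) : lst G a ≤ G a := inf_le_left

theorem iSup_lst [WellFoundedLT W] (G : W → C) : ⨆ a, lst G a = ⨆ a, G a := by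
  refine le_antisymm (iSup_mono fun a => lst_le G a) (iSup_le fun a => ?_)
  induction a using WellFoundedLT.induction with
  | ind a ih =>
    have h : G a ≤ lst G a ⊔ ⨆ b, ⨆ _ : b < a, G b := by
      unfold lst
      rw [sup_comm, ← sdiff_le_iff, sdiff_eq, compl_iSup]
      simp only [compl_iSup]
      exact le_rfl
    refine h.trans (sup_le (le_iSup (lst G) a) (iSup₂_le fun b hb => ih b hb))

/-- value of: `F` maps `[0, a]` below `d`, and `a < d` -/
def stp (F : W → W → C) (a d : W) : C :=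
  (if a < d then ⊤ else ⊥) ⊓ ⨅ i, ⨅ _ : i ≤ a, ⨆ n, ⨆ _ : n < d, F i n

/-- the iteration of `stp`, starting from `b` -/
noncomputable def seqH (F : W → W → C) (b : W) : ℕ → W → C
  | 0, a => if a = b then ⊤ else ⊥
  | n + 1, d => ⨆ a, seqH F b n a ⊓ lst (stp F a) d

/-- with `Pres`, countably many total relations have a common bound; countable index version -/
theorem Pres.bound {c : C} (hC : Pres W c) {I : Type*} [Countable I] (g : I → W → C)
    (hg : ∀ i, c ≤ ⨆ a, g i a) [Nonempty W] : c ≤ ⨆ d, ⨅ i, ⨆ a, ⨆ _ : a < d, g i a := by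
  rcases isEmpty_or_nonempty I with hI | hI
  · exact le_top.trans (le_iSup_of_le (Classical.arbitrary W) (by rw [iInf_of_empty]))
  · obtain ⟨e, he⟩ := exists_surjective_nat I
    refine (hC (fun n => g (e n)) (fun n => hg (e n))).trans ?_
    refine iSup_mono fun d => le_iInf fun i => ?_
    obtain ⟨n, rfl⟩ := he i
    exact iInf_le _ n

theorem stp_total {c : C} (hC : Pres W c) [NoMaxOrder W] (hcount : ∀ a : W, (Set.Iic a).Countable)
    (F : W → W → C) (hF : ∀ i, c ≤ ⨆ n, F i n) (a : W) : c ≤ ⨆ d, stp F a d := by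
  have : Nonempty W := ⟨a⟩
  have : Countable (Option (Set.Iic a)) := by
    have : Countable (Set.Iic a) := (hcount a).to_subtype
    infer_instance
  have h := hC.bound (I := Option (Set.Iic a))
    (fun i => match i with
      | none => fun n => if n = a then ⊤ else ⊥
      | some i => F i.1) (by
      intro i
      match i with
      | none => exact le_top.trans (le_iSup_of_le a (by simp))
      | some i => exact hF i.1)
  refine h.trans (iSup_mono fun d => ?_)
  refine le_inf ?_ (le_iInf₂ fun i hi => (iInf_le _ (some (⟨i, hi⟩ : Set.Iic a))))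
  refine (iInf_le _ none).trans ?_
  refine iSup₂_le fun n hn => ?_
  by_cases hna : n = a
  · subst hna
    simp [hn]
  · simp [hna]

theorem seqH_total [WellFoundedLT W] {c : C} (hC : Pres W c) [NoMaxOrder W]
    (hcount : ∀ a : W, (Set.Iic a).Countable) (F : W → W → C)
    (hF : ∀ i, c ≤ ⨆ n, F i n) (b : W) (n : ℕ) : c ≤ ⨆ a, seqH F b n a := by
  induction n with
  | zero => exact le_top.trans (le_iSup_of_le b (by simp [seqH]))
  | succ n ih =>
    have h0 : c ≤ c ⊓ ⨆ a, seqH F b n a := le_inf le_rfl ih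
    refine h0.trans ?_
    rw [inf_iSup_eq]
    refine iSup_le fun a => ?_
    have h : c ≤ ⨆ d, lst (stp F a) d := by
      rw [iSup_lst]; exact stp_total hC hcount F hF a
    calc c ⊓ seqH F b n a ≤ seqH F b n a ⊓ ⨆ d, lst (stp F a) d :=
          le_inf inf_le_right (inf_le_left.trans h)
      _ = ⨆ d, seqH F b n a ⊓ lst (stp F a) d := by rw [inf_iSup_eq]
      _ ≤ ⨆ d, seqH F b (n + 1) d := iSup_mono fun d => by
        show _ ≤ ⨆ a, seqH F b n a ⊓ lst (stp F a) d
        exact le_iSup (fun a => seqH F b n a ⊓ lst (stp F a) d) a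

theorem lst_disj (G : W → C) {a b : W} (h : a ≠ b) : lst G a ⊓ lst G b = ⊥ := by
  rcases lt_or_gt_of_ne h with h | h
  · rw [eq_bot_iff]
    have h1 : lst G a ≤ G a := inf_le_left
    have h2 : lst G b ≤ (G a)ᶜ := inf_le_right.trans (iInf₂_le a h)
    exact (inf_le_inf h1 h2).trans (by rw [inf_compl_self])
  · rw [eq_bot_iff]
    have h1 : lst G b ≤ G b := inf_le_left
    have h2 : lst G a ≤ (G b)ᶜ := inf_le_right.trans (iInf₂_le b h)
    exact (inf_le_inf h2 h1).trans (by rw [compl_inf_self])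

theorem seqH_disj (F : W → W → C) (b : W) (n : ℕ) {a a' : W} (h : a ≠ a') :
    seqH F b n a ⊓ seqH F b n a' = ⊥ := by
  induction n generalizing a a' with
  | zero =>
    show (if a = b then ⊤ else ⊥ : C) ⊓ (if a' = b then ⊤ else ⊥ : C) = ⊥
    by_cases h1 : a = b
    · have h2 : a' ≠ b := fun h2 => h (h1.trans h2.symm)
      simp [h2]
    · simp [h1]
  | succ n ih =>
    show (⨆ c, seqH F b n c ⊓ lst (stp F c) a) ⊓ (⨆ c, seqH F b n c ⊓ lst (stp F c) a') = ⊥
    rw [eq_bot_iff, iSup_inf_eq]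
    refine iSup_le fun c => ?_
    rw [inf_iSup_eq]
    refine iSup_le fun c' => ?_
    by_cases hc : c = c'
    · subst hc
      calc (seqH F b n c ⊓ lst (stp F c) a) ⊓ (seqH F b n c ⊓ lst (stp F c) a')
          ≤ lst (stp F c) a ⊓ lst (stp F c) a' := inf_le_inf inf_le_right inf_le_right
        _ = ⊥ := lst_disj _ h
        _ ≤ ⊥ := le_rfl
    · calc (seqH F b n c ⊓ lst (stp F c) a) ⊓ (seqH F b n c' ⊓ lst (stp F c') a')
          ≤ seqH F b n c ⊓ seqH F b n c' := inf_le_inf inf_le_left inf_le_left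
        _ = ⊥ := ih hc
        _ ≤ ⊥ := le_rfl

/-- the `n+1`-st value is above `F`-values of everything below the `n`-th value -/
theorem seqH_step (F : W → W → C) (b : W) (n : ℕ) (a : W) (d : W) :
    seqH F b n a ⊓ (⨆ e, ⨆ _ : e < d, seqH F b (n + 1) e) ≤
      ⨅ i, ⨅ _ : i ≤ a, ⨆ m, ⨆ _ : m < d, F i m := by
  rw [inf_iSup_eq]
  refine iSup_le fun e => ?_
  rw [inf_iSup_eq]
  refine iSup_le fun he => ?_
  show seqH F b n a ⊓ (⨆ c, seqH F b n c ⊓ lst (stp F c) e) ≤ _
  rw [inf_iSup_eq]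
  refine iSup_le fun c => ?_
  by_cases hc : a = c
  · subst hc
    refine (inf_le_right.trans (inf_le_right.trans ((lst_le _ _).trans inf_le_right))).trans ?_
    refine iInf₂_mono fun i _ => iSup_mono fun m => iSup_le fun hm => ?_
    exact le_iSup_of_le (hm.trans he) le_rfl
  · calc seqH F b n a ⊓ (seqH F b n c ⊓ lst (stp F c) e) ≤ seqH F b n a ⊓ seqH F b n c :=
          inf_le_inf_left _ inf_le_left
      _ = ⊥ := seqH_disj F b n hc
      _ ≤ _ := bot_le

/-- closure points of a total Boolean-valued relation are unbounded -/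
theorem clp_unbounded [WellFoundedLT W] {c : C} (hC : Pres W c) [NoMaxOrder W]
    (hcount : ∀ a : W, (Set.Iic a).Countable) (F : W → W → C)
    (hF : ∀ i, c ≤ ⨆ n, F i n) (b : W) : c ≤ ⨆ d, ⨆ _ : b < d, clp F d := by
  set H := seqH F b with hH
  set K : W → C := fun d => ⨅ n, ⨆ a, ⨆ _ : a < d, H n a with hK
  have hKtop : c ≤ ⨆ d, lst K d := by
    rw [iSup_lst]; exact hC H (seqH_total hC hcount F hF b)
  have h0 : c ≤ c ⊓ ⨆ d, lst K d := le_inf le_rfl hKtop
  refine h0.trans ?_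
  rw [inf_iSup_eq]
  refine iSup_le fun d => ?_
  have hbd : ¬ (b < d) → lst K d ≤ ⊥ := by
    intro hbd
    refine (lst_le K d).trans ((iInf_le _ 0).trans (iSup₂_le fun a ha => ?_))
    show seqH F b 0 a ≤ ⊥
    have : a ≠ b := fun h => hbd (h ▸ ha)
    show (if a = b then ⊤ else ⊥ : C) ≤ ⊥
    simp [this]
  by_cases hbd' : b < d
  swap
  · exact (inf_le_right.trans (hbd hbd')).trans bot_le
  refine le_iSup₂_of_le d hbd' (le_iInf₂ fun i hi => ?_)
  -- below `lst K d` some value is above `i`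
  have h1 : lst K d ≤ (K i)ᶜ := inf_le_right.trans (iInf₂_le i hi)
  have h2 : lst K d ≤ K d := lst_le K d
  have h3 : (K i)ᶜ = ⨆ n, (⨆ a, ⨆ _ : a < i, H n a)ᶜ := by
    show (⨅ n, ⨆ a, ⨆ _ : a < i, H n a)ᶜ = _
    rw [compl_iInf]
  have h4 : c ⊓ lst K d ≤ (c ⊓ K d) ⊓ ⨆ n, (⨆ a, ⨆ _ : a < i, H n a)ᶜ :=
    le_inf (inf_le_inf_left _ h2) (inf_le_right.trans (h1.trans h3.le))
  refine h4.trans ?_
  rw [inf_iSup_eq]
  refine iSup_le fun n => ?_
  have h5 : c ⊓ (⨆ a, ⨆ _ : a < i, H n a)ᶜ ≤ ⨆ a, ⨆ _ : i ≤ a, H n a := by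
    refine (inf_le_inf_right _ (seqH_total hC hcount F hF b n)).trans ?_
    rw [iSup_inf_eq]
    refine iSup_le fun a => ?_
    rcases lt_or_ge a i with ha | ha
    · refine (inf_le_inf_right _ (le_iSup₂_of_le (f := fun a (_ : a < i) => H n a) a ha le_rfl)).trans ?_
      rw [inf_compl_self]
      exact bot_le
    · exact inf_le_left.trans (le_iSup₂_of_le (f := fun a (_ : i ≤ a) => H n a) a ha le_rfl)
  have h8 : (c ⊓ K d) ⊓ (⨆ a, ⨆ _ : a < i, H n a)ᶜ ≤ K d ⊓ ⨆ a, ⨆ _ : i ≤ a, H n a :=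
    le_inf (inf_le_left.trans inf_le_right) ((inf_le_inf_right _ inf_le_left).trans h5)
  refine h8.trans ?_
  rw [inf_iSup_eq]
  refine iSup_le fun a => ?_
  rw [inf_iSup_eq]
  refine iSup_le fun ha => ?_
  have h6 : K d ⊓ H n a ≤ ⨆ m, ⨆ _ : m < d, F i m := by
    have h7 : K d ⊓ H n a ≤ H n a ⊓ ⨆ e, ⨆ _ : e < d, H (n + 1) e :=
      le_inf inf_le_right (inf_le_left.trans (iInf_le _ (n + 1)))
    exact (h7.trans (seqH_step F b n a d)).trans (iInf₂_le i ha)
  exact h6

end Pool.Agent.MMA1.SSPAlg
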