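import Pool.Agent.MMA1.Clos

/-!
# Boolean values of club and stationary; a club of order type omega if omega_1 is collapsed
-/

set_option autoImplicit false

namespace Pool.Agent.MMA1.SSPAlg

open Classical

variable {W : Type} [LinearOrder W]
variable {C : Type} [CompleteBooleanAlgebra C]

/-- value of: `X` is unbounded -/
def unbv (X : W → C) : C := ⨅ b, ⨆ d, ⨆ _ : b < d, X d

/-- value of: `X` is unbounded in `d` -/
def accv (X : W → C) (d : W) : C := ⨅ b, ⨅ _ : b < d, ⨆ e, ⨆ _ : b < e ∧ e < d, X e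

theorem vClub_eq (X : W → C) : vClub X = unbv X ⊓ ⨅ d, ⨅ _ : (∃ b, b < d), accv X d ⇨ X d := rfl

/-- `d` is a limit -/
def IsLim (d : W) : Prop := (∃ b, b < d) ∧ ∀ b, b < d → ∃ e, b < e ∧ e < d

theorem Pres.mono {b c : C} (hb : Pres W b) (hcb : c ≤ b) [Nonempty W] : Pres W c := by
  intro g hg
  have h := hb (fun n a => g n a ⊔ cᶜ) (fun n => by
    refine le_trans (b := c ⊔ cᶜ) (by rw [sup_compl_eq_top]; exact le_top) ?_
    refine sup_le ((hg n).trans (iSup_mono fun a => le_sup_left)) ?_
    exact le_iSup_of_le (Classical.arbitrary W) le_sup_right)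
  refine (le_inf le_rfl (hcb.trans h)).trans ?_
  rw [inf_iSup_eq]
  refine iSup_mono fun d => le_iInf fun n => ?_
  refine (inf_le_inf_left c (iInf_le _ n)).trans ?_
  rw [inf_iSup_eq]
  refine iSup_mono fun a => ?_
  rw [inf_iSup_eq]
  refine iSup_mono fun ha => ?_
  rw [inf_sup_left, inf_compl_self, sup_bot_eq]
  exact inf_le_right

theorem vClub_clp [WellFoundedLT W] {c : C} (hC : Pres W c) [NoMaxOrder W]
    (hcount : ∀ a : W, (Set.Iic a).Countable) (F : W → W → C)
    (hF : ∀ i, c ≤ ⨆ n, F i n) : c ≤ vClub (clp F) := by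
  refine le_inf (le_iInf fun b => clp_unbounded hC hcount F hF b) (le_iInf₂ fun d _ => ?_)
  rw [le_himp_iff]
  refine le_iInf₂ fun i hi => inf_le_right.trans ((iInf₂_le i hi).trans ?_)
  refine iSup_le fun e => iSup_le fun ⟨hie, hed⟩ => ?_
  refine (iInf₂_le i hie).trans (iSup_mono fun n => iSup_le fun hn => ?_)
  exact le_iSup_of_le (hn.trans hed) le_rfl

/-- the set of limits is stationary -/
theorem stat_lim [WellFoundedLT W] {c : C} (hC : Pres W c) [NoMaxOrder W] [Nonempty W]
    (hcount : ∀ a : W, (Set.Iic a).Countable) :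
    c ≤ vStat (fun a : W => if IsLim a then ⊤ else ⊥) := by
  refine le_iInf fun X => ?_
  rw [le_himp_iff]
  have hC' : Pres W (c ⊓ vClub X) := hC.mono inf_le_left
  have h := clp_unbounded hC' hcount (fun i n => if i < n then X n else ⊥) (by
    intro i
    refine (inf_le_right.trans (inf_le_left.trans (iInf_le _ i))).trans ?_
    refine iSup_mono fun n => iSup_le fun hn => ?_
    simp [hn]) (Classical.arbitrary W)
  refine (le_inf inf_le_right h).trans ?_
  rw [inf_iSup_eq]
  refine iSup_le fun d => ?_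
  rw [inf_iSup_eq]
  refine iSup_le fun hd => ?_
  refine le_iSup_of_le d ?_
  have key : clp (fun i n : W => if i < n then X n else ⊥) d ≤ accv X d := by
    refine iInf₂_mono fun i hi => ?_
    refine iSup_mono fun n => iSup_le fun hn => ?_
    by_cases hin : i < n
    · simp [hin, hn]
    · simp [hin]
  by_cases hlim : IsLim d
  · show _ ≤ (if IsLim d then (⊤ : C) else ⊥) ⊓ X d
    rw [if_pos hlim, top_inf_eq]
    have h2 : vClub X ≤ accv X d ⇨ X d := inf_le_right.trans (iInf₂_le d hlim.1)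
    rw [le_himp_iff] at h2
    exact (inf_le_inf_left _ key).trans h2
  · have : ∃ b, b < d ∧ ∀ e, b < e → ¬ e < d := by
      by_contra hcon
      push Not at hcon
      exact hlim ⟨⟨_, hd⟩, hcon⟩
    obtain ⟨b, hbd, hb⟩ := this
    refine inf_le_right.trans ((key.trans (iInf₂_le b hbd)).trans ?_)
    refine iSup_le fun e => iSup_le fun h => absurd h.2 (hb e h.1)

/-- value of: the values of `g 0, ..., g n` are bounded by `a` -/
def bdv (g : ℕ → W → C) (n : ℕ) (a : W) : C := ⨅ m, ⨅ _ : m ≤ n, ⨆ b, ⨆ _ : b ≤ a, g m b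

theorem bdv_anti (g : ℕ → W → C) {m n : ℕ} (h : m ≤ n) (a : W) : bdv g n a ≤ bdv g m a :=
  le_iInf₂ fun k hk => iInf₂_le (f := fun m (_ : m ≤ n) => ⨆ b, ⨆ _ : b ≤ a, g m b) k (hk.trans h)

theorem bdv_total {c : C} (g : ℕ → W → C) (hg : ∀ n, c ≤ ⨆ a, g n a) (n : ℕ) :
    c ≤ ⨆ a, bdv g n a := by
  induction n with
  | zero =>
    refine (hg 0).trans (iSup_mono fun a => le_iInf₂ fun m hm => ?_)
    obtain rfl : m = 0 := Nat.le_zero.1 hm
    exact le_iSup₂_of_le a le_rfl le_rfl
  | succ n ih =>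
    refine (le_inf ih (hg (n + 1))).trans ?_
    rw [iSup_inf_eq]
    refine iSup_le fun a => ?_
    rw [inf_iSup_eq]
    refine iSup_le fun b => ?_
    refine le_iSup_of_le (max a b) (le_iInf₂ fun m hm => ?_)
    rcases Nat.le_succ_iff.1 hm with h | h
    · refine inf_le_left.trans ((iInf₂_le m h).trans ?_)
      refine iSup_mono fun e => iSup_le fun he => le_iSup_of_le (he.trans (le_max_left a b)) le_rfl
    · subst h
      exact inf_le_right.trans (le_iSup₂_of_le b (le_max_right a b) le_rfl)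

theorem lst_bdv_mono (g : ℕ → W → C) {m n : ℕ} (h : m ≤ n) {a a' : W} (ha : a' < a) :
    lst (bdv g m) a ⊓ lst (bdv g n) a' ≤ ⊥ := by
  have h1 : lst (bdv g m) a ≤ (bdv g m a')ᶜ := inf_le_right.trans (iInf₂_le a' ha)
  have h2 : lst (bdv g n) a' ≤ bdv g m a' := (lst_le _ _).trans (bdv_anti g h a')
  exact (inf_le_inf h1 h2).trans (by rw [compl_inf_self])

/-- if `omega_1` is collapsed below `c`, there is a club of order type omega consisting of successors -/
theorem collapse_club [WellFoundedLT W] [SuccOrder W] [NoMaxOrder W] {c : C} (g : ℕ → W → C)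
    (hg : ∀ n, c ≤ ⨆ a, g n a) (hb : c ⊓ ⨆ d, ⨅ n, ⨆ a, ⨆ _ : a < d, g n a = ⊥) :
    ∃ X : W → C, c ≤ vClub X ∧ ∀ d, IsLim d → X d = ⊥ := by
  set Y : ℕ → W → C := fun n d => ⨆ a, ⨆ _ : Order.succ a = d, lst (bdv g n) a with hY
  set X : W → C := fun d => ⨆ n, Y n d with hX
  have hYtot : ∀ n, c ≤ ⨆ d, Y n d := by
    intro n
    have h1 : c ≤ ⨆ a, lst (bdv g n) a := by rw [iSup_lst]; exact bdv_total g hg n
    refine h1.trans (iSup_le fun a => le_iSup_of_le (Order.succ a) ?_)
    exact le_iSup₂_of_le a rfl le_rfl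
  have hYmono : ∀ {m n : ℕ}, m ≤ n → ∀ {d d' : W}, d' < d → Y m d ⊓ Y n d' ≤ ⊥ := by
    intro m n h d d' hd
    simp only [hY, iSup_inf_eq, inf_iSup_eq]
    refine iSup_le fun a => iSup_le fun ha => iSup_le fun a' => iSup_le fun ha' => ?_
    subst ha; subst ha'
    exact lst_bdv_mono g h ((Order.succ_lt_succ_iff).1 hd)
  have hYg : ∀ n d, Y n d ≤ ⨆ a, ⨆ _ : a < d, g n a := by
    intro n d
    refine iSup₂_le fun a ha => ?_
    refine (lst_le _ _).trans
      ((iInf₂_le (f := fun m (_ : m ≤ n) => ⨆ b, ⨆ _ : b ≤ a, g m b) n le_rfl).trans ?_)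
    refine iSup_mono fun b => iSup_le fun hba => le_iSup_of_le ?_ le_rfl
    rw [← ha]
    exact hba.trans_lt (Order.lt_succ a)
  have hsmall : ∀ z : C, z ≤ c → ∀ d : W, (∀ n, z ≤ ⨆ a, ⨆ _ : a < d, g n a) → z ≤ ⊥ := by
    intro z hz d h
    rw [← hb]
    exact le_inf hz (le_iSup_of_le d (le_iInf h))
  refine ⟨X, le_inf (le_iInf fun b => ?_) (le_iInf₂ fun d hd => ?_), ?_⟩
  · -- unbounded
    rw [← compl_compl (⨆ d, ⨆ _ : b < d, X d), le_compl_iff_disjoint_right, disjoint_iff, eq_bot_iff]
    refine hsmall _ inf_le_left b fun n => ?_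
    refine (le_inf (inf_le_left.trans (hYtot n)) inf_le_right).trans ?_
    rw [iSup_inf_eq]
    refine iSup_le fun d => ?_
    rcases lt_or_ge b d with h | h
    · refine le_trans (b := ⊥) ?_ bot_le
      have h1 : Y n d ≤ ⨆ d, ⨆ _ : b < d, X d := le_iSup₂_of_le d h (le_iSup (fun n => Y n d) n)
      exact (inf_le_inf_right _ h1).trans (by rw [inf_compl_self])
    · refine inf_le_left.trans ((hYg n d).trans ?_)
      exact iSup_mono fun a => iSup_le fun ha => le_iSup_of_le (ha.trans_le h) le_rfl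
  · -- closed
    rw [le_himp_iff]
    refine le_trans (hsmall _ inf_le_left d fun n => ?_) bot_le
    have claim : ∀ n e, d ≤ e → c ⊓ (Y n e ⊓ accv X d) ≤ ⊥ := by
      intro n
      induction n with
      | zero =>
        intro e he
        obtain ⟨b, hbd⟩ := hd
        refine inf_le_right.trans ((inf_le_inf_left _ (iInf₂_le b hbd)).trans ?_)
        simp only [inf_iSup_eq, hX]
        refine iSup_le fun f => iSup_le fun hfd => iSup_le fun m => ?_
        exact hYmono (Nat.zero_le m) (hfd.2.trans_le he)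
      | succ n ih =>
        intro e he
        refine (le_inf le_rfl (inf_le_left.trans (hYtot n))).trans ?_
        rw [inf_iSup_eq]
        refine iSup_le fun f => ?_
        rcases lt_or_ge f d with hfd | hfd
        · have h1 : (c ⊓ (Y (n + 1) e ⊓ accv X d)) ⊓ Y n f ≤
              (Y (n + 1) e ⊓ Y n f) ⊓ ⨆ e', ⨆ _ : f < e' ∧ e' < d, X e' :=
            le_inf (le_inf (inf_le_left.trans (inf_le_right.trans inf_le_left)) inf_le_right)
              (inf_le_left.trans (inf_le_right.trans (inf_le_right.trans (iInf₂_le f hfd))))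
          refine h1.trans ?_
          simp only [inf_iSup_eq, hX]
          refine iSup_le fun f' => iSup_le fun hff => iSup_le fun m => ?_
          obtain ⟨hff', hf'd⟩ := hff
          rcases le_or_gt m n with hmn | hmn
          · calc (Y (n + 1) e ⊓ Y n f) ⊓ Y m f' ≤ Y m f' ⊓ Y n f :=
                  le_inf inf_le_right (inf_le_left.trans inf_le_right)
              _ ≤ ⊥ := hYmono hmn hff'
          · calc (Y (n + 1) e ⊓ Y n f) ⊓ Y m f' ≤ Y (n + 1) e ⊓ Y m f' :=
                  inf_le_inf_right _ inf_le_left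
              _ ≤ ⊥ := hYmono hmn (hf'd.trans_le he)
        · refine le_trans ?_ (ih f hfd)
          exact le_inf (inf_le_left.trans inf_le_left)
            (le_inf inf_le_right (inf_le_left.trans (inf_le_right.trans inf_le_right)))
    refine (le_inf le_rfl (inf_le_left.trans (hYtot n))).trans ?_
    rw [inf_iSup_eq]
    refine iSup_le fun e => ?_
    rcases lt_or_ge e d with hed | hed
    · refine inf_le_right.trans ((hYg n e).trans ?_)
      exact iSup_mono fun a => iSup_le fun ha => le_iSup_of_le (ha.trans hed) le_rfl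
    · refine le_trans (le_trans ?_ (claim n e hed)) bot_le
      exact le_inf (inf_le_left.trans inf_le_left) (le_inf inf_le_right (inf_le_left.trans inf_le_right))
  · -- successors
    intro d hlim
    rw [eq_bot_iff]
    refine iSup_le fun n => iSup₂_le fun a ha => ?_
    exfalso
    have h1 : a < d := by rw [← ha]; exact Order.lt_succ a
    obtain ⟨e, hae, hed⟩ := hlim.2 a h1
    have h2 : Order.succ a ≤ e := Order.succ_le_of_lt hae
    rw [ha] at h2
    exact absurd hed (not_lt.2 h2)

end Pool.Agent.MMA1.SSPAlg
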