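import Mathlib

/-!
# The Boolean core of MM(aleph_1)

`W` is (a type well-ordered in type) `ω₁`, `𝔹` a complete Boolean algebra.  A function `W → 𝔹` is a
`𝔹`-name of a subset of `ω₁`, a function `W → W → 𝔹` a `𝔹`-name of a binary relation on `ω₁`.  All
expressions below are Boolean values of second order statements about the structure `(ω₁, <)`.

`R p q` is the Boolean value of `p ≤ q`.
-/

set_option autoImplicit false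

namespace Pool.Agent.MMA1

variable {W : Type} [LT W] {𝔹 : Type} [CompleteBooleanAlgebra 𝔹]

/-- `R` is reflexive and transitive. -/
def vPre (R : W → W → 𝔹) : 𝔹 :=
  (⨅ a, R a a) ⊓ ⨅ a, ⨅ b, ⨅ c, (R a b ⊓ R b c ⇨ R a c)

/-- `D` is dense in the order `R`. -/
def vDense (R : W → W → 𝔹) (D : W → 𝔹) : 𝔹 := ⨅ p, ⨆ q, R q p ⊓ D q

/-- `K` is a closed unbounded subset of `ω₁`: it is unbounded, and contains every `d > 0` below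
which it is unbounded. -/
def vClub (K : W → 𝔹) : 𝔹 :=
  (⨅ b, ⨆ a, ⨆ _ : b < a, K a) ⊓
    ⨅ d, ⨅ _ : ∃ b, b < d, ((⨅ b, ⨅ _ : b < d, ⨆ a, ⨆ _ : b < a ∧ a < d, K a) ⇨ K d)

/-- `S` is a stationary subset of `ω₁`. -/
def vStat (S : W → 𝔹) : 𝔹 := ⨅ K : W → 𝔹, (vClub K ⇨ ⨆ a, S a ⊓ K a)

/-- `C` is used as a name (in the sense of the poset `R` on `ω₁`) of a subset of `ω₁`: the pair
`(a, t)` belongs to the name if `C a t`.  This is the Boolean value of `q ⊩ a ∈ C`. -/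
def vMem (R C : W → W → 𝔹) (q a : W) : 𝔹 :=
  ⨅ r, (R r q ⇨ ⨆ s, R s r ⊓ ⨆ t, R s t ⊓ C a t)

/-- Boolean value of: `p ⊩` the set named by `C` is unbounded in `ω₁`. -/
def vUnbName (R C : W → W → 𝔹) (p : W) : 𝔹 :=
  ⨅ q, (R q p ⇨ ⨅ b, ⨆ a, ⨆ _ : b < a, ⨆ r, R r q ⊓ vMem R C r a)

/-- Boolean value of: `q ⊩` the set named by `C` is unbounded in `d`. -/
def vUnbBelow (R C : W → W → 𝔹) (q d : W) : 𝔹 :=
  ⨅ r, (R r q ⇨ ⨅ b, ⨅ _ : b < d, ⨆ a, ⨆ _ : b < a ∧ a < d, ⨆ s, R s r ⊓ vMem R C s a)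

/-- Boolean value of: `p ⊩` the set named by `C` is closed unbounded in `ω₁`. -/
def vClubName (R C : W → W → 𝔹) (p : W) : 𝔹 :=
  vUnbName R C p ⊓
    ⨅ d, ⨅ _ : ∃ b, b < d, ⨅ q, (R q p ⊓ vUnbBelow R C q d ⇨ vMem R C q d)

/-- Boolean value of: the poset `R` on `ω₁` preserves the stationary subsets of `ω₁`. -/
def vSSP (R : W → W → 𝔹) : 𝔹 :=
  ⨅ S : W → 𝔹, ⨅ C : W → W → 𝔹, ⨅ p : W,
    (vStat S ⊓ vClubName R C p ⇨ ⨆ q, R q p ⊓ ⨆ a, S a ⊓ vMem R C q a)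

/-- Boolean value of: `G` is a filter of the order `R` which meets all sets `D i`. -/
def vGeneric (R : W → W → 𝔹) (D : W → W → 𝔹) (G : W → 𝔹) : 𝔹 :=
  (⨅ p, ⨅ q, (G p ⊓ R p q ⇨ G q)) ⊓
  ((⨅ p, ⨅ q, (G p ⊓ G q ⇨ ⨆ r, G r ⊓ R r p ⊓ R r q)) ⊓ ⨅ i, ⨆ p, G p ⊓ D i p)

/-- Boolean value of `MM(ℵ₁)` for (pre)orders on `ω₁`. -/
def vMM (W : Type) [LT W] (𝔹 : Type) [CompleteBooleanAlgebra 𝔹] : 𝔹 :=
  ⨅ R : W → W → 𝔹, ⨅ D : W → W → 𝔹,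
    (vPre R ⊓ (⨅ i, vDense R (D i)) ⊓ vSSP R ⇨ ⨆ G : W → 𝔹, vGeneric R D G)

/-- Every `𝔹`-name of a (partial) function from `ω` to `ω₁` is bounded: `𝔹` does not collapse
`ω₁`. -/
def Bounded (W : Type) [LT W] (𝔹 : Type) [CompleteBooleanAlgebra 𝔹] : Prop :=
  ∀ F : ℕ → W → 𝔹, (∀ n a b, a ≠ b → F n a ⊓ F n b = ⊥) →
    (⨆ c, ⨅ n, ⨅ a, ⨅ _ : ¬ a < c, (F n a)ᶜ) = ⊤

end Pool.Agent.MMA1
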