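import Pool.Agent.MP_b1d3ea_lc.RO

/-!
# MM(aleph_1) is consistent relative to ZFC: definitions for the iteration

All conditions of the iteration live on one fixed type `Cd` of functions with countable support with values
in a type of codes.  `LE F ξ` is the order of the `ξ`-th stage of the iteration given by the program `F`.
-/

set_option autoImplicit false

namespace Pool.Agent.MMA1

open Classical Cardinal

/-! ### preorders on a fixed type and their regular open algebras -/

/-- A preorder on the type `X`. -/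
structure Pre (X : Type) where
  le : X → X → Prop
  refl : ∀ x, le x x
  trans : ∀ x y z, le x y → le y z → le x z

/-- the type `X` with the preorder `L` -/
def PT {X : Type} (_ : Pre X) : Type := X

instance {X : Type} (L : Pre X) : Preorder (PT L) where
  le := L.le
  le_refl := L.refl
  le_trans := L.trans

/-- the algebra of regular lower sets of `(X, L)` -/
def BA {X : Type} (L : Pre X) : Type := StarHur.RO.Alg (PT L)

noncomputable instance {X : Type} (L : Pre X) : CompleteBooleanAlgebra (BA L) :=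
  StarHur.RO.completeBooleanAlgebra (PT L)

/-- `x` forces `U` -/
def Fo {X : Type} {L : Pre X} (x : X) (U : BA L) : Prop :=
  (x : PT L) ∈ (Heyting.Regular.val (show StarHur.RO.Alg (PT L) from U) : LowerSet (PT L))

/-- the regular lower set generated by a set -/
noncomputable def toB {X : Type} (L : Pre X) (S : Set X) : BA L :=
  Heyting.Regular.toRegular (lowerClosure (S : Set (PT L)))

/-- the regular lower set generated by a point -/
noncomputable def down {X : Type} (L : Pre X) (x : X) : BA L := toB L {x}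

/-- compatibility -/
def Pre.Comp {X : Type} (L : Pre X) (x y : X) : Prop := ∃ z, L.le z x ∧ L.le z y

/-- density -/
def Pre.Dense {X : Type} (L : Pre X) (D : Set X) : Prop := ∀ x, ∃ y ∈ D, L.le y x

/-! ### names for posets and the two step iteration -/

/-- A name for a poset over `L`: the elements are given by names in `Y`, `m y` is the Boolean value of `y`
being an element and `r` the Boolean value of the order. -/
structure BPo {X : Type} (L : Pre X) where
  Y : Type
  m : Y → BA L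
  r : Y → Y → BA L
  r_refl : ∀ y, r y y = ⊤
  r_trans : ∀ x y z, r x y ⊓ r y z ≤ r x z
  ne : ⨆ y, m y = ⊤

/-- conditions of the two step iteration -/
def TSC {X : Type} {L : Pre X} (Q : BPo L) : Type := {z : X × Q.Y // Fo z.1 (Q.m z.2)}

/-- the two step iteration -/
def TS {X : Type} {L : Pre X} (Q : BPo L) : Pre (TSC Q) where
  le z w := L.le z.1.1 w.1.1 ∧ Fo z.1.1 (Q.r z.1.2 w.1.2)
  refl z := ⟨L.refl _, by rw [Q.r_refl]; trivial⟩
  trans x y z h1 h2 := ⟨L.trans _ _ _ h1.1 h2.1,
    Q.r_trans _ _ _ ⟨h1.2, (Heyting.Regular.val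
      (show StarHur.RO.Alg (PT L) from (Q.r y.1.2 z.1.2))).lower h1.1 h2.2⟩⟩

/-- the embedding of the first algebra -/
noncomputable def emb {X : Type} {L : Pre X} (Q : BPo L) (U : BA L) : BA (TS Q) :=
  toB (TS Q) {z | Fo z.1.1 U}

/-- the projection to the first algebra -/
noncomputable def prj {X : Type} {L : Pre X} (Q : BPo L) (V : BA (TS Q)) : BA L :=
  toB L {x | ∃ z : TSC Q, z.1.1 = x ∧ Fo z V}

/-! ### the types used in the iteration -/

/-- countable ordinals -/
def W : Type := (Ordinal.omega 1).ToType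
noncomputable instance : LinearOrder W := inferInstanceAs (LinearOrder (Ordinal.omega 1).ToType)
instance : WellFoundedLT W := inferInstanceAs (WellFoundedLT (Ordinal.omega 1).ToType)

/-- ordinals below `κ = (2 ^ ℵ₀)⁺` -/
def K : Type := (Order.succ (2 ^ ℵ₀ : Cardinal.{0})).ord.ToType
noncomputable instance : LinearOrder K :=
  inferInstanceAs (LinearOrder (Order.succ (2 ^ ℵ₀ : Cardinal.{0})).ord.ToType)
instance : WellFoundedLT K :=
  inferInstanceAs (WellFoundedLT (Order.succ (2 ^ ℵ₀ : Cardinal.{0})).ord.ToType)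

instance : Nonempty W := by
  change Nonempty (Ordinal.omega 1).ToType
  rw [Ordinal.nonempty_toType_iff]
  exact (Ordinal.omega_pos 1).ne'

instance : Nonempty K := by
  change Nonempty (Order.succ (2 ^ ℵ₀ : Cardinal.{0})).ord.ToType
  rw [Ordinal.nonempty_toType_iff]
  rw [Ne, Cardinal.ord_eq_zero]
  exact (lt_of_le_of_lt zero_le (Order.lt_succ (2 ^ ℵ₀ : Cardinal.{0}))).ne'

noncomputable instance : SuccOrder K := SuccOrder.ofLinearWellFoundedLT K

/-- codes (of cardinality `2 ^ 2 ^ ℵ₀`) -/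
abbrev A0 : Type := Set (Set ℕ)

/-- the type of all conditions: functions with countable support -/
def Cd : Type := {p : K → Option A0 // {η | p η ≠ none}.Countable}

/-- the value of a condition at a coordinate -/
def Cd.at (p : Cd) (η : K) : Option A0 := p.1 η

/-- the trivial condition -/
def Cd.triv : Cd := ⟨fun _ => none, by simp⟩

/-- `p` below `ξ` and `q` from `ξ` on -/
noncomputable def splice (ξ : WithTop K) (p q : Cd) : Cd :=
  ⟨fun η => if (η : WithTop K) < ξ then p.1 η else q.1 η, by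
    refine (p.2.union q.2).mono ?_
    intro η hη
    by_cases h : (η : WithTop K) < ξ
    · left; simpa [h] using hη
    · right; simpa [h] using hη⟩

/-- change one coordinate -/
noncomputable def Cd.set (p : Cd) (η : K) (a : Option A0) : Cd :=
  ⟨Function.update p.1 η a, by
    refine (p.2.union (Set.countable_singleton η)).mono ?_
    intro ζ hζ
    by_cases h : ζ = η
    · right; exact h
    · left; simpa [Function.update_of_ne h] using hζ⟩

/-! ### coding of conditions of a two step iteration -/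

/-- The decoding function: `none` is `⊤`, and if possible every element is coded. -/
noncomputable def dec {X : Type} {L : Pre X} (Q : BPo L) (a : Option A0) : BA (TS Q) :=
  match a with
  | none => ⊤
  | some a => if h : ∃ f : A0 → BA (TS Q), Function.Surjective f then h.choose a else ⊤

/-- the Boolean value at coordinate `η` of the condition `p` -/
noncomputable def val (L : Pre Cd) (Q : BPo L) (η : K) (p : Cd) : BA (TS Q) :=
  emb Q (down L p) ⊓ (dec Q (p.1 η) ⊔ (emb Q (prj Q (dec Q (p.1 η))))ᶜ)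

/-- every element of the two step algebra has a code -/
def FullQ {X : Type} {L : Pre X} (Q : BPo L) : Prop := ∃ f : A0 → BA (TS Q), Function.Surjective f

/-- antichains have cardinality at most `2 ^ ℵ₀` -/
def KCC {X : Type} (L : Pre X) : Prop :=
  ∀ A : Set X, (∀ x ∈ A, ∀ y ∈ A, x ≠ y → ¬ L.Comp x y) → Cardinal.mk A ≤ 2 ^ ℵ₀

/-- the order of the next stage -/
noncomputable def nxt (L : Pre Cd) (Q : BPo L) (η : K) : Pre Cd where
  le p q := L.le p q ∧ val L Q η p ≤ val L Q η q
  refl p := ⟨L.refl p, le_rfl⟩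
  trans _ _ _ h1 h2 := ⟨L.trans _ _ _ h1.1 h2.1, h1.2.trans h2.2⟩

/-! ### the iteration of a step function -/

/-- reflexive and transitive -/
def IsPre (R : Cd → Cd → Prop) : Prop := (∀ x, R x x) ∧ ∀ x y z, R x y → R y z → R x z

/-- a step function: it gives the next iterand -/
def Stp : Type 1 := (η : K) → (L : Pre Cd) → BPo L

/-- comparison at the coordinate `η` -/
noncomputable def Cmp (S : Stp) (η : K) (R : Cd → Cd → Prop) (p q : Cd) : Prop :=
  if h : IsPre R then val ⟨R, h.1, h.2⟩ (S η ⟨R, h.1, h.2⟩) η p ≤ val ⟨R, h.1, h.2⟩ (S η ⟨R, h.1, h.2⟩) η q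
  else True

/-- the order of the `ξ`-th stage as a relation -/
noncomputable def LEr (S : Stp) : WithTop K → Cd → Cd → Prop :=
  (wellFounded_lt (α := WithTop K)).fix fun ξ R p q =>
    ∀ (η : K) (h : (η : WithTop K) < ξ), Cmp S η (R η h) p q

theorem LEr_eq (S : Stp) (ξ : WithTop K) :
    LEr S ξ = fun p q => ∀ (η : K), (η : WithTop K) < ξ → Cmp S η (LEr S η) p q := by
  rw [LEr, WellFounded.fix_eq]

theorem isPre_LEr (S : Stp) (ξ : WithTop K) : IsPre (LEr S ξ) := by
  rw [LEr_eq]
  constructor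
  · intro p η _
    unfold Cmp
    split_ifs with h
    exact le_rfl
  · intro p q r h1 h2 η hη
    have h1' := h1 η hη
    have h2' := h2 η hη
    unfold Cmp at h1' h2' ⊢
    split_ifs with h
    rw [dif_pos h] at h1' h2'
    exact h1'.trans h2'

/-- the order of the `ξ`-th stage of the iteration -/
noncomputable def LE (S : Stp) (ξ : WithTop K) : Pre Cd := ⟨LEr S ξ, (isPre_LEr S ξ).1, (isPre_LEr S ξ).2⟩

/-- the iterand at `η` -/
noncomputable def Itd (S : Stp) (η : K) : BPo (LE S η) := S η (LE S η)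

/-- the value of a condition at `η` -/
noncomputable def Val (S : Stp) (η : K) (p : Cd) : BA (TS (Itd S η)) := val (LE S η) (Itd S η) η p

theorem LE_le (S : Stp) (ξ : WithTop K) (p q : Cd) :
    (LE S ξ).le p q ↔ ∀ (η : K), (η : WithTop K) < ξ → Val S η p ≤ Val S η q := by
  change LEr S ξ p q ↔ _
  rw [LEr_eq]
  refine forall_congr' fun η => forall_congr' fun _ => ?_
  unfold Cmp
  rw [dif_pos (isPre_LEr S η)]
  rfl

/-- The iterand at `η` depends only on the program below `η + 1`: locality of the orders. -/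
theorem LEr_congr {S S' : Stp} (ξ : WithTop K) (h : ∀ (η : K), (η : WithTop K) < ξ → S η = S' η) :
    LEr S ξ = LEr S' ξ := by
  induction ξ using (wellFounded_lt (α := WithTop K)).induction with
  | _ ξ ih =>
    rw [LEr_eq, LEr_eq]
    funext p q
    refine propext (forall_congr' fun η => forall_congr' fun hη => ?_)
    rw [ih η hη fun ζ hζ => h ζ (hζ.trans hη)]
    unfold Cmp
    rw [h η hη]

/-! ### Boolean valued posets on `W` -/

section General

variable {𝔹 : Type} [CompleteBooleanAlgebra 𝔹]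

/-- `R` is the name of a preorder on `W` -/
def IsBPre (R : W → W → 𝔹) : Prop := (∀ x, R x x = ⊤) ∧ ∀ x y z, R x y ⊓ R y z ≤ R x z

/-- Boolean value of: `D` is dense -/
def denB (R : W → W → 𝔹) (D : W → 𝔹) : 𝔹 := ⨅ q, ⨆ j, R j q ⊓ D j

/-- Boolean value of: `D ∩ s` is predense below `q` -/
def PD (R : W → W → 𝔹) (D : W → 𝔹) (s : Set W) (q : W) : 𝔹 :=
  ⨅ q', R q' q ⇨ ⨆ j, ⨆ _ : j ∈ s, ⨆ t, R t q' ⊓ R t j ⊓ D j

/-- Boolean value of: `C` is closed and unbounded -/
def clubB (C : W → 𝔹) : 𝔹 :=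
  (⨅ β, ⨆ δ, ⨆ _ : β < δ, C δ) ⊓
  ⨅ δ, ⨅ _ : ∃ β, β < δ, (⨅ β, ⨅ _ : β < δ, ⨆ γ, ⨆ _ : β < γ ∧ γ < δ, C γ) ⇨ C δ

/-- Boolean value of: `E` is stationary -/
def statB (E : W → 𝔹) : 𝔹 := ⨅ C : W → 𝔹, clubB C ⇨ ⨆ δ, E δ ⊓ C δ

/-- Boolean value of: `R` preserves stationary sets (combinatorial form): for every stationary `E`, every
`p0` and all dense `A i` there are `q ≤ p0` and `δ ∈ E` such that `A i ∩ δ` is predense below `q` for all
`i < δ` -/
def sspc (R : W → W → 𝔹) : 𝔹 :=
  ⨅ E : W → 𝔹, ⨅ p0, ⨅ A : W → W → 𝔹, (statB E ⊓ ⨅ i, denB R (A i)) ⇨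
    ⨆ q, R q p0 ⊓ ⨆ δ, E δ ⊓ ⨅ i, ⨅ _ : i < δ, PD R (A i) (Set.Iio δ) q

/-- Boolean value of: `G` is a filter -/
def filB (R : W → W → 𝔹) (G : W → 𝔹) : 𝔹 :=
  (⨆ x, G x) ⊓ (⨅ x, ⨅ y, G x ⊓ R x y ⇨ G y) ⊓ ⨅ x, ⨅ y, G x ⊓ G y ⇨ ⨆ z, G z ⊓ (R z x ⊓ R z y)

end General

/-! ### the killing forcing -/

section Posets

variable {L : Pre Cd}

/-- elements of the generic object of the killing forcing: pairs `(i, D)` and triples `(i, q, ν)` -/
abbrev XK (L : Pre Cd) : Type := (W × (W → BA L)) ⊕ (W × W × W)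

/-- `u` is the name of a countable set -/
def BCtbl {X : Type} (u : X → BA L) : Prop :=
  ∃ v : ℕ → X → BA L, (∀ n x x', x ≠ x' → v n x ⊓ v n x' = ⊥) ∧ ∀ x, u x = ⨆ n, v n x

/-- Boolean value of `u` being a condition of the killing forcing: if `(i, D)` is an element then `D` is
dense, and if `(i, D)` and `(i, q, ν)` are elements then `D ∩ ν` is predense below `q` -/
noncomputable def mK (R : W → W → BA L) (u : XK L → BA L) : BA L :=
  (⨅ i, ⨅ D, u (Sum.inl (i, D)) ⇨ denB R D) ⊓
  ⨅ i, ⨅ D, ⨅ q, ⨅ ν, u (Sum.inl (i, D)) ⊓ u (Sum.inr (i, q, ν)) ⇨ PD R D (Set.Iio ν) q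

/-- the killing forcing -/
noncomputable def killB (R : W → W → BA L) : BPo L where
  Y := {u : XK L → BA L // BCtbl u}
  m u := mK R u.1
  r u u' := ⨅ x, u'.1 x ⇨ u.1 x
  r_refl u := by simp
  r_trans x y z := by
    refine le_iInf fun t => le_himp_iff.2 ?_
    have h1 : (⨅ s, y.1 s ⇨ x.1 s) ≤ y.1 t ⇨ x.1 t := iInf_le _ t
    have h2 : (⨅ s, z.1 s ⇨ y.1 s) ≤ z.1 t ⇨ y.1 t := iInf_le _ t
    rw [le_himp_iff] at h1 h2
    refine le_trans ?_ h1
    refine le_inf (inf_le_left.trans inf_le_left) ?_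
    exact le_trans (inf_le_inf_right _ inf_le_right) h2
  ne := by
    refine le_antisymm le_top ?_
    refine le_iSup_of_le (⟨fun _ => ⊥, fun _ _ => ⊥, by simp, by simp⟩ :
      {u : XK L → BA L // BCtbl u}) ?_
    simp [mK]

end Posets

/-- a `𝔹`-valued poset on `W` as an iterand -/
noncomputable def posB {X : Type} {L : Pre X} (R : W → W → BA L) (h : IsBPre R) : BPo L where
  Y := W
  m _ := ⊤
  r := R
  r_refl := h.1
  r_trans := h.2
  ne := by simp

/-! ### programs -/

/-- an entry of a program: a tag and (a code for) a relation on `W` -/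
def Ent : Type := Bool × (W → W → Set Cd)

/-- programs -/
def Prg : Type := K → Ent

/-- the relation given by an entry -/
noncomputable def relE (L : Pre Cd) (e : Ent) : W → W → BA L := fun x y => toB L (e.2 x y)

/-- the relation used by a positive entry: the given one if it is a preorder, the total relation otherwise -/
noncomputable def relP (L : Pre Cd) (e : Ent) : W → W → BA L :=
  if IsBPre (relE L e) then relE L e else fun _ _ => ⊤

theorem isBPre_relP (L : Pre Cd) (e : Ent) : IsBPre (relP L e) := by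
  unfold relP
  split_ifs with h
  · exact h
  · exact ⟨fun _ => rfl, fun _ _ _ => le_top⟩

/-- the iterand given by an entry: tag `true` is the killing forcing, tag `false` the poset itself -/
noncomputable def itE (L : Pre Cd) (e : Ent) : BPo L :=
  if e.1 = true then killB (relE L e) else posB (relP L e) (isBPre_relP L e)

/-- the step function of a program -/
noncomputable def stp (F : Prg) : Stp := fun η L => itE L (F η)

/-- the orders of the iteration given by a program -/
noncomputable def LP (F : Prg) (ξ : WithTop K) : Pre Cd := LE (stp F) ξ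

theorem LP_congr {F F' : Prg} (ξ : WithTop K) (h : ∀ (η : K), (η : WithTop K) < ξ → F η = F' η) :
    LP F ξ = LP F' ξ := by
  have := LEr_congr (S := stp F) (S' := stp F') ξ fun η hη => by unfold stp; rw [h η hη]
  unfold LP LE
  congr

/-! ### countable models -/

/-- the set of all (codes of) triples (length, program, condition) -/
abbrev SC0 : Type := K × Prg × Cd

/-- basic objects -/
inductive Base : Type
  | kk (η : K)
  | ww (α : W)
  | cd (p : Cd)
  | st (S : Set Cd)
  | wd (D : Set (W × Cd))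
  | xd (u : Set (((W × Set (W × Cd)) ⊕ (W × W × W)) × Cd))
  | pr (F : Prg)
  | sd (D : Set SC0)

/-- the universe from which countable models are taken -/
inductive Un : Type
  | b (x : Base)
  | pair (x y : Un)

namespace Un
abbrev kk (η : K) : Un := .b (.kk η)
abbrev ww (α : W) : Un := .b (.ww α)
abbrev cd (p : Cd) : Un := .b (.cd p)
abbrev st (S : Set Cd) : Un := .b (.st S)
abbrev wd (D : Set (W × Cd)) : Un := .b (.wd D)
abbrev xd (u : Set (((W × Set (W × Cd)) ⊕ (W × W × W)) × Cd)) : Un := .b (.xd u)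
abbrev pr (F : Prg) : Un := .b (.pr F)
abbrev sd (D : Set SC0) : Un := .b (.sd D)
end Un

/-- a family of binary operations -/
abbrev Ops : Type := Set (Un → Un → Un)

/-- countable sets closed under operations -/
structure Cl (O : Ops) (N : Set Un) : Prop where
  ctb : N.Countable
  ne : N.Nonempty
  cl : ∀ φ ∈ O, ∀ x ∈ N, ∀ y ∈ N, φ x y ∈ N

/-- partial isomorphisms -/
structure HI (O : Ops) (N : Set Un) (h : Un → Un) : Prop where
  inj : Set.InjOn h N
  comm : ∀ φ ∈ O, ∀ x ∈ N, ∀ y ∈ N, h (φ x y) = φ (h x) (h y)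

/-- The filter of closed unbounded sets of countable models `N` with a partial isomorphism `h` of `N`. -/
def MF : Filter (Set Un × (Un → Un)) where
  sets := {A | ∃ O : Ops, O.Countable ∧ ∀ N h, Cl O N → HI O N h → (N, h) ∈ A}
  univ_sets := ⟨∅, Set.countable_empty, fun _ _ _ _ => trivial⟩
  sets_of_superset := by
    rintro A A' ⟨O, hO, h⟩ hA
    exact ⟨O, hO, fun N f h1 h2 => hA (h N f h1 h2)⟩
  inter_sets := by
    rintro A A' ⟨O, hO, h⟩ ⟨O', hO', h'⟩
    refine ⟨O ∪ O', hO.union hO', fun N f h1 h2 => ⟨h N f ⟨h1.1, h1.2, ?_⟩ ⟨h2.1, ?_⟩,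
      h' N f ⟨h1.1, h1.2, ?_⟩ ⟨h2.1, ?_⟩⟩⟩
    · exact fun φ hφ => h1.cl φ (Or.inl hφ)
    · exact fun φ hφ => h2.comm φ (Or.inl hφ)
    · exact fun φ hφ => h1.cl φ (Or.inr hφ)
    · exact fun φ hφ => h2.comm φ (Or.inr hφ)

/-- `c` is `N`-generic -/
def Gen (L : Pre Cd) (N : Set Un) (c : Cd) : Prop :=
  ∀ D : Set Cd, Un.st D ∈ N → L.Dense D → ∀ q, L.le q c → ∃ d ∈ D, Un.cd d ∈ N ∧ L.Comp d q

/-- `c` is generic for `N` and forces that `h` respects the generic filter -/
def GenH (L : Pre Cd) (N : Set Un) (h : Un → Un) (c : Cd) : Prop :=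
  Gen L N c ∧ ∀ p p', Un.cd p ∈ N → h (Un.cd p) = Un.cd p' → ∀ q, L.le q c → (L.le q p ↔ L.le q p')

/-- `h` fixes the countable ordinals of `N` -/
def FixW (z : Set Un × (Un → Un)) : Prop := ∀ α, Un.ww α ∈ z.1 → z.2 (Un.ww α) = Un.ww α

/-- `h` fixes the elements of `N` which are ordinals below `ξ` -/
def Fix (z : Set Un × (Un → Un)) (ξ : K) : Prop := ∀ ζ < ξ, Un.kk ζ ∈ z.1 → z.2 (Un.kk ζ) = Un.kk ζ

/-- Step property: the iterand `Q` at the coordinate `η` extends `h`-respecting generic conditions. -/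
def SOK (L : Pre Cd) (Q : BPo L) (η : K) (z : Set Un × (Un → Un)) : Prop :=
  ∀ c, GenH L z.1 z.2 c → ∀ p p', Un.cd p ∈ z.1 → z.2 (Un.cd p) = Un.cd p' → L.le c p →
    ∃ u : BA (TS Q), prj Q u = down L c ∧ u ≤ val L Q η p ∧ u ≤ val L Q η p' ∧
      (∀ D : Set Cd, Un.st D ∈ z.1 → (nxt L Q η).Dense D →
        u ≤ ⨆ d, ⨆ _ : d ∈ D ∧ Un.cd d ∈ z.1, val L Q η d) ∧
      ∀ q q', Un.cd q ∈ z.1 → z.2 (Un.cd q) = Un.cd q' → u ⊓ val L Q η q = u ⊓ val L Q η q'

/-- Extension property between the stages `η` and `ξ`: an `h`-respecting generic condition at `η` extends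
to an `h`-respecting generic condition at `ξ` below `p` and `h p`. -/
def PIs (S : Stp) (η ξ : K) (z : Set Un × (Un → Un)) : Prop :=
  ∀ c, GenH (LE S η) z.1 z.2 c → ∀ p p', Un.cd p ∈ z.1 → z.2 (Un.cd p) = Un.cd p' → (LE S η).le c p →
    ∃ c', (∀ ζ < η, c'.at ζ = c.at ζ) ∧ (∀ ζ, η ≤ ζ → c'.at ζ ≠ none → ζ < ξ ∧ Un.kk ζ ∈ z.1) ∧
      GenH (LE S ξ) z.1 z.2 c' ∧ (LE S ξ).le c' p ∧ (LE S ξ).le c' p'

/-- all extension properties up to `ξ` hold for almost all models -/
def PIev (S : Stp) (ξ : K) : Prop :=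
  ∀ᶠ z in MF, FixW z → Fix z ξ → ∀ η ≤ ξ, Un.kk η ∈ z.1 → PIs S η ξ z

/-- the iterands below `ξ` have codes for all elements -/
def Full (S : Stp) (ξ : WithTop K) : Prop := ∀ η : K, (η : WithTop K) < ξ → FullQ (Itd S η)

/-- the iterands below `ξ` have the step property for almost all models -/
def SOKev (S : Stp) (ξ : WithTop K) : Prop :=
  ∀ η : K, (η : WithTop K) < ξ → ∀ᶠ z in MF, FixW z → SOK (LE S η) (Itd S η) η z

/-- the countable ordinals in `N` -/
def dl (N : Set Un) : Set W := {j | Un.ww j ∈ N}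

/-- code of a name of a subset of `W` -/
def codeD {L : Pre Cd} (D : W → BA L) : Set (W × Cd) := {z | Fo z.2 (D z.1)}

/-- code of a name of a subset of `XK L` -/
def codeX {L : Pre Cd} (u : XK L → BA L) : Set (((W × Set (W × Cd)) ⊕ (W × W × W)) × Cd) :=
  {z | (∃ i, ∃ D : W → BA L, z.1 = Sum.inl (i, codeD D) ∧ Fo z.2 (u (Sum.inl (i, D)))) ∨
    ∃ t, z.1 = Sum.inr t ∧ Fo z.2 (u (Sum.inr t))}

/-- Boolean value of: there is an `N`-generic condition `q` below `p0` -/
noncomputable def gq {L : Pre Cd} (R : W → W → BA L) (N : Set Un) (p0 : W) : BA L :=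
  ⨆ q, R q p0 ⊓ ⨅ D : W → BA L, ⨅ _ : Un.wd (codeD D) ∈ N ∧ denB R D = ⊤, PD R D (dl N) q

/-- `R` is forced to be proper -/
def LegR {L : Pre Cd} (R : W → W → BA L) : Prop :=
  ∀ᶠ z in MF, ∀ p0, Un.ww p0 ∈ z.1 → ∀ c, Gen L z.1 c → Fo c (gq R z.1 p0)

/-- Boolean value of: `R` is proper below `p0` -/
noncomputable def bg {L : Pre Cd} (R : W → W → BA L) (p0 : W) : BA L :=
  ⨆ b, ⨆ _ : (∀ᶠ z in MF, ∀ c, Gen L z.1 c → Fo c b → Fo c (gq R z.1 p0)), b

/-- the program is legal at `η` -/
def Leg (F : Prg) (η : K) : Prop :=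
  (F η).1 = true ∨ LegR (relP (LP F η) (F η))

/-! ### the forcing with generic programs -/

/-- conditions: programs legal below `ξ` and a condition of the iteration -/
def SC : Type := {s : SC0 // ∀ η < s.1, Leg s.2.1 η}

namespace SC
/-- the length -/
def len (s : SC) : K := s.1.1
/-- the program -/
def prg (s : SC) : Prg := s.1.2.1
/-- the condition -/
def cnd (s : SC) : Cd := s.1.2.2
end SC

/-- the final forcing -/
noncomputable def SP : Pre SC where
  le t s := s.len ≤ t.len ∧ (∀ η < s.len, t.prg η = s.prg η) ∧ (LP s.prg s.len).le t.cnd s.cnd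
  refl s := ⟨le_rfl, fun _ _ => rfl, (LP _ _).refl _⟩
  trans u t s h1 h2 := by
    refine ⟨h2.1.trans h1.1, fun η hη => (h1.2.1 η (hη.trans_le h2.1)).trans (h2.2.1 η hη), ?_⟩
    refine (LP _ _).trans _ _ _ ?_ h2.2.2
    have h3 := h1.2.2
    rw [← LP_congr (s.len : WithTop K) (F := t.prg) (F' := s.prg)
      fun η hη => h2.2.1 η (WithTop.coe_lt_coe.1 hη)]
    unfold LP at h3 ⊢
    rw [LE_le] at h3 ⊢
    intro η hη
    exact h3 η (hη.trans_le (WithTop.coe_le_coe.2 h2.1))

/-- the final Boolean algebra -/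
abbrev BS : Type := BA SP

/-- the element `U` of the algebra of the `ξ`-th stage of the program `F` in the final algebra -/
noncomputable def liftS (F : Prg) (ξ : K) (U : BA (LP F ξ)) : BS :=
  toB SP {s | ξ ≤ s.len ∧ (∀ η < ξ, s.prg η = F η) ∧ Fo s.cnd U}

/-- Boolean value of: the generic program extends `F` below `ξ` -/
noncomputable def stg (F : Prg) (ξ : K) : BS := liftS F ξ ⊤

/-- all codes of `s` are in `N` -/
def InN (N : Set Un) (s : SC) : Prop :=
  Un.kk s.len ∈ N ∧ Un.pr s.prg ∈ N ∧ Un.cd s.cnd ∈ N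

/-- `t` is `N`-generic for the final forcing -/
def SGen (N : Set Un) (t : SC) : Prop :=
  ∀ D : Set SC0, Un.sd D ∈ N → SP.Dense {s | s.1 ∈ D} → ∀ t', SP.le t' t →
    ∃ d : SC, d.1 ∈ D ∧ InN N d ∧ SP.Comp d t'

end Pool.Agent.MMA1
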