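import Pool.Agent.MMA1.Rel
import Pool.Agent.SymZF.FmlTools

/-!
# Elementary set theory in a model of ZFC: pairs, relations defined by formulas
-/

set_option autoImplicit false

namespace Pool.Agent.MMA1

open Pool.Agent.BVM Pool.Agent.StarHur Pool.Agent.StarHur.Transfer

namespace Tools

variable {M : Type*} {E : M → M → Prop} (hZ : IsModelZFC E)

include hZ

lemma upair_unique {a b z z' : M} (h : IsUPair E a b z) (h' : IsUPair E a b z') : z = z' :=
  hZ.ext z z' fun t => (h t).trans (h' t).symm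

lemma exists_upair (a b : M) : ∃ z, IsUPair E a b z := hZ.pair a b

lemma exists_pair (a b : M) : ∃ p, IsPair E a b p := by
  obtain ⟨u, hu⟩ := exists_upair hZ a a
  obtain ⟨v, hv⟩ := exists_upair hZ a b
  obtain ⟨p, hp⟩ := hZ.pair u v
  refine ⟨p, fun z => ?_⟩
  rw [hp]
  constructor
  · rintro (rfl | rfl)
    · exact Or.inl hu
    · exact Or.inr hv
  · rintro (h | h)
    · exact Or.inl (upair_unique hZ h hu)
    · exact Or.inr (upair_unique hZ h hv)

lemma pair_unique {a b p p' : M} (h : IsPair E a b p) (h' : IsPair E a b p') : p = p' :=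
  hZ.ext p p' fun t => (h t).trans (h' t).symm

omit hZ in
lemma upair_mem_left {a b z : M} (h : IsUPair E a b z) : E a z := (h a).2 (Or.inl rfl)

omit hZ in
lemma upair_mem_right {a b z : M} (h : IsUPair E a b z) : E b z := (h b).2 (Or.inr rfl)

lemma pair_inj {a b c d p : M} (h : IsPair E a b p) (h' : IsPair E c d p) : a = c ∧ b = d := by
  obtain ⟨u, hu⟩ := exists_upair hZ a a
  obtain ⟨v, hv⟩ := exists_upair hZ a b
  obtain ⟨u', hu'⟩ := exists_upair hZ c c
  obtain ⟨v', hv'⟩ := exists_upair hZ c d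
  have hup : E u p := (h u).2 (Or.inl hu)
  have hvp : E v p := (h v).2 (Or.inr hv)
  have hup' : E u' p := (h' u').2 (Or.inl hu')
  have hvp' : E v' p := (h' v').2 (Or.inr hv')
  have hac : a = c := by
    rcases (h' u).1 hup with h1 | h1
    · have := (h1 a).1 (upair_mem_left hu)
      rcases this with h2 | h2 <;> exact h2
    · -- u = {c, d}, u = {a}
      have h2 := (hu c).1 (upair_mem_left h1)
      rcases h2 with h2 | h2 <;> exact h2.symm
  subst hac
  refine ⟨rfl, ?_⟩
  -- b ∈ v = {a,b}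
  rcases (h' v).1 hvp with h1 | h1
  · -- v = {a}
    have hb : b = a := by
      have := (h1 b).1 (upair_mem_right hv)
      rcases this with h2 | h2 <;> exact h2
    subst hb
    -- v' ∈ p so v' = {b} or {b,b}
    have h3 : ∀ t, E t v' → t = b := by
      intro t ht
      rcases (h v').1 hvp' with h4 | h4
      · rcases (h4 t).1 ht with h5 | h5 <;> exact h5
      · rcases (h4 t).1 ht with h5 | h5 <;> exact h5
    exact (h3 d (upair_mem_right hv')).symm
  · -- v = {a, d}
    rcases (h1 b).1 (upair_mem_right hv) with h2 | h2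
    · -- b = a
      subst h2
      have := (hv d).1 (upair_mem_right h1)
      rcases this with h3 | h3 <;> exact h3.symm
    · exact h2

lemma pairMem_iff {a b R p : M} (hp : IsPair E a b p) : PairMem E a b R ↔ E p R := by
  constructor
  · rintro ⟨q, hq, hqR⟩
    rwa [pair_unique hZ hp hq]
  · intro h
    exact ⟨p, hp, h⟩

lemma exists_union2 (X Y : M) : ∃ Z, ∀ z, E z Z ↔ E z X ∨ E z Y := by
  obtain ⟨P, hP⟩ := hZ.pair X Y
  obtain ⟨Z, hZ'⟩ := hZ.union P
  refine ⟨Z, fun z => ?_⟩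
  rw [hZ']
  constructor
  · rintro ⟨w, hw, hz⟩
    rcases (hP w).1 hw with rfl | rfl
    · exact Or.inl hz
    · exact Or.inr hz
  · rintro (h | h)
    · exact ⟨X, (hP X).2 (Or.inl rfl), h⟩
    · exact ⟨Y, (hP Y).2 (Or.inr rfl), h⟩

lemma exists_prod_sup (X Y : M) : ∃ Z, ∀ a b p, E a X → E b Y → IsPair E a b p → E p Z := by
  obtain ⟨U, hU⟩ := exists_union2 hZ X Y
  obtain ⟨P, hP⟩ := hZ.power U
  obtain ⟨Q, hQ⟩ := hZ.power P
  refine ⟨Q, fun a b p ha hb hp => (hQ p).2 fun z hz => (hP z).2 fun t ht => ?_⟩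
  have haU : E a U := (hU a).2 (Or.inl ha)
  have hbU : E b U := (hU b).2 (Or.inr hb)
  rcases (hp z).1 hz with h | h
  · rcases (h t).1 ht with h1 | h1 <;> rw [h1] <;> exact haU
  · rcases (h t).1 ht with h1 | h1
    · rw [h1]; exact haU
    · rw [h1]; exact hbU

/-- The subset of `X` defined by a formula. -/
lemma exists_sub (X : M) {n : ℕ} (φ : Fml (n + 1)) (p : Fin n → M) :
    ∃ Y, ∀ z, E z Y ↔ E z X ∧ Sat E φ (Fin.cons z p : Fin (n + 1) → M) := hZ.sep n φ p X

/-- The relation between `X` and `Y` defined by a formula. -/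
lemma exists_rel (X Y : M) {n : ℕ} (φ : Fml (n + 2)) (p : Fin n → M) :
    ∃ R, ∀ a b, PairMem E a b R ↔ E a X ∧ E b Y ∧
      Sat E φ (Fin.cons a (Fin.cons b p : Fin (n + 1) → M) : Fin (n + 2) → M) := by
  obtain ⟨Z, hZ'⟩ := exists_prod_sup hZ X Y
  -- variables of the formula: 0 = b, 1 = a, 2 = z, 3 = X, 4 = Y, 5.. = p
  let f : Fin (n + 2) → Fin (n + 5) :=
    Fin.cases (Fin.succ 0) (fun i => Fin.cases 0 (fun j => j.succ.succ.succ.succ.succ) i)
  let ψ : Fml (n + 3) := fex (fex (fand (fPair (Fin.succ 0) 0 (Fin.succ (Fin.succ 0)))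
    (fand (.mem (Fin.succ 0) (Fin.succ (Fin.succ (Fin.succ 0))))
      (fand (.mem 0 (Fin.succ (Fin.succ (Fin.succ (Fin.succ 0))))) (SymZF.ren φ f)))))
  obtain ⟨R, hR⟩ := hZ.sep (n + 2) ψ (Fin.cons X (Fin.cons Y p : Fin (n + 1) → M)) Z
  refine ⟨R, fun a b => ?_⟩
  obtain ⟨q, hq⟩ := exists_pair hZ a b
  rw [pairMem_iff hZ hq, hR]
  have hsat : Sat E ψ (Fin.cons q (Fin.cons X (Fin.cons Y p : Fin (n + 1) → M) :
      Fin (n + 2) → M) : Fin (n + 3) → M) ↔ ∃ a b, IsPair E a b q ∧ E a X ∧ E b Y ∧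
      Sat E φ (Fin.cons a (Fin.cons b p : Fin (n + 1) → M) : Fin (n + 2) → M) := by
    simp only [ψ, sat_ex, sat_and, sat_Pair, sat_mem, Fin.cons_zero, Fin.cons_succ,
      SymZF.sat_ren]
    refine exists_congr fun a => exists_congr fun b => ?_
    refine and_congr_right fun _ => and_congr_right fun _ => and_congr_right fun _ => ?_
    have hv : (fun i => (Fin.cons b (Fin.cons a (Fin.cons q (Fin.cons X
        (Fin.cons Y p : Fin (n + 1) → M) : Fin (n + 2) → M) : Fin (n + 3) → M) :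
        Fin (n + 4) → M) : Fin (n + 5) → M) (f i)) =
        (Fin.cons a (Fin.cons b p : Fin (n + 1) → M) : Fin (n + 2) → M) := by
      funext i
      refine Fin.cases ?_ (fun i => ?_) i
      · simp only [f, Fin.cases_zero, Fin.cons_succ, Fin.cons_zero]
      · refine Fin.cases ?_ (fun j => ?_) i
        · simp only [f, Fin.cases_zero, Fin.cases_succ, Fin.cons_succ, Fin.cons_zero]
        · simp only [f, Fin.cases_succ, Fin.cons_succ]
    rw [hv]
  rw [hsat]
  constructor
  · rintro ⟨_, a', b', hq', ha, hb, hs⟩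
    obtain ⟨rfl, rfl⟩ := pair_inj hZ hq hq'
    exact ⟨ha, hb, hs⟩
  · rintro ⟨ha, hb, hs⟩
    exact ⟨hZ' a b q ha hb hq, a, b, hq, ha, hb, hs⟩

end Tools

end Pool.Agent.MMA1
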