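import Pool.Agent.MMA1.Chk
import Pool.Agent.MMA1.ZFCTools
import Pool.Agent.MP_b1d3ea_lc.AD
import Pool.Agent.BVM.Main

/-!
# The ordinal `ω₁` of the quotient model is the check name of `W`
-/

set_option autoImplicit false

namespace Pool.Agent.MMA1

open Pool.Agent.BVM Pool.Agent.StarHur Pool.Agent.StarHur.Transfer Tools

namespace Om

/-! ### Uniqueness of `ω` and `ω₁` in a model of ZFC -/

section Unique

variable {M : Type*} {E : M → M → Prop} (hZ : IsModelZFC E)

include hZ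

lemma omega_unique {w w' : M} (h : IsOmega E w) (h' : IsOmega E w') : w = w' :=
  hZ.ext w w' fun t => ⟨fun ht => h.2 w' h'.1 t ht, fun ht => h'.2 w h.1 t ht⟩

lemma not_mem_self (a : M) : ¬ E a a := by
  intro h
  obtain ⟨s, hs⟩ := hZ.pair a a
  obtain ⟨y, hy, hy'⟩ := hZ.found s ⟨a, (hs a).2 (Or.inl rfl)⟩
  have : y = a := by rcases (hs y).1 hy with h1 | h1 <;> exact h1
  subst this
  exact hy' y hy h

/-- A transitive proper subset of an ordinal is an element of it. -/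
lemma trans_sub {o a : M} (ho : IsOrd E o) (hao : Sub E a o)
    (htr : ∀ y, E y a → Sub E y a) (hne : a ≠ o) : E a o := by
  obtain ⟨d, hd⟩ := hZ.sep 1 (fnot (.mem 0 (Fin.succ 0))) ![a] o
  have hd' : ∀ z, E z d ↔ E z o ∧ ¬ E z a := by
    intro z
    rw [hd]
    simp only [sat_not, sat_mem, Fin.cons_zero, Fin.cons_succ]
    rfl
  have hnonempty : ∃ y, E y d := by
    by_contra hcon
    push Not at hcon
    apply hne
    apply hZ.ext
    intro z
    constructor
    · exact hao z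
    · intro hz
      by_contra hza
      exact hcon z ((hd' z).2 ⟨hz, hza⟩)
  obtain ⟨m, hm, hmin⟩ := hZ.found d hnonempty
  obtain ⟨hmo, hma⟩ := (hd' m).1 hm
  have : a = m := by
    apply hZ.ext
    intro x
    constructor
    · intro hx
      rcases ho.2 x m (hao x hx) hmo with h1 | h1 | h1
      · exact h1
      · subst h1; exact absurd hx hma
      · exact absurd (htr x hx m h1) hma
    · intro hx
      by_contra hxa
      exact hmin x ((hd' x).2 ⟨ho.1 m hmo x hx, hxa⟩) hx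
  rw [this]
  exact hmo

lemma ord_compare {o o' : M} (ho : IsOrd E o) (ho' : IsOrd E o') : E o o' ∨ o = o' ∨ E o' o := by
  obtain ⟨a, ha⟩ := hZ.sep 1 (.mem 0 (Fin.succ 0)) ![o'] o
  have ha' : ∀ z, E z a ↔ E z o ∧ E z o' := by
    intro z
    rw [ha]
    simp only [sat_mem, Fin.cons_zero, Fin.cons_succ]
    rfl
  have htr : ∀ y, E y a → Sub E y a := by
    intro y hy z hz
    obtain ⟨h1, h2⟩ := (ha' y).1 hy
    exact (ha' z).2 ⟨ho.1 y h1 z hz, ho'.1 y h2 z hz⟩
  by_cases h1 : a = o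
  · subst h1
    by_cases h2 : a = o'
    · exact Or.inr (Or.inl h2)
    · exact Or.inl (trans_sub hZ ho' (fun z hz => ((ha' z).1 hz).2) htr h2)
  · have h3 := trans_sub hZ ho (fun z hz => ((ha' z).1 hz).1) htr h1
    by_cases h2 : a = o'
    · subst h2
      exact Or.inr (Or.inr h3)
    · have h4 := trans_sub hZ ho' (fun z hz => ((ha' z).1 hz).2) htr h2
      exact absurd ((ha' a).2 ⟨h3, h4⟩) (not_mem_self hZ a)

lemma omega1_unique {w o o' : M} (h : IsOmega1 E w o) (h' : IsOmega1 E w o') : o = o' := by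
  rcases ord_compare hZ h.1 h'.1 with h1 | h1 | h1
  · exact absurd (h'.2.2 o h1) h.2.1
  · exact h1
  · exact absurd (h.2.2 o' h1) h'.2.1

end Unique

/-! ### formulas -/

section Formulas

variable {n : ℕ}

def gOrd (o : Fin n) : Fml n :=
  fand (.all (.imp (.mem 0 o.succ) (.all (.imp (.mem 0 (Fin.succ 0)) (.mem 0 o.succ.succ)))))
    (.all (.imp (.mem 0 o.succ) (.all (.imp (.mem 0 o.succ.succ)
      (fOr (.mem (Fin.succ 0) 0) (fOr (.eq (Fin.succ 0) 0) (.mem 0 (Fin.succ 0))))))))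

def gInj (f : Fin n) : Fml n :=
  .all (.all (.all (.imp (fPM (Fin.succ (Fin.succ 0)) 0 f.succ.succ.succ)
    (.imp (fPM (Fin.succ 0) 0 f.succ.succ.succ) (.eq (Fin.succ (Fin.succ 0)) (Fin.succ 0))))))

def gCtble (w x : Fin n) : Fml n := fex (fand (fFun 0 x.succ w.succ) (gInj 0))

section

variable {M : Type*} (E : M → M → Prop) (v : Fin n → M)

lemma sat_gOrd (o : Fin n) : Sat E (gOrd o) v ↔ IsOrd E (v o) := by
  simp only [gOrd, IsOrd, Sub, sat_and, sat_all, sat_imp, sat_or, sat_eq, sat_mem, Fin.cons_zero,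
    Fin.cons_succ]
  refine and_congr Iff.rfl ?_
  exact ⟨fun h x y hx hy => h x hx y hy, fun h x hx y hy => h x y hx hy⟩

lemma sat_gInj (f : Fin n) : Sat E (gInj f) v ↔ IsInj E (v f) := by
  simp only [gInj, IsInj, sat_all, sat_imp, sat_PM, sat_eq, Fin.cons_zero, Fin.cons_succ]

lemma sat_gCtble (w x : Fin n) : Sat E (gCtble w x) v ↔ IsCtble E (v w) (v x) := by
  simp only [gCtble, IsCtble, sat_ex, sat_and, sat_Fun, sat_gInj, Fin.cons_zero, Fin.cons_succ]

end

section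

variable {𝔹 : Type} [CompleteBooleanAlgebra 𝔹] (v : Fin n → BSet 𝔹)

/-- Boolean value of injectivity. -/
noncomputable def vInj (f : BSet 𝔹) : 𝔹 := ⨅ x, ⨅ y, ⨅ z, bPM x z f ⇨ bPM y z f ⇨ beq x y

lemma bval_gInj (f : Fin n) : bval (gInj f) v = vInj (v f) := by
  simp only [gInj, vInj, bval_all, bval_imp, bval_PM, bval_eq, Fin.cons_zero, Fin.cons_succ]

lemma bval_gCtble (w x : Fin n) :
    bval (gCtble w x) v = ⨆ f, bFun f (v x) (v w) ⊓ vInj f := by
  simp only [gCtble, bval_ex, bval_and, bval_Fun, bval_gInj, Fin.cons_zero, Fin.cons_succ]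

end

end Formulas

/-! ### Boolean values at the check names -/

noncomputable section

variable {W : Type} [LinearOrder W] [WellFoundedLT W] {𝔹 : Type} [CompleteBooleanAlgebra 𝔹]

lemma bval_gOrd_WN (v : Fin 1 → BSet 𝔹) (hv : v 0 = WN W 𝔹) : bval (gOrd (0 : Fin 1)) v = ⊤ := by
  have h1 : bval (gOrd (0 : Fin 1)) v = bval (fand
      (fball 0 (.all (.imp (.mem 0 (Fin.succ 0)) (.mem 0 (Fin.succ (Fin.succ 0))))))
      (fball 0 (fball (Fin.succ 0) (fOr (.mem (Fin.succ 0) 0) (fOr (.eq (Fin.succ 0) 0)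
        (.mem 0 (Fin.succ 0)))))) : Fml 1) v := rfl
  rw [h1, bval_and, bval_fball (W := W) v 0 hv, bval_fball (W := W) v 0 hv, eq_top_iff]
  refine le_inf (le_iInf fun a => ?_) (le_iInf fun a => ?_)
  · rw [bval_all]
    refine le_iInf fun z => ?_
    simp only [bval_imp, bval_mem, Fin.cons_zero, Fin.cons_succ]
    rw [le_himp_iff, top_inf_eq, hv, bmem_WN, bmem_chk]
    exact iSup₂_le fun b _ => le_iSup (fun b : W => beq z (chk 𝔹 b)) b
  · rw [bval_fball (W := W) _ (Fin.succ 0) (by rw [Fin.cons_succ]; exact hv)]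
    refine le_iInf fun b => ?_
    simp only [bval_or, bval_mem, bval_eq, Fin.cons_zero, Fin.cons_succ]
    classical
    rw [bmem_chk_chk, bmem_chk_chk, beq_chk]
    rcases lt_trichotomy a b with h | h | h
    · rw [if_pos h]; exact le_sup_left
    · rw [if_pos h]; exact le_sup_of_le_right le_sup_left
    · rw [if_pos h]; exact le_sup_of_le_right le_sup_right

/-- name of a ground model function on the predecessors of `a` -/
def gN (a : W) (g : {b : W // b < a} → ℕ) : BSet 𝔹 :=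
  ⟨{b : W // b < a}, fun b => opair (chk 𝔹 b.1) (num (g b)), fun _ => ⊤⟩

lemma bPM_gN (a : W) (g : {b : W // b < a} → ℕ) (u y : BSet 𝔹) :
    bPM u y (gN a g) = ⨆ b : {b : W // b < a}, beq u (chk 𝔹 b.1) ⊓ beq y (num (g b)) := by
  rw [bPM_eq, gN, bmem]
  refine iSup_congr fun m => ?_
  rw [top_inf_eq, beq_opair]

lemma ctble_chk (a : W) (g : {b : W // b < a} → ℕ) (hg : Function.Injective g) :
    (⊤ : 𝔹) ≤ ⨆ f, bFun f (chk 𝔹 a) omegaN ⊓ vInj f := by
  classical
  refine le_iSup_of_le (gN a g) (le_inf ?_ ?_)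
  · rw [bFun]
    refine le_inf (le_iInf fun p => ?_) ?_
    · rw [le_himp_iff, top_inf_eq, gN, bmem]
      refine iSup_le fun b => ?_
      rw [top_inf_eq]
      refine le_iSup_of_le (chk 𝔹 b.1) (le_inf ?_ ?_)
      · rw [bmem_chk_chk, if_pos b.2]; exact le_top
      · refine le_iSup_of_le (num (g b)) (le_inf ?_ ?_)
        · rw [Omega.bmem_num_omegaN]; exact le_top
        · rw [bPair_eq]
    · refine le_iInf fun x => ?_
      rw [le_himp_iff, top_inf_eq, bmem_chk]
      refine iSup₂_le fun b hb => ?_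
      refine le_iSup_of_le (num (g ⟨b, hb⟩)) (le_inf ?_ ?_)
      · rw [bPM_gN]
        refine le_iSup_of_le ⟨b, hb⟩ ?_
        rw [beq_refl, inf_top_eq]
      · refine le_iInf fun y' => ?_
        rw [le_himp_iff, bPM_gN, inf_iSup_eq]
        refine iSup_le fun c => ?_
        have h1 : beq x (chk 𝔹 b) ⊓ (beq x (chk 𝔹 c.1) ⊓ beq y' (num (g c))) ≤
            beq (chk 𝔹 b) (chk 𝔹 c.1) := by
          refine le_trans ?_ (beq_trans (chk 𝔹 b) x (chk 𝔹 c.1))
          rw [beq_symm (chk 𝔹 b) x]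
          exact le_inf inf_le_left (inf_le_right.trans inf_le_left)
        by_cases hbc : b = c.1
        · have : (⟨b, hb⟩ : {b : W // b < a}) = c := Subtype.ext hbc
          rw [this]
          exact inf_le_right.trans inf_le_right
        · rw [beq_chk, if_neg hbc] at h1
          exact h1.trans bot_le
  · refine le_iInf fun x => le_iInf fun y => le_iInf fun z => ?_
    rw [le_himp_iff, top_inf_eq, le_himp_iff, bPM_gN, bPM_gN, iSup_inf_eq]
    refine iSup_le fun b => ?_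
    rw [inf_iSup_eq]
    refine iSup_le fun c => ?_
    by_cases hbc : b = c
    · subst hbc
      refine le_trans ?_ (beq_trans x (chk 𝔹 b.1) y)
      rw [beq_symm (chk 𝔹 b.1) y]
      exact le_inf (inf_le_left.trans inf_le_left) (inf_le_right.trans inf_le_left)
    · have h1 : (beq x (chk 𝔹 b.1) ⊓ beq z (num (g b))) ⊓ (beq y (chk 𝔹 c.1) ⊓
          beq z (num (g c))) ≤ beq (num (g b) : BSet 𝔹) (num (g c)) := by
        refine le_trans ?_ (beq_trans (num (g b)) z (num (g c)))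
        rw [beq_symm (num (g b)) z]
        exact le_inf (inf_le_left.trans inf_le_right) (inf_le_right.trans inf_le_right)
      rw [beq_num, if_neg (fun h => hbc (hg h))] at h1
      exact h1.trans bot_le

lemma not_ctble_WN (hb : Bounded W 𝔹) (f : BSet 𝔹) :
    bFun f (WN W 𝔹) omegaN ⊓ vInj f = ⊥ := by
  classical
  set b : 𝔹 := bFun f (WN W 𝔹) omegaN ⊓ vInj f with hbdef
  let F : ℕ → W → 𝔹 := fun n a => b ⊓ bPM (chk 𝔹 a) (num n) f
  have hdisj : ∀ n a c, a ≠ c → F n a ⊓ F n c = ⊥ := by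
    intro n a c hac
    have h1 : F n a ⊓ F n c ≤ beq (chk 𝔹 a) (chk 𝔹 c) := by
      have h2 : vInj f ≤ bPM (chk 𝔹 a) (num n) f ⇨ bPM (chk 𝔹 c) (num n) f ⇨
          beq (chk 𝔹 a) (chk 𝔹 c) :=
        (iInf_le _ (chk 𝔹 a)).trans ((iInf_le _ (chk 𝔹 c)).trans (iInf_le _ (num n)))
      rw [le_himp_iff, le_himp_iff] at h2
      refine le_trans ?_ h2
      exact le_inf (le_inf (inf_le_left.trans (inf_le_left.trans inf_le_right))
        (inf_le_left.trans inf_le_right)) (inf_le_right.trans inf_le_right)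
    rw [beq_chk, if_neg hac] at h1
    exact eq_bot_iff.2 h1
  have htot : ∀ c : W, b ≤ ⨆ n, F n c := by
    intro c
    have h1 : b ≤ ⨆ y, bPM (chk 𝔹 c) y f := by
      have h2 : bFun f (WN W 𝔹) omegaN ≤ bmem (chk 𝔹 c) (WN W 𝔹) ⇨
          ⨆ y, bPM (chk 𝔹 c) y f ⊓ ⨅ y', bPM (chk 𝔹 c) y' f ⇨ beq y' y :=
        inf_le_right.trans (iInf_le _ _)
      rw [bmem_chk_WN, top_himp] at h2
      refine (inf_le_left.trans h2).trans (iSup_mono fun y => inf_le_left)
    have h3 : ∀ y, bFun f (WN W 𝔹) omegaN ⊓ bPM (chk 𝔹 c) y f ≤ ⨆ n : ℕ,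
        bPM (chk 𝔹 c) (num n) f := by
      intro y
      have h4 : bFun f (WN W 𝔹) omegaN ≤ bmem (opair (chk 𝔹 c) y) f ⇨
          ⨆ x', bmem x' (WN W 𝔹) ⊓ ⨆ y', bmem y' omegaN ⊓ bPair x' y' (opair (chk 𝔹 c) y) :=
        inf_le_left.trans (iInf_le _ _)
      rw [le_himp_iff, ← bPM_eq] at h4
      have h5 : bFun f (WN W 𝔹) omegaN ⊓ bPM (chk 𝔹 c) y f ≤
          bmem y omegaN ⊓ bPM (chk 𝔹 c) y f := by
        refine le_inf (h4.trans (iSup_le fun x' => ?_)) inf_le_right
        rw [inf_iSup_eq]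
        refine iSup_le fun y' => ?_
        rw [bPair_eq, beq_opair]
        have h6 := bmem_congr_left y' y (omegaN : BSet 𝔹)
        refine le_trans ?_ h6
        rw [beq_symm y' y]
        exact le_inf ((inf_le_right.trans inf_le_right).trans inf_le_right)
          (inf_le_right.trans inf_le_left)
      refine h5.trans ?_
      rw [bmem_omegaN, iSup_inf_eq]
      refine iSup_mono fun n => ?_
      exact ext1_bPM2 (chk 𝔹 c) f y (num n)
    calc b ≤ b ⊓ ⨆ y, bPM (chk 𝔹 c) y f := le_inf le_rfl h1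
      _ ≤ ⨆ n, F n c := by
        rw [inf_iSup_eq]
        refine iSup_le fun y => ?_
        have h7 : b ⊓ bPM (chk 𝔹 c) y f ≤ b ⊓ ⨆ n : ℕ, bPM (chk 𝔹 c) (num n) f :=
          le_inf inf_le_left ((inf_le_inf_right _ inf_le_left).trans (h3 y))
        refine h7.trans ?_
        rw [inf_iSup_eq]
  have hB := hb F hdisj
  rw [eq_bot_iff]
  calc b = b ⊓ ⊤ := (inf_top_eq _).symm
    _ = b ⊓ ⨆ c, ⨅ n, ⨅ a, ⨅ _ : ¬ a < c, (F n a)ᶜ := by rw [hB]
    _ ≤ ⊥ := by
      rw [inf_iSup_eq]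
      refine iSup_le fun c => ?_
      have h8 : (⨅ n, ⨅ a, ⨅ _ : ¬ a < c, (F n a)ᶜ) ≤ (⨆ n, F n c)ᶜ := by
        rw [compl_iSup]
        refine le_iInf fun n => ?_
        exact (iInf_le _ n).trans ((iInf_le _ c).trans (iInf_le _ (lt_irrefl c)))
      calc b ⊓ _ ≤ (⨆ n, F n c) ⊓ (⨆ n, F n c)ᶜ := inf_le_inf (htot c) h8
        _ = ⊥ := inf_compl_self _

theorem isOmega_quot (U : UF 𝔹) : IsOmega U.E (Quotient.mk U.setoid omegaN : Mod U) := by
  have h1 := (los U (fOmega (0 : Fin 1)) (fun _ => omegaN)).2 (by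
    rw [bval_Omega, bOmega_omegaN]; exact U.top_mem)
  rw [sat_Omega] at h1
  exact h1

theorem isOmega1_quot (U : UF 𝔹) (hW : ∀ a : W, Countable {b : W // b < a})
    (hb : Bounded W 𝔹) :
    IsOmega1 U.E (Quotient.mk U.setoid omegaN : Mod U) (Quotient.mk U.setoid (WN W 𝔹) : Mod U) := by
  refine ⟨?_, ?_, ?_⟩
  · have h1 := (los U (gOrd (0 : Fin 1)) (fun _ => WN W 𝔹)).2 (by
      rw [bval_gOrd_WN (W := W) _ rfl]; exact U.top_mem)
    rw [sat_gOrd] at h1
    exact h1
  · intro hc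
    have h1 := (los U (gCtble (0 : Fin 2) 1) ![omegaN, WN W 𝔹]).1 (by
      rw [sat_gCtble]; exact hc)
    rw [bval_gCtble] at h1
    have h2 : (⨆ f, bFun f ((![omegaN, WN W 𝔹] : Fin 2 → BSet 𝔹) 1)
        ((![omegaN, WN W 𝔹] : Fin 2 → BSet 𝔹) 0) ⊓ vInj f) = ⊥ := by
      rw [eq_bot_iff]
      refine iSup_le fun f => ?_
      exact (not_ctble_WN hb f).le
    rw [h2] at h1
    exact U.bot_notMem h1
  · have h1 := (los U (fball (1 : Fin 2) (gCtble (Fin.succ 0) 0)) ![omegaN, WN W 𝔹]).2 (by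
      rw [bval_fball (W := W) _ _ rfl]
      have : (⨅ a : W, bval (gCtble (Fin.succ 0) 0) (Fin.cons (chk 𝔹 a)
          (![omegaN, WN W 𝔹] : Fin 2 → BSet 𝔹) : Fin 3 → BSet 𝔹)) = ⊤ := by
        rw [eq_top_iff]
        refine le_iInf fun a => ?_
        obtain ⟨g, hg⟩ := (hW a).exists_injective_nat
        rw [bval_gCtble]
        exact ctble_chk a g hg
      rw [this]
      exact U.top_mem)
    rw [sat_fball] at h1
    intro a ha
    have h2 := h1 a ha
    rw [sat_gCtble] at h2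
    exact h2

end

end Om

/-- If `𝔹` does not collapse `ω₁` and satisfies the Boolean core of `MM(ℵ₁)`, every quotient of the
Boolean-valued universe satisfies `MM(ℵ₁)`. -/
theorem MM_quot {W : Type} [LinearOrder W] [WellFoundedLT W] {𝔹 : Type}
    [CompleteBooleanAlgebra 𝔹] (hW : ∀ a : W, Countable {b : W // b < a}) (hb : Bounded W 𝔹)
    (hMM : ∀ U : UF 𝔹, rMM U.E (Quotient.mk U.setoid (WN W 𝔹) : Mod U)) (U : UF 𝔹) :
    IsModelZFC U.E ∧ ∀ w o, IsOmega U.E w → IsOmega1 U.E w o → rMM U.E o := by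
  have hZ := isModelZFC_E U
  refine ⟨hZ, fun w o hw ho => ?_⟩
  have h1 := Om.omega_unique hZ hw (Om.isOmega_quot U)
  subst h1
  rw [Om.omega1_unique hZ ho (Om.isOmega1_quot U hW hb)]
  exact hMM U

end Pool.Agent.MMA1
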