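import Pool.Agent.MMA1.ZFCTools

/-!
# In a model of ZFC, MM(aleph_1) follows from its relational version
-/

set_option autoImplicit false

namespace Pool.Agent.MMA1

open Pool.Agent.BVM Pool.Agent.StarHur Pool.Agent.StarHur.Transfer Tools

namespace RelToMM

variable {M : Type*} {E : M → M → Prop}

section

variable (E)

/-- `(a, b)` belongs to the pull-back of `L` along `h`. -/
def Pull (h L a b : M) : Prop := ∃ x, PairMem E a x h ∧ ∃ y, PairMem E b y h ∧ PairMem E x y L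

end

variable (hZ : IsModelZFC E) {o X L h : M} (hord : IsOrd E o) (hfun : IsFun E h o X)
  (hinj : IsInj E h) (hsurj : ∀ x, E x X → ∃ a, PairMem E a x h)

include hZ hfun in
lemma dom_cod {a x : M} (hax : PairMem E a x h) : E a o ∧ E x X := by
  obtain ⟨p, hp, hph⟩ := hax
  obtain ⟨a', ha', x', hx', hp'⟩ := hfun.1 p hph
  obtain ⟨rfl, rfl⟩ := pair_inj hZ hp hp'
  exact ⟨ha', hx'⟩

include hfun in
lemma h_total {a : M} (ha : E a o) : ∃ x, PairMem E a x h := by
  obtain ⟨x, hx, _⟩ := hfun.2 a ha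
  exact ⟨x, hx⟩

include hZ hfun in
lemma h_unique {a x x' : M} (hx : PairMem E a x h) (hx' : PairMem E a x' h) : x = x' := by
  obtain ⟨y, _, hy⟩ := hfun.2 a (dom_cod hZ hfun hx).1
  rw [hy x hx, hy x' hx']

/-- The main reduction. -/
theorem main (hZ : IsModelZFC E) {o : M} (hord : IsOrd E o) (hMM : rMM E o) {X L h : M}
    (hpo : IsPoset E X L) (hfun : IsFun E h o X) (hinj : IsInj E h)
    (hsurj : ∀ x, E x X → ∃ a, PairMem E a x h) (hssp : IsSSP E o X L) {F Y : M}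
    (hF : IsFun E F o Y) (hD : ∀ a D, PairMem E a D F → IsDense E X L D) (ho : ∃ a, E a o) :
    ∃ G, IsFilter E X L G ∧ ∀ a D, PairMem E a D F → ∃ p, E p G ∧ E p D := by
  -- the relation R
  obtain ⟨R, hR⟩ := exists_rel hZ o o (n := 2)
    (fex (fand (fPM (Fin.succ 0) 0 (Fin.succ (Fin.succ (Fin.succ 0))))
      (fex (fand (fPM (Fin.succ (Fin.succ (Fin.succ 0))) 0 (Fin.succ (Fin.succ (Fin.succ (Fin.succ 0)))))
        (fPM (Fin.succ 0) 0 (Fin.succ (Fin.succ (Fin.succ (Fin.succ (Fin.succ 0))))))))))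
    ![h, L]
  have hR' : ∀ a b, PairMem E a b R ↔ E a o ∧ E b o ∧ Pull E h L a b := by
    intro a b
    rw [hR]
    simp only [sat_ex, sat_and, sat_PM, Fin.cons_zero, Fin.cons_succ, Pull]
    rfl
  have hRx : ∀ {a b x y}, PairMem E a x h → PairMem E b y h →
      (PairMem E a b R ↔ PairMem E x y L) := by
    intro a b x y hax hby
    rw [hR']
    constructor
    · rintro ⟨_, _, x', hx', y', hy', hL⟩
      rwa [h_unique hZ hfun hax hx', h_unique hZ hfun hby hy']
    · intro hL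
      exact ⟨(dom_cod hZ hfun hax).1, (dom_cod hZ hfun hby).1, x, hax, y, hby, hL⟩
  -- the family D'
  obtain ⟨D', hD'⟩ := exists_rel hZ o o (n := 2)
    (fex (fand (fPM (Fin.succ (Fin.succ 0)) 0 (Fin.succ (Fin.succ (Fin.succ 0))))
      (fex (fand (fPM (Fin.succ (Fin.succ 0)) 0 (Fin.succ (Fin.succ (Fin.succ (Fin.succ (Fin.succ 0))))))
        (.mem (Fin.succ 0) 0)))))
    ![h, F]
  have hD'' : ∀ i a, PairMem E i a D' ↔ E i o ∧ E a o ∧
      ∃ x, PairMem E a x h ∧ ∃ D, PairMem E i D F ∧ E x D := by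
    intro i a
    rw [hD']
    simp only [sat_ex, sat_and, sat_PM, sat_mem, Fin.cons_zero, Fin.cons_succ]
    rfl
  -- preorder
  have hpre : rPre E o R := by
    constructor
    · intro a ha
      obtain ⟨x, hx⟩ := h_total hfun ha
      rw [hRx hx hx]
      exact hpo.1 x (dom_cod hZ hfun hx).2
    · intro a ha b hb c hc hab hbc
      obtain ⟨x, hx⟩ := h_total hfun ha
      obtain ⟨y, hy⟩ := h_total hfun hb
      obtain ⟨z, hz⟩ := h_total hfun hc
      rw [hRx hx hy] at hab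
      rw [hRx hy hz] at hbc
      rw [hRx hx hz]
      exact hpo.2.1 x y z (dom_cod hZ hfun hx).2 (dom_cod hZ hfun hy).2 (dom_cod hZ hfun hz).2
        hab hbc
  have hdense : ∀ i, E i o → rDense E o R D' i := by
    intro i hi p hp
    obtain ⟨x, hx⟩ := h_total hfun hp
    obtain ⟨D, hiD, _⟩ := hF.2 i hi
    obtain ⟨y, hyD, hyx⟩ := (hD i D hiD).2 x (dom_cod hZ hfun hx).2
    obtain ⟨q, hq⟩ := hsurj y ((hD i D hiD).1 y hyD)
    refine ⟨q, (dom_cod hZ hfun hq).1, (hRx hq hx).2 hyx, ?_⟩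
    rw [hD'']
    exact ⟨hi, (dom_cod hZ hfun hq).1, y, hq, D, hiD, hyD⟩
  -- preservation of stationary sets
  have hRssp : rSSP E o R := by
    intro S C p hp hS hC
    -- the stationary set
    obtain ⟨S', hS'⟩ := exists_sub hZ o (n := 1) (.mem 0 (Fin.succ 0)) ![S]
    have hS'' : ∀ z, E z S' ↔ E z o ∧ E z S := by
      intro z
      rw [hS']
      simp only [sat_mem, Fin.cons_zero, Fin.cons_succ]
      rfl
    have hclub : ∀ K, IsClub E o K → rClub E o K := by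
      intro K hK
      refine ⟨hK.2.1, ?_⟩
      intro d hd hne hun
      refine hK.2.2 d hd ?_ ?_
      · obtain ⟨b, _, hb⟩ := hne
        exact ⟨b, hb⟩
      · intro b hb
        obtain ⟨a, _, h1, h2, h3⟩ := hun b (hord.1 d hd b hb) hb
        exact ⟨a, h1, h2, h3⟩
    have hSstat : IsStationary E o S' := by
      refine ⟨fun z hz => ((hS'' z).1 hz).1, fun K hK => ?_⟩
      obtain ⟨a, hao, haS, haK⟩ := hS K (hclub K hK)
      exact ⟨a, (hS'' a).2 ⟨hao, haS⟩, haK⟩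
    -- the name
    obtain ⟨C', hC'⟩ := exists_rel hZ o X (n := 2)
      (fex (fand (fPM 0 (Fin.succ (Fin.succ 0)) (Fin.succ (Fin.succ (Fin.succ 0))))
        (fPM (Fin.succ 0) 0 (Fin.succ (Fin.succ (Fin.succ (Fin.succ 0)))))))
      ![h, C]
    have hC'' : ∀ a x, PairMem E a x C' ↔ E a o ∧ E x X ∧
        ∃ t, PairMem E t x h ∧ PairMem E a t C := by
      intro a x
      rw [hC']
      simp only [sat_ex, sat_and, sat_PM, Fin.cons_zero, Fin.cons_succ]
      rfl
    have hC3 : ∀ {a t x}, E a o → PairMem E t x h → (PairMem E a x C' ↔ PairMem E a t C) := by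
      intro a t x ha ht
      rw [hC'']
      constructor
      · rintro ⟨_, _, t', ht', hat'⟩
        rwa [hinj t t' x ht ht']
      · intro hat
        exact ⟨ha, (dom_cod hZ hfun ht).2, t, ht, hat⟩
    have hforce : ∀ {q y a}, PairMem E q y h → E a o →
        (Forces E X L C' y a ↔ rMem E o R C q a) := by
      intro q y a hq ha
      constructor
      · intro hf r hr hrq
        obtain ⟨r', hr'⟩ := h_total hfun hr
        obtain ⟨s', hs'X, hsr, t', ht'X, hst, hat⟩ :=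
          hf r' (dom_cod hZ hfun hr').2 ((hRx hr' hq).1 hrq)
        obtain ⟨s, hs⟩ := hsurj s' hs'X
        obtain ⟨t, ht⟩ := hsurj t' ht'X
        exact ⟨s, (dom_cod hZ hfun hs).1, (hRx hs hr').2 hsr, t, (dom_cod hZ hfun ht).1,
          (hRx hs ht).2 hst, (hC3 ha ht).1 hat⟩
      · intro hf r' hr'X hrq
        obtain ⟨r, hr⟩ := hsurj r' hr'X
        obtain ⟨s, hso, hsr, t, hto, hst, hat⟩ :=
          hf r (dom_cod hZ hfun hr).1 ((hRx hr hq).2 hrq)
        obtain ⟨s', hs⟩ := h_total hfun hso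
        obtain ⟨t', ht⟩ := h_total hfun hto
        exact ⟨s', (dom_cod hZ hfun hs).2, (hRx hs hr).1 hsr, t', (dom_cod hZ hfun ht).2,
          (hRx hs ht).1 hst, (hC3 ha ht).2 hat⟩
    obtain ⟨p', hp'⟩ := h_total hfun hp
    have hCN : ForcesClub E o X L C' p' := by
      constructor
      · intro q' hq'X hq'p b hb
        obtain ⟨q, hq⟩ := hsurj q' hq'X
        obtain ⟨a, hao, hba, r, hro, hrq, hm⟩ :=
          hC.1 q (dom_cod hZ hfun hq).1 ((hRx hq hp').2 hq'p) b hb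
        obtain ⟨r', hr⟩ := h_total hfun hro
        exact ⟨a, hao, hba, r', (dom_cod hZ hfun hr).2, (hRx hr hq).1 hrq, (hforce hr hao).2 hm⟩
      · intro d hd hne q' hq'X hq'p hun
        obtain ⟨q, hq⟩ := hsurj q' hq'X
        rw [hforce hq hd]
        refine hC.2 d hd ?_ q (dom_cod hZ hfun hq).1 ((hRx hq hp').2 hq'p) ?_
        · obtain ⟨b, hb⟩ := hne
          exact ⟨b, hord.1 d hd b hb, hb⟩
        · intro r hr hrq b _ hbd
          obtain ⟨r', hr'⟩ := h_total hfun hr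
          obtain ⟨a, hba, had, s', hs'X, hsr, hf⟩ :=
            hun r' (dom_cod hZ hfun hr').2 ((hRx hr' hq).1 hrq) b hbd
          obtain ⟨s, hs⟩ := hsurj s' hs'X
          have hao := hord.1 d hd a had
          exact ⟨a, hao, hba, had, s, (dom_cod hZ hfun hs).1, (hRx hs hr').2 hsr,
            (hforce hs hao).1 hf⟩
    obtain ⟨q', hq'X, hq'p, a, haS, hf⟩ := hssp S' hSstat C' p' (dom_cod hZ hfun hp').2 hCN
    obtain ⟨q, hq⟩ := hsurj q' hq'X
    have hao := ((hS'' a).1 haS).1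
    exact ⟨q, (dom_cod hZ hfun hq).1, (hRx hq hp').2 hq'p, a, hao, ((hS'' a).1 haS).2,
      (hforce hq hao).1 hf⟩
  -- the filter
  obtain ⟨G0, hG1, hG2, hG3⟩ := hMM R D' hpre hdense hRssp
  obtain ⟨G, hG⟩ := exists_sub hZ X (n := 2)
    (fex (fand (fPM 0 (Fin.succ 0) (Fin.succ (Fin.succ 0))) (.mem 0 (Fin.succ (Fin.succ (Fin.succ 0))))))
    ![h, G0]
  have hG' : ∀ x, E x G ↔ E x X ∧ ∃ a, PairMem E a x h ∧ E a G0 := by
    intro x
    rw [hG]
    simp only [sat_ex, sat_and, sat_PM, sat_mem, Fin.cons_zero, Fin.cons_succ]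
    rfl
  have hGx : ∀ {a x}, PairMem E a x h → (E x G ↔ E a G0) := by
    intro a x hax
    rw [hG']
    constructor
    · rintro ⟨_, b, hb, hbG⟩
      rwa [hinj a b x hax hb]
    · intro haG
      exact ⟨(dom_cod hZ hfun hax).2, a, hax, haG⟩
  have hmeet : ∀ a D, PairMem E a D F → ∃ p, E p G ∧ E p D := by
    intro i D hiD
    have hio : E i o := by
      obtain ⟨p, hp, hpF⟩ := hiD
      obtain ⟨i', hi', D2, _, hp'⟩ := hF.1 p hpF
      rw [(pair_inj hZ hp hp').1]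
      exact hi'
    obtain ⟨p, hpo, hpG, hpD⟩ := hG3 i hio
    obtain ⟨_, _, x, hx, D2, hiD2, hxD⟩ := (hD'' i p).1 hpD
    have hDD : D = D2 := by
      obtain ⟨D3, _, hu⟩ := hF.2 i hio
      rw [hu D hiD, hu D2 hiD2]
    rw [hDD]
    exact ⟨x, (hGx hx).2 hpG, hxD⟩
  refine ⟨G, ⟨fun x hx => ((hG' x).1 hx).1, ?_, ?_, ?_⟩, hmeet⟩
  · obtain ⟨i, hi⟩ := ho
    obtain ⟨D, hiD, _⟩ := hF.2 i hi
    obtain ⟨p, hp, _⟩ := hmeet i D hiD
    exact ⟨p, hp⟩
  · intro x y hx hy hxy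
    obtain ⟨hxX, a, ha, haG⟩ := (hG' x).1 hx
    obtain ⟨b, hb⟩ := hsurj y hy
    rw [hGx hb]
    exact hG1 a (dom_cod hZ hfun ha).1 b (dom_cod hZ hfun hb).1 haG ((hRx ha hb).2 hxy)
  · intro x y hx hy
    obtain ⟨hxX, a, ha, haG⟩ := (hG' x).1 hx
    obtain ⟨hyX, b, hb, hbG⟩ := (hG' y).1 hy
    obtain ⟨r, hro, hrG, hra, hrb⟩ :=
      hG2 a (dom_cod hZ hfun ha).1 b (dom_cod hZ hfun hb).1 haG hbG
    obtain ⟨z, hz⟩ := h_total hfun hro
    exact ⟨z, (hGx hz).2 hrG, (hRx hz ha).1 hra, (hRx hz hb).1 hrb⟩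

end RelToMM

/-- In a model of ZFC, `MM(ℵ₁)` follows from its relational version. -/
theorem MM_of_rMM {M : Type*} {E : M → M → Prop} (hZ : IsModelZFC E)
    (h : ∀ w o, IsOmega E w → IsOmega1 E w o → rMM E o) : MM E := by
  intro w o hw ho X L hpo hh hssp F Y hF hD
  obtain ⟨h', hfun, hinj, hsurj⟩ := hh
  refine RelToMM.main hZ ho.1 (h w o hw ho) hpo hfun hinj hsurj hssp hF hD ?_
  -- `o` is not empty, as it is uncountable
  by_contra hcon
  push Not at hcon
  apply ho.2.1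
  -- the empty function
  obtain ⟨e, he⟩ := hZ.sep 0 .bot Fin.elim0 w
  have he' : ∀ z, ¬ E z e := fun z hz => ((he z).1 hz).2
  refine ⟨e, ⟨fun p hp => absurd hp (he' p), fun x hx => absurd hx (hcon x)⟩, ?_⟩
  rintro x y z ⟨p, _, hp⟩ _
  exact absurd hp (he' p)

end Pool.Agent.MMA1
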