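import Pool.Agent.MMA1.Chk

/-!
# The Boolean value of the relational MM(aleph_1) is the Boolean core
-/

set_option autoImplicit false

namespace Pool.Agent.MMA1

open Pool.Agent.BVM Pool.Agent.StarHur Pool.Agent.StarHur.Transfer

noncomputable section

variable {W : Type} [LinearOrder W] [WellFoundedLT W] {𝔹 : Type} [CompleteBooleanAlgebra 𝔹]

namespace ValAux

lemma ite_inf (p : Prop) [Decidable p] (x : 𝔹) : ((if p then ⊤ else ⊥ : 𝔹) ⊓ x) = ⨆ _ : p, x := by
  by_cases h : p <;> simp [h]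

lemma ite_himp (p : Prop) [Decidable p] (x : 𝔹) : ((if p then ⊤ else ⊥ : 𝔹) ⇨ x) = ⨅ _ : p, x := by
  by_cases h : p <;> simp [h]

open Classical in
lemma sup_ite {ι : Type} (p : ι → Prop) [∀ i, Decidable (p i)] :
    (⨆ i, (if p i then ⊤ else ⊥ : 𝔹)) = if ∃ i, p i then ⊤ else ⊥ := by
  split_ifs with h
  · obtain ⟨i, hi⟩ := h
    rw [eq_top_iff]
    exact le_iSup_of_le i (by rw [if_pos hi])
  · rw [eq_bot_iff]
    refine iSup_le fun i => ?_
    rw [if_neg (fun hi => h ⟨i, hi⟩)]

lemma iInf_set {f : BSet 𝔹 → 𝔹} {g : (W → 𝔹) → 𝔹} (h : ∀ x, f x = g (subOf W x)) :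
    (⨅ x, f x) = ⨅ s, g s := by
  apply le_antisymm
  · refine le_iInf fun s => (iInf_le _ (setN s)).trans ?_
    rw [h, subOf_setN]
  · refine le_iInf fun x => (iInf_le _ (subOf W x)).trans ?_
    rw [h]

lemma iSup_set {f : BSet 𝔹 → 𝔹} {g : (W → 𝔹) → 𝔹} (h : ∀ x, f x = g (subOf W x)) :
    (⨆ x, f x) = ⨆ s, g s := by
  apply le_antisymm
  · refine iSup_le fun x => ?_
    rw [h]
    exact le_iSup g (subOf W x)
  · refine iSup_le fun s => ?_
    rw [← subOf_setN s, ← h]
    exact le_iSup f (setN s)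

lemma iInf_rel {f : BSet 𝔹 → 𝔹} {g : (W → W → 𝔹) → 𝔹} (h : ∀ x, f x = g (relOf W x)) :
    (⨅ x, f x) = ⨅ s, g s := by
  apply le_antisymm
  · refine le_iInf fun s => (iInf_le _ (relN s)).trans ?_
    rw [h, relOf_relN]
  · refine le_iInf fun x => (iInf_le _ (relOf W x)).trans ?_
    rw [h]

end ValAux

open ValAux

section Val

variable {n : ℕ} (v : Fin n → BSet 𝔹)

lemma bval_gPre (o R : Fin n) (ho : v o = WN W 𝔹) :
    bval (gPre o R) v = vPre (relOf W (v R)) := by
  simp only [gPre, vPre, relOf, bval_and, bval_imp, bval_PM, bPM_eq, bval_fball (W := W),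
    Fin.cons_zero, Fin.cons_succ, ho]
  simp only [himp_himp]

lemma bval_gDense (o R D i : Fin n) (a : W) (ho : v o = WN W 𝔹) (hi : v i = chk 𝔹 a) :
    bval (gDense o R D i) v = vDense (relOf W (v R)) (relOf W (v D) a) := by
  simp only [gDense, vDense, relOf, bval_and, bval_imp, bval_PM, bPM_eq, bval_fball (W := W),
    bval_fbex (W := W), Fin.cons_zero, Fin.cons_succ, ho, hi]

lemma bval_gClub (o K : Fin n) (ho : v o = WN W 𝔹) :
    bval (gClub o K) v = vClub (subOf W (v K)) := by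
  simp only [gClub, vClub, subOf, bval_and, bval_imp, bval_mem, bmem_chk_chk, bval_fball (W := W),
    bval_fbex (W := W), Fin.cons_zero, Fin.cons_succ, ho, ite_inf, ite_himp, sup_ite, iSup_and]

lemma bval_gStat (o S : Fin n) (ho : v o = WN W 𝔹) :
    bval (gStat o S) v = vStat (subOf W (v S)) := by
  rw [gStat, vStat, bval_all]
  refine iInf_set (W := W) fun x => ?_
  rw [bval_imp, bval_gClub (W := W) _ _ _ (by rw [Fin.cons_succ]; exact ho),
    bval_fbex (W := W) _ _ (by rw [Fin.cons_succ]; exact ho)]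
  simp only [subOf, bval_and, bval_mem, Fin.cons_zero, Fin.cons_succ]

lemma bval_gMem (o R C q a : Fin n) (q' a' : W) (ho : v o = WN W 𝔹) (hq : v q = chk 𝔹 q')
    (ha : v a = chk 𝔹 a') :
    bval (gMem o R C q a) v = vMem (relOf W (v R)) (relOf W (v C)) q' a' := by
  simp only [gMem, vMem, relOf, bval_and, bval_imp, bval_PM, bPM_eq, bval_fball (W := W),
    bval_fbex (W := W), Fin.cons_zero, Fin.cons_succ, ho, hq, ha]

lemma bval_gUnbName (o R C p : Fin n) (p' : W) (ho : v o = WN W 𝔹) (hp : v p = chk 𝔹 p') :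
    bval (gUnbName o R C p) v = vUnbName (relOf W (v R)) (relOf W (v C)) p' := by
  simp only [gUnbName, vUnbName, bval_and, bval_imp, bval_PM, bPM_eq, bval_mem, bmem_chk_chk,
    bval_fball (W := W), bval_fbex (W := W), Fin.cons_zero, Fin.cons_succ, ho, hp]
  refine iInf_congr fun q => ?_
  congr 1
  refine iInf_congr fun b => iSup_congr fun a => ?_
  rw [ite_inf]
  refine iSup_congr fun _ => iSup_congr fun r => ?_
  congr 1
  exact bval_gMem (W := W) _ _ _ _ _ _ r a (by simp only [Fin.cons_succ, ho])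
    (by simp only [Fin.cons_zero]) (by simp only [Fin.cons_succ, Fin.cons_zero])

lemma bval_gUnbBelow (o R C q d : Fin n) (q' d' : W) (ho : v o = WN W 𝔹) (hq : v q = chk 𝔹 q')
    (hd : v d = chk 𝔹 d') :
    bval (gUnbBelow o R C q d) v = vUnbBelow (relOf W (v R)) (relOf W (v C)) q' d' := by
  simp only [gUnbBelow, vUnbBelow, bval_and, bval_imp, bval_PM, bPM_eq, bval_mem, bmem_chk_chk,
    bval_fball (W := W), bval_fbex (W := W), Fin.cons_zero, Fin.cons_succ, ho, hq, hd, ite_inf,
    ite_himp, iSup_and]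
  refine iInf_congr fun r => ?_
  congr 1
  refine iInf_congr fun b => iInf_congr fun _ => iSup_congr fun a => iSup_congr fun _ =>
    iSup_congr fun _ => iSup_congr fun s => ?_
  congr 1
  exact bval_gMem (W := W) _ _ _ _ _ _ s a (by simp only [Fin.cons_succ, ho])
    (by simp only [Fin.cons_zero]) (by simp only [Fin.cons_succ, Fin.cons_zero])

lemma bval_gClubName (o R C p : Fin n) (p' : W) (ho : v o = WN W 𝔹) (hp : v p = chk 𝔹 p') :
    bval (gClubName o R C p) v = vClubName (relOf W (v R)) (relOf W (v C)) p' := by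
  rw [gClubName, vClubName, bval_and, bval_gUnbName (W := W) v o R C p p' ho hp]
  congr 1
  rw [bval_fball (W := W) v o ho]
  refine iInf_congr fun d => ?_
  rw [bval_imp, bval_fbex (W := W) _ _ (by rw [Fin.cons_succ]; exact ho),
    bval_fball (W := W) _ _ (by rw [Fin.cons_succ]; exact ho)]
  simp only [bval_mem, bmem_chk_chk, Fin.cons_zero, Fin.cons_succ, sup_ite, ite_himp]
  refine iInf_congr fun _ => iInf_congr fun q => ?_
  rw [bval_imp, bval_imp,
    bval_gUnbBelow (W := W) _ _ _ _ _ _ q d (by simp only [Fin.cons_succ, ho])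
      (by simp only [Fin.cons_zero]) (by simp only [Fin.cons_succ, Fin.cons_zero]),
    bval_gMem (W := W) _ _ _ _ _ _ q d (by simp only [Fin.cons_succ, ho])
      (by simp only [Fin.cons_zero]) (by simp only [Fin.cons_succ, Fin.cons_zero]),
    himp_himp]
  simp only [bval_PM, bPM_eq, relOf, Fin.cons_zero, Fin.cons_succ, hp]

lemma bval_gSSP (o R : Fin n) (ho : v o = WN W 𝔹) :
    bval (gSSP o R) v = vSSP (relOf W (v R)) := by
  rw [gSSP, vSSP, bval_all]
  refine iInf_set (W := W) fun S => ?_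
  rw [bval_all]
  refine iInf_rel (W := W) fun C => ?_
  rw [bval_fball (W := W) _ _ (by simp only [Fin.cons_succ, ho])]
  refine iInf_congr fun p => ?_
  rw [bval_imp, bval_imp, bval_gStat (W := W) _ _ _ (by simp only [Fin.cons_succ, ho]),
    bval_gClubName (W := W) _ _ _ _ _ p (by simp only [Fin.cons_succ, ho]) (by simp only [Fin.cons_zero]),
    himp_himp, bval_fbex (W := W) _ _ (by simp only [Fin.cons_succ, ho])]
  simp only [Fin.cons_zero, Fin.cons_succ]
  congr 1
  refine iSup_congr fun q => ?_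
  rw [bval_and, bval_fbex (W := W) _ _ (by simp only [Fin.cons_succ, ho])]
  congr 1
  · simp only [bval_PM, bPM_eq, relOf, Fin.cons_zero, Fin.cons_succ]
  · refine iSup_congr fun a => ?_
    rw [bval_and, bval_gMem (W := W) _ _ _ _ _ _ q a (by simp only [Fin.cons_succ, ho])
      (by simp only [Fin.cons_succ, Fin.cons_zero]) (by simp only [Fin.cons_zero])]
    simp only [bval_mem, subOf, Fin.cons_zero, Fin.cons_succ]

lemma bval_gGeneric (o R D G : Fin n) (ho : v o = WN W 𝔹) :
    bval (gGeneric o R D G) v =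
      vGeneric (relOf W (v R)) (relOf W (v D)) (subOf W (v G)) := by
  simp only [gGeneric, vGeneric, relOf, subOf, bval_and, bval_imp, bval_mem, bval_PM, bPM_eq,
    bval_fball (W := W), bval_fbex (W := W), Fin.cons_zero, Fin.cons_succ, ho, himp_himp]
  simp only [inf_assoc]

lemma bval_gMM (o : Fin n) (ho : v o = WN W 𝔹) : bval (gMM o) v = vMM W 𝔹 := by
  rw [gMM, vMM, bval_all]
  refine iInf_rel (W := W) fun R => ?_
  rw [bval_all]
  refine iInf_rel (W := W) fun D => ?_
  rw [bval_imp, bval_imp, bval_imp, bval_gPre (W := W) _ _ _ (by simp only [Fin.cons_succ, ho]),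
    bval_gSSP (W := W) _ _ _ (by simp only [Fin.cons_succ, ho]),
    bval_fball (W := W) _ _ (by simp only [Fin.cons_succ, ho]), himp_himp, himp_himp, bval_ex]
  simp only [Fin.cons_zero, Fin.cons_succ]
  have h1 : (⨅ i : W, bval (gDense (Fin.succ (Fin.succ (Fin.succ o))) (Fin.succ (Fin.succ 0))
      (Fin.succ 0) 0) (Fin.cons (chk 𝔹 i) (Fin.cons D (Fin.cons R v)) :
        Fin (n + 3) → BSet 𝔹)) = ⨅ i : W, vDense (relOf W R) (relOf W D i) := by
    refine iInf_congr fun i => ?_
    rw [bval_gDense (W := W) _ _ _ _ _ i (by simp only [Fin.cons_succ, ho]) (by simp only [Fin.cons_zero])]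
    simp only [Fin.cons_zero, Fin.cons_succ]
  have h2 : (⨆ x : BSet 𝔹, bval (gGeneric (Fin.succ (Fin.succ (Fin.succ o))) (Fin.succ (Fin.succ 0))
      (Fin.succ 0) 0) (Fin.cons x (Fin.cons D (Fin.cons R v)) : Fin (n + 3) → BSet 𝔹)) =
      ⨆ G : W → 𝔹, vGeneric (relOf W R) (relOf W D) G := by
    refine iSup_set (W := W) fun G => ?_
    rw [bval_gGeneric (W := W) _ _ _ _ _ (by simp only [Fin.cons_succ, ho])]
    simp only [Fin.cons_zero, Fin.cons_succ]
  rw [h1, h2]

end Val

/-- The relational `MM(ℵ₁)` holds in the quotient model. -/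
theorem rMM_quot (U : UF 𝔹) (h : vMM W 𝔹 = ⊤) :
    rMM U.E (Quotient.mk U.setoid (WN W 𝔹) : Mod U) := by
  have h1 := (los U (gMM (0 : Fin 1)) (fun _ => WN W 𝔹)).2 (by
    rw [bval_gMM (W := W) _ _ rfl, h]; exact U.top_mem)
  rw [sat_gMM] at h1
  exact h1

end

end Pool.Agent.MMA1
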