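import Pool.Agent.MMA1.SSPc
import Pool.Agent.MMA1.Omega1
import Pool.Agent.MMA1.RelToMM
import Pool.Agent.MMA1.Val

/-!
# From the Boolean core to MM(aleph_1) in the quotient models
-/

set_option autoImplicit false

namespace Pool.Agent.MMA1

open Pool.Agent.BVM SSPAlg

namespace Glue

section Cong

variable {𝔹 : Type} [CompleteBooleanAlgebra 𝔹]

/-- `x` and `y` agree below `b`. -/
def Eqb (b x y : 𝔹) : Prop := b ⊓ x = b ⊓ y

variable {b : 𝔹}

lemma Eqb.rfl' (x : 𝔹) : Eqb b x x := rfl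

lemma Eqb.symm {x y : 𝔹} (h : Eqb b x y) : Eqb b y x := Eq.symm h

lemma Eqb.inf {x y x' y' : 𝔹} (h : Eqb b x y) (h' : Eqb b x' y') : Eqb b (x ⊓ x') (y ⊓ y') := by
  unfold Eqb at *
  rw [← inf_assoc, h, inf_assoc, inf_left_comm, h', inf_left_comm]

lemma Eqb.himp {x y x' y' : 𝔹} (h : Eqb b x y) (h' : Eqb b x' y') : Eqb b (x ⇨ x') (y ⇨ y') := by
  unfold Eqb at *
  have key : ∀ {x y x' y' : 𝔹}, b ⊓ x = b ⊓ y → b ⊓ x' = b ⊓ y' → b ⊓ (x ⇨ x') ≤ b ⊓ (y ⇨ y') := by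
    intro x y x' y' h h'
    refine le_inf inf_le_left ?_
    rw [le_himp_iff]
    have h1 : b ⊓ (x ⇨ x') ⊓ y ≤ b ⊓ x' := by
      have h2 : b ⊓ (x ⇨ x') ⊓ y ≤ b ⊓ x := by
        rw [h]; exact le_inf (inf_le_left.trans inf_le_left) inf_le_right
      refine le_inf (inf_le_left.trans inf_le_left) ?_
      calc b ⊓ (x ⇨ x') ⊓ y ≤ (x ⇨ x') ⊓ x :=
            le_inf (inf_le_left.trans inf_le_right) (h2.trans inf_le_right)
        _ ≤ x' := himp_inf_le
    rw [h'] at h1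
    exact h1.trans inf_le_right
  exact le_antisymm (key h h') (key h.symm h'.symm)

lemma Eqb.iInf {ι : Sort*} {f g : ι → 𝔹} (h : ∀ i, Eqb b (f i) (g i)) :
    Eqb b (⨅ i, f i) (⨅ i, g i) := by
  unfold Eqb at *
  have key : ∀ {f g : ι → 𝔹}, (∀ i, b ⊓ f i = b ⊓ g i) → b ⊓ (⨅ i, f i) ≤ b ⊓ ⨅ i, g i := by
    intro f g h
    refine le_inf inf_le_left (le_iInf fun i => ?_)
    calc b ⊓ ⨅ i, f i ≤ b ⊓ f i := inf_le_inf_left _ (iInf_le _ i)
      _ = b ⊓ g i := h i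
      _ ≤ g i := inf_le_right
  exact le_antisymm (key h) (key fun i => (h i).symm)

lemma Eqb.iSup {ι : Sort*} {f g : ι → 𝔹} (h : ∀ i, Eqb b (f i) (g i)) :
    Eqb b (⨆ i, f i) (⨆ i, g i) := by
  unfold Eqb at *
  rw [inf_iSup_eq, inf_iSup_eq]
  exact iSup_congr h

lemma Eqb.le {x y : 𝔹} (h : Eqb b x y) (hb : b ≤ x) : b ≤ y := by
  unfold Eqb at h
  calc b ≤ b ⊓ x := le_inf le_rfl hb
    _ = b ⊓ y := h
    _ ≤ y := inf_le_right

end Cong

section

variable {W : Type} [LT W] {𝔹 : Type} [CompleteBooleanAlgebra 𝔹] {b : 𝔹} {R R' : W → W → 𝔹}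
  (h : ∀ p q, Eqb b (R p q) (R' p q))

include h

lemma eqb_vMem (C : W → W → 𝔹) (q a : W) : Eqb b (vMem R C q a) (vMem R' C q a) :=
  Eqb.iInf fun r => (h r q).himp (Eqb.iSup fun s => (h s r).inf
    (Eqb.iSup fun t => (h s t).inf (Eqb.rfl' _)))

lemma eqb_vUnbName (C : W → W → 𝔹) (p : W) : Eqb b (vUnbName R C p) (vUnbName R' C p) :=
  Eqb.iInf fun q => (h q p).himp (Eqb.iInf fun c => Eqb.iSup fun a => Eqb.iSup fun _ =>
    Eqb.iSup fun r => (h r q).inf (eqb_vMem h C r a))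

lemma eqb_vUnbBelow (C : W → W → 𝔹) (q d : W) : Eqb b (vUnbBelow R C q d) (vUnbBelow R' C q d) :=
  Eqb.iInf fun r => (h r q).himp (Eqb.iInf fun c => Eqb.iInf fun _ => Eqb.iSup fun a =>
    Eqb.iSup fun _ => Eqb.iSup fun s => (h s r).inf (eqb_vMem h C s a))

lemma eqb_vClubName (C : W → W → 𝔹) (p : W) : Eqb b (vClubName R C p) (vClubName R' C p) :=
  (eqb_vUnbName h C p).inf (Eqb.iInf fun d => Eqb.iInf fun _ => Eqb.iInf fun q =>
    ((h q p).inf (eqb_vUnbBelow h C q d)).himp (eqb_vMem h C q d))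

lemma eqb_vSSP : Eqb b (vSSP R) (vSSP R') :=
  Eqb.iInf fun S => Eqb.iInf fun C => Eqb.iInf fun p =>
    ((Eqb.rfl' (vStat S)).inf (eqb_vClubName h C p)).himp (Eqb.iSup fun q => (h q p).inf
      (Eqb.iSup fun a => (Eqb.rfl' (S a)).inf (eqb_vMem h C q a)))

lemma eqb_vGeneric {D D' : W → W → 𝔹} (hD : ∀ i p, Eqb b (D i p) (D' i p)) (G : W → 𝔹) :
    Eqb b (vGeneric R D G) (vGeneric R' D' G) :=
  (Eqb.iInf fun p => Eqb.iInf fun q => ((Eqb.rfl' (G p)).inf (h p q)).himp (Eqb.rfl' _)).inf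
    ((Eqb.iInf fun p => Eqb.iInf fun q => (Eqb.rfl' _).himp (Eqb.iSup fun r =>
      ((Eqb.rfl' _).inf (h r p)).inf (h r q))).inf
      (Eqb.iInf fun i => Eqb.iSup fun p => (Eqb.rfl' _).inf (hD i p)))

end

/-- The club criterion (for all stationary sets, conditions and families of dense sets). -/
noncomputable def vCrit {W : Type} [LinearOrder W] {𝔹 : Type} [CompleteBooleanAlgebra 𝔹]
    (R : W → W → 𝔹) : 𝔹 :=
  ⨅ S : W → 𝔹, ⨅ p : W, ⨅ A : W → W → 𝔹, ((vStat S ⊓ ⨅ i, vDense R (A i)) ⇨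
    ⨆ q, R q p ⊓ ⨆ d, S d ⊓ ⨅ i, ⨅ _ : i < d, pdv R (A i) d q)

/-- The core of the iteration part. -/
def IterCore (W : Type) [LinearOrder W] (𝔹 : Type) [CompleteBooleanAlgebra 𝔹] : Prop :=
  ∀ R : W → W → 𝔹, IsBPre R → ∀ D : W → W → 𝔹, (∀ i, vDense R (D i) = ⊤) →
    vCrit R ≤ ⨆ G : W → 𝔹, vGeneric R D G

section

variable {W : Type} [LinearOrder W] [WellFoundedLT W] [SuccOrder W] [NoMaxOrder W] [Nonempty W]
  {𝔹 : Type} [CompleteBooleanAlgebra 𝔹]

lemma vSSP_le_vCrit (hct : ∀ a : W, (Set.Iic a).Countable) (hP : Pres W (⊤ : 𝔹))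
    {R : W → W → 𝔹} (hR : IsBPre R) : vSSP R ≤ vCrit R := by
  refine le_iInf fun S => le_iInf fun p => le_iInf fun A => ?_
  rw [le_himp_iff]
  exact vSSP_crit hct hP hR S p A

theorem vMM_top (hct : ∀ a : W, (Set.Iic a).Countable) (hP : Pres W (⊤ : 𝔹))
    (hcore : IterCore W 𝔹) : vMM W 𝔹 = ⊤ := by
  rw [vMM, eq_top_iff]
  refine le_iInf fun R => le_iInf fun D => ?_
  rw [le_himp_iff, top_inf_eq]
  set b : 𝔹 := vPre R ⊓ (⨅ i, vDense R (D i)) ⊓ vSSP R with hb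
  have hpre : b ≤ vPre R := inf_le_left.trans inf_le_left
  have hdense : b ≤ ⨅ i, vDense R (D i) := inf_le_left.trans inf_le_right
  have hssp : b ≤ vSSP R := inf_le_right
  let R' : W → W → 𝔹 := fun p q => b ⇨ R p q
  let D' : W → W → 𝔹 := fun i p => b ⇨ D i p
  have hRR' : ∀ p q, Eqb b (R p q) (R' p q) := by
    intro p q
    show b ⊓ R p q = b ⊓ (b ⇨ R p q)
    rw [inf_himp]
  have hDD' : ∀ i p, Eqb b (D i p) (D' i p) := by
    intro i p
    show b ⊓ D i p = b ⊓ (b ⇨ D i p)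
    rw [inf_himp]
  have hR' : IsBPre R' := by
    constructor
    · intro x
      show (b ⇨ R x x) = ⊤
      rw [eq_top_iff, le_himp_iff, top_inf_eq]
      exact (hpre.trans inf_le_left).trans (iInf_le _ x)
    · intro x y z
      show (b ⇨ R x y) ⊓ (b ⇨ R y z) ≤ b ⇨ R x z
      rw [le_himp_iff]
      have h1 : b ≤ R x y ⊓ R y z ⇨ R x z :=
        (hpre.trans inf_le_right).trans ((iInf_le _ x).trans ((iInf_le _ y).trans (iInf_le _ z)))
      have h2 : (b ⇨ R x y) ⊓ (b ⇨ R y z) ⊓ b ≤ R x y ⊓ R y z := by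
        refine le_inf ?_ ?_
        · exact (inf_le_inf_right _ inf_le_left).trans himp_inf_le
        · exact (inf_le_inf_right _ inf_le_right).trans himp_inf_le
      calc (b ⇨ R x y) ⊓ (b ⇨ R y z) ⊓ b ≤ (R x y ⊓ R y z ⇨ R x z) ⊓ (R x y ⊓ R y z) :=
            le_inf (inf_le_right.trans h1) h2
        _ ≤ R x z := himp_inf_le
  have hD' : ∀ i, vDense R' (D' i) = ⊤ := by
    intro i
    rw [vDense, eq_top_iff]
    refine le_iInf fun p => ?_
    have h1 : b ≤ ⨆ q, R' q p ⊓ D' i q := by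
      refine (hdense.trans ((iInf_le _ i).trans (iInf_le _ p))).trans (iSup_mono fun q => ?_)
      exact inf_le_inf le_himp le_himp
    have h2 : bᶜ ≤ ⨆ q, R' q p ⊓ D' i q := by
      refine le_iSup_of_le p (le_inf ?_ ?_)
      · rw [← himp_bot]; exact himp_le_himp_left bot_le
      · rw [← himp_bot]; exact himp_le_himp_left bot_le
    rw [← sup_compl_eq_top (x := b)]
    exact sup_le h1 h2
  have h1 : b ≤ vSSP R' := (eqb_vSSP hRR').le hssp
  have h2 : b ≤ ⨆ G : W → 𝔹, vGeneric R' D' G :=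
    (h1.trans (vSSP_le_vCrit hct hP hR')).trans (hcore R' hR' D' hD')
  exact (Eqb.iSup fun G => (eqb_vGeneric (fun p q => (hRR' p q).symm)
    (fun i p => (hDD' i p).symm) G)).le h2

lemma bounded_of_pres (hP : Pres W (⊤ : 𝔹)) : Bounded W 𝔹 := by
  classical
  intro F hF
  let a0 : W := Classical.arbitrary W
  let G : ℕ → W → 𝔹 := fun n a => F n a ⊔ (if a = a0 then (⨆ c, F n c)ᶜ else ⊥)
  have h1 : ∀ n, (⊤ : 𝔹) ≤ ⨆ a, G n a := by
    intro n
    rw [← sup_compl_eq_top (x := ⨆ c, F n c)]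
    refine sup_le (iSup_mono fun a => le_sup_left) ?_
    refine le_iSup_of_le a0 ?_
    show _ ≤ F n a0 ⊔ (if a0 = a0 then (⨆ c, F n c)ᶜ else ⊥)
    rw [if_pos rfl]
    exact le_sup_right
  have h2 := hP G h1
  rw [eq_top_iff]
  refine h2.trans (iSup_mono fun d => iInf_mono fun n => ?_)
  refine iSup₂_le fun a ha => le_iInf fun c => le_iInf fun hc => ?_
  rw [le_compl_iff_disjoint_right, disjoint_iff]
  have hac : a ≠ c := by rintro rfl; exact hc ha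
  show (F n a ⊔ (if a = a0 then (⨆ c, F n c)ᶜ else ⊥)) ⊓ F n c = ⊥
  rw [inf_sup_right, hF n a c hac, bot_sup_eq]
  split_ifs
  · rw [eq_bot_iff, ← compl_inf_self (⨆ c, F n c)]
    exact inf_le_inf_left _ (le_iSup (F n) c)
  · rw [bot_inf_eq]

end

end Glue

/-- **Reduction.**  If `𝔹` preserves `ω₁` and satisfies the core of the iteration, every quotient of
the Boolean-valued universe by an ultrafilter is a model of ZFC and of `MM(ℵ₁)`. -/
theorem main_of_core {W : Type} [LinearOrder W] [WellFoundedLT W] [SuccOrder W] [NoMaxOrder W]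
    [Nonempty W] {𝔹 : Type} [CompleteBooleanAlgebra 𝔹] (hct : ∀ a : W, (Set.Iic a).Countable)
    (hP : Pres W (⊤ : 𝔹)) (hcore : Glue.IterCore W 𝔹) (U : UF 𝔹) :
    IsModelZFC U.E ∧ MM U.E := by
  have hW : ∀ a : W, Countable {b : W // b < a} := fun a =>
    ((hct a).mono (fun b hb => le_of_lt hb) : (Set.Iio a).Countable).to_subtype
  have h1 := MM_quot (W := W) (𝔹 := 𝔹) hW (Glue.bounded_of_pres hP)
    (fun U => rMM_quot U (Glue.vMM_top hct hP hcore)) U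
  exact ⟨h1.1, MM_of_rMM h1.1 h1.2⟩

end Pool.Agent.MMA1
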