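import Pool.Agent.BVM.Defs
import Pool.Agent.MP_b1d3ea_lc.Internal

/-!
# MM(aleph_1) inside a structure (M, E) for the language of set theory

All notions are the usual set-theoretic ones, relativised to the structure `(M, E)` (to be used in
models of ZFC).  `IsPair`, `PairMem`, `IsOmega`, `IsFun` are the notions of
`Pool.Agent.StarHur` (Kuratowski pairs, membership of a pair in a set, the set of natural numbers,
functions as sets of ordered pairs).
-/

set_option autoImplicit false

namespace Pool.Agent.MMA1

open Pool.Agent.StarHur (IsPair PairMem IsOmega IsFun)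

variable {M : Type*} (E : M → M → Prop)

/-- `x ⊆ y` -/
def Sub (x y : M) : Prop := ∀ z, E z x → E z y

/-- `a` is an ordinal (transitive and linearly ordered by membership; foundation is an axiom). -/
def IsOrd (a : M) : Prop :=
  (∀ y, E y a → Sub E y a) ∧ ∀ x y, E x a → E y a → E x y ∨ x = y ∨ E y x

/-- `f` is injective. -/
def IsInj (f : M) : Prop := ∀ x y z, PairMem E x z f → PairMem E y z f → x = y

/-- `x` is countable: there is an injection of `x` into the set `w` of natural numbers. -/
def IsCtble (w x : M) : Prop := ∃ f, IsFun E f x w ∧ IsInj E f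

/-- `o` is the ordinal `ω₁` (`w` is the set of natural numbers): an uncountable ordinal all of whose
elements are countable. -/
def IsOmega1 (w o : M) : Prop :=
  IsOrd E o ∧ ¬ IsCtble E w o ∧ ∀ a, E a o → IsCtble E w a

/-- `K` is a closed unbounded subset of `o`: it is unbounded, and contains all `d ∈ o`, `d ≠ 0`,
below which it is unbounded. -/
def IsClub (o K : M) : Prop :=
  Sub E K o ∧ (∀ b, E b o → ∃ a, E a o ∧ E b a ∧ E a K) ∧
  ∀ d, E d o → (∃ b, E b d) → (∀ b, E b d → ∃ a, E b a ∧ E a d ∧ E a K) → E d K

/-- `S` is a stationary subset of `o`. -/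
def IsStationary (o S : M) : Prop :=
  Sub E S o ∧ ∀ K, IsClub E o K → ∃ a, E a S ∧ E a K

/-- `L` is a partial order on the set `X`; `p ≤ q` means `(p, q) ∈ L`. -/
def IsPoset (X L : M) : Prop :=
  (∀ p, E p X → PairMem E p p L) ∧
  (∀ p q r, E p X → E q X → E r X → PairMem E p q L → PairMem E q r L → PairMem E p r L) ∧
  ∀ p q, E p X → E q X → PairMem E p q L → PairMem E q p L → p = q

/-- `D` is a dense subset of the poset `(X, L)`. -/
def IsDense (X L D : M) : Prop :=
  Sub E D X ∧ ∀ p, E p X → ∃ q, E q D ∧ PairMem E q p L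

/-- The pairs `(a, t)` with `t ∈ X` and `(a, t) ∈ C` form a name of a set of ordinals, as usual in
forcing with the poset `(X, L)`.  This says `q ⊩ a ∈ C`: the `s` which are below some `t` with
`(a, t) ∈ C` are dense below `q`. -/
def Forces (X L C q a : M) : Prop :=
  ∀ r, E r X → PairMem E r q L →
    ∃ s, E s X ∧ PairMem E s r L ∧ ∃ t, E t X ∧ PairMem E s t L ∧ PairMem E a t C

/-- `p ⊩` the set named by `C` is closed and unbounded in `o`. -/
def ForcesClub (o X L C p : M) : Prop :=
  (∀ q, E q X → PairMem E q p L → ∀ b, E b o →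
    ∃ a, E a o ∧ E b a ∧ ∃ r, E r X ∧ PairMem E r q L ∧ Forces E X L C r a) ∧
  ∀ d, E d o → (∃ b, E b d) → ∀ q, E q X → PairMem E q p L →
    (∀ r, E r X → PairMem E r q L → ∀ b, E b d →
      ∃ a, E b a ∧ E a d ∧ ∃ s, E s X ∧ PairMem E s r L ∧ Forces E X L C s a) →
    Forces E X L C q d

/-- Forcing with the poset `(X, L)` preserves the stationarity of every stationary subset of
`o = ω₁`: if `S` is stationary and `p` forces that `C` is closed unbounded in `o`, then some
`q ≤ p` forces some element of `S` into `C`. -/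
def IsSSP (o X L : M) : Prop :=
  ∀ S, IsStationary E o S → ∀ C p, E p X → ForcesClub E o X L C p →
    ∃ q, E q X ∧ PairMem E q p L ∧ ∃ a, E a S ∧ Forces E X L C q a

/-- `G` is a filter of the poset `(X, L)`. -/
def IsFilter (X L G : M) : Prop :=
  Sub E G X ∧ (∃ p, E p G) ∧ (∀ p q, E p G → E q X → PairMem E p q L → E q G) ∧
  ∀ p q, E p G → E q G → ∃ r, E r G ∧ PairMem E r p L ∧ PairMem E r q L

/-- Martin's Maximum for posets of size `ℵ₁`: if `(X, L)` is a poset which preserves stationary
subsets of `o = ω₁`, `h : o → X` is a bijection, and `F` is a function with domain `o` whose values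
are dense subsets of `(X, L)`, then there is a filter of `(X, L)` which meets all values of `F`. -/
def MM : Prop :=
  ∀ w o, IsOmega E w → IsOmega1 E w o → ∀ X L, IsPoset E X L →
    (∃ h, IsFun E h o X ∧ IsInj E h ∧ ∀ x, E x X → ∃ a, PairMem E a x h) →
    IsSSP E o X L →
    ∀ F Y, IsFun E F o Y → (∀ a D, PairMem E a D F → IsDense E X L D) →
      ∃ G, IsFilter E X L G ∧ ∀ a D, PairMem E a D F → ∃ p, E p G ∧ E p D

end Pool.Agent.MMA1
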