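import Mathlib

/-!
# Countable models and isomorphisms, without elementary submodels

`Pr U` is the type of pairs `(N, h)`: a countable subset `N` of `U` and an injection `h` of `N` into
`U`.  `Cl f π` says that `N` is closed under the countably many finitary operations `f` and that `h`
commutes with them.  The sets of pairs containing all closed ones form a normal, countably complete
filter `cc U`.
-/

set_option autoImplicit false

namespace Pool.Agent.MMA1

open Set Filter Cardinal

/-- A countable set and an injection of it. -/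
structure Pr (U : Type) where
  N : Set U
  h : U → U
  ctb : N.Countable
  inj : Set.InjOn h N

namespace Pr

variable {U : Type}

/-- `N` is closed under the operations `f` and `h` commutes with them. -/
def Cl (f : ℕ → List U → U) (π : Pr U) : Prop :=
  ∀ n l, (∀ x ∈ l, x ∈ π.N) → f n l ∈ π.N ∧ π.h (f n l) = f n (l.map π.h)

/-- merge countably many families of operations -/
def merge (f : ℕ → ℕ → List U → U) : ℕ → List U → U := fun n => f n.unpair.1 n.unpair.2

lemma Cl.of_merge {f : ℕ → ℕ → List U → U} {π : Pr U} (h : Cl (merge f) π) (k : ℕ) : Cl (f k) π := by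
  intro n l hl
  have := h (Nat.pair k n) l hl
  simpa [merge] using this

/-- The filter generated by the closed pairs. -/
def cc (U : Type) [Nonempty U] : Filter (Pr U) where
  sets := {s | ∃ f, ∀ π, Cl f π → π ∈ s}
  univ_sets := by
    obtain ⟨u⟩ := ‹Nonempty U›
    exact ⟨fun _ _ => u, fun _ _ => mem_univ _⟩
  sets_of_superset := by
    rintro s t ⟨f, hf⟩ hst
    exact ⟨f, fun π hπ => hst (hf π hπ)⟩
  inter_sets := by
    rintro s t ⟨f, hf⟩ ⟨g, hg⟩
    refine ⟨merge (fun k => if k = 0 then f else g), fun π hπ => ⟨hf π ?_, hg π ?_⟩⟩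
    · exact hπ.of_merge 0
    · exact hπ.of_merge 1

variable [Nonempty U]

lemma eventually_cc {p : Pr U → Prop} : (∀ᶠ π in cc U, p π) ↔ ∃ f, ∀ π, Cl f π → p π := Iff.rfl

lemma eventually_Cl (f : ℕ → List U → U) : ∀ᶠ π in cc U, Cl f π := ⟨f, fun _ h => h⟩

instance : CountableInterFilter (cc U) where
  countable_sInter_mem S hS h := by
    rcases S.eq_empty_or_nonempty with rfl | hne
    · simp
    obtain ⟨g, rfl⟩ := hS.exists_eq_range hne
    choose f hf using fun n => h (g n) (mem_range_self n)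
    refine ⟨merge f, fun π hπ => ?_⟩
    rintro s ⟨n, rfl⟩
    exact hf n π (hπ.of_merge n)

/-- **Normality.** -/
theorem normal {P : U → Pr U → Prop} (h : ∀ x, ∀ᶠ π in cc U, x ∈ π.N → π.h x = x → P x π) :
    ∀ᶠ π in cc U, ∀ x ∈ π.N, π.h x = x → P x π := by
  choose f hf using fun x => eventually_cc.1 (h x)
  obtain ⟨u⟩ := ‹Nonempty U›
  refine ⟨fun n l => match l with | [] => u | x :: l => f x n l, fun π hπ x hx hhx => ?_⟩
  refine hf x π ?_ hx hhx
  intro n l hl
  have h1 := hπ n (x :: l) (by
    intro y hy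
    rcases List.mem_cons.1 hy with rfl | hy
    · exact hx
    · exact hl y hy)
  simpa [hhx] using h1

/-- constants -/
lemma eventually_const (c : U) : ∀ᶠ π in cc U, c ∈ π.N ∧ π.h c = c :=
  ⟨fun _ _ => c, fun _ hπ => hπ 0 [] (by simp)⟩

/-- operations -/
lemma eventually_op (g : List U → U) :
    ∀ᶠ π in cc U, ∀ l, (∀ x ∈ l, x ∈ π.N) → g l ∈ π.N ∧ π.h (g l) = g (l.map π.h) :=
  ⟨fun _ => g, fun _ hπ => hπ 0⟩

lemma eventually_op1 (g : U → U) : ∀ᶠ π in cc U, ∀ x ∈ π.N, g x ∈ π.N ∧ π.h (g x) = g (π.h x) := by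
  obtain ⟨u⟩ := ‹Nonempty U›
  filter_upwards [eventually_op (fun l => match l with | [x] => g x | _ => u)] with π hπ x hx
  have := hπ [x] (by simpa using hx)
  simpa using this

lemma eventually_op2 (g : U → U → U) :
    ∀ᶠ π in cc U, ∀ x ∈ π.N, ∀ y ∈ π.N, g x y ∈ π.N ∧ π.h (g x y) = g (π.h x) (π.h y) := by
  obtain ⟨u⟩ := ‹Nonempty U›
  filter_upwards [eventually_op (fun l => match l with | [x, y] => g x y | _ => u)] with π hπ x hx y hy
  have := hπ [x, y] (by
    intro z hz
    simp only [List.mem_cons, List.not_mem_nil, or_false] at hz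
    rcases hz with rfl | rfl <;> assumption)
  simpa using this

lemma eventually_op3 (g : U → U → U → U) :
    ∀ᶠ π in cc U, ∀ x ∈ π.N, ∀ y ∈ π.N, ∀ z ∈ π.N,
      g x y z ∈ π.N ∧ π.h (g x y z) = g (π.h x) (π.h y) (π.h z) := by
  obtain ⟨u⟩ := ‹Nonempty U›
  filter_upwards [eventually_op (fun l => match l with | [x, y, z] => g x y z | _ => u)] with
    π hπ x hx y hy z hz
  have := hπ [x, y, z] (by
    intro w hw
    simp only [List.mem_cons, List.not_mem_nil, or_false] at hw
    rcases hw with rfl | rfl | rfl <;> assumption)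
  simpa using this

/-- Relations are preserved. -/
lemma eventually_rel (r : List U → Prop) :
    ∀ᶠ π in cc U, ∀ l, (∀ x ∈ l, x ∈ π.N) → (r l ↔ r (l.map π.h)) := by
  classical
  by_cases hU : ∃ u v : U, u ≠ v
  · obtain ⟨u, v, huv⟩ := hU
    filter_upwards [eventually_op (fun l => if r l then u else v), eventually_const u,
      eventually_const v] with π h1 h2 h3 l hl
    obtain ⟨-, h4⟩ := h1 l hl
    constructor
    · intro h
      rw [if_pos h, h2.2] at h4
      by_contra h'
      rw [if_neg h'] at h4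
      exact huv h4
    · intro h
      rw [if_pos h] at h4
      by_contra h'
      rw [if_neg h', h3.2] at h4
      exact huv h4.symm
  · push Not at hU
    refine Eventually.of_forall fun π l _ => ?_
    have : l.map π.h = l := by
      rw [show π.h = id from funext fun x => hU _ _, List.map_id]
    rw [this]

lemma eventually_rel1 (r : U → Prop) : ∀ᶠ π in cc U, ∀ x ∈ π.N, (r x ↔ r (π.h x)) := by
  filter_upwards [eventually_rel (fun l => ∃ x, l = [x] ∧ r x)] with π hπ x hx
  have := hπ [x] (by simpa using hx)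
  simpa using this

lemma eventually_rel2 (r : U → U → Prop) :
    ∀ᶠ π in cc U, ∀ x ∈ π.N, ∀ y ∈ π.N, (r x y ↔ r (π.h x) (π.h y)) := by
  filter_upwards [eventually_rel (fun l => ∃ x y, l = [x, y] ∧ r x y)] with π hπ x hx y hy
  have := hπ [x, y] (by
    intro z hz
    simp only [List.mem_cons, List.not_mem_nil, or_false] at hz
    rcases hz with rfl | rfl <;> assumption)
  simpa using this

lemma eventually_rel3 (r : U → U → U → Prop) :
    ∀ᶠ π in cc U, ∀ x ∈ π.N, ∀ y ∈ π.N, ∀ z ∈ π.N, (r x y z ↔ r (π.h x) (π.h y) (π.h z)) := by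
  filter_upwards [eventually_rel (fun l => ∃ x y z, l = [x, y, z] ∧ r x y z)] with π hπ x hx y hy z hz
  have := hπ [x, y, z] (by
    intro w hw
    simp only [List.mem_cons, List.not_mem_nil, or_false] at hw
    rcases hw with rfl | rfl | rfl <;> assumption)
  simpa using this

/-! ### Generated models -/

/-- Codes of lists of terms. -/
inductive Tm : Type
  | v (n : ℕ)
  | nil
  | cons (s t : Tm)
  | ap (n : ℕ) (t : Tm)
  deriving Countable

namespace Tm

/-- value of a code -/
def ev (f : ℕ → List U → U) (a : ℕ → U) : Tm → List U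
  | v n => [a n]
  | nil => []
  | cons s t => ev f a s ++ ev f a t
  | ap n t => [f n (ev f a t)]

omit [Nonempty U] in
lemma single (f : ℕ → List U → U) (a : ℕ → U) (c : Tm) : ∀ x ∈ ev f a c, ∃ d : Tm, ev f a d = [x] := by
  induction c with
  | v n =>
    intro x hx
    simp only [ev, List.mem_singleton] at hx
    exact ⟨v n, by rw [ev, hx]⟩
  | nil => intro x hx; simp [ev] at hx
  | cons s t hs ht =>
    intro x hx
    simp only [ev, List.mem_append] at hx
    rcases hx with hx | hx
    · exact hs x hx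
    · exact ht x hx
  | ap n t _ =>
    intro x hx
    simp only [ev, List.mem_singleton] at hx
    exact ⟨ap n t, by rw [ev, hx]⟩

end Tm

open Tm

/-- The model generated by `a`. -/
def gen (f : ℕ → List U → U) (a : ℕ → U) : Set U := {x | ∃ d : Tm, ev f a d = [x]}

omit [Nonempty U] in
lemma gen_countable (f : ℕ → List U → U) (a : ℕ → U) : (gen f a).Countable := by
  have : gen f a ⊆ ⋃ d : Tm, {x | ev f a d = [x]} := by
    rintro x ⟨d, hd⟩
    exact mem_iUnion.2 ⟨d, hd⟩
  refine (countable_iUnion fun d => ?_).mono this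
  refine Set.Subsingleton.countable ?_
  intro x hx y hy
  have hx' : ev f a d = [x] := hx
  have hy' : ev f a d = [y] := hy
  rw [hx'] at hy'
  exact List.singleton_inj.1 hy'

omit [Nonempty U] in
/-- A list in the generated model is the value of a code, and the code only depends on the codes of
the elements. -/
lemma exists_code (f : ℕ → List U → U) (a a' : ℕ → U) (g : U → U)
    (hg : ∀ x ∈ gen f a, ∃ d : Tm, ev f a d = [x] ∧ ev f a' d = [g x]) (l : List U)
    (hl : ∀ x ∈ l, x ∈ gen f a) : ∃ c : Tm, ev f a c = l ∧ ev f a' c = l.map g := by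
  induction l with
  | nil => exact ⟨Tm.nil, rfl, rfl⟩
  | cons x l ih =>
    obtain ⟨c, hc, hc'⟩ := ih (fun y hy => hl y (List.mem_cons_of_mem _ hy))
    obtain ⟨d, hd, hd'⟩ := hg x (hl x List.mem_cons_self)
    exact ⟨Tm.cons d c, by rw [ev, hd, hc]; rfl, by rw [ev, hd', hc']; rfl⟩

omit [Nonempty U] in
lemma exists_pair_aux (f : ℕ → List U → U) (a a' : ℕ → U)
    (ht : ∀ c d : Tm, ev f a c = ev f a d ↔ ev f a' c = ev f a' d) :
    ∃ π : Pr U, Cl f π ∧ (∀ n, a n ∈ π.N ∧ π.h (a n) = a' n) ∧
      (∀ c x, ev f a c = [x] → x ∈ π.N ∧ ev f a' c = [π.h x]) ∧ π.N = gen f a := by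
  classical
  have hlen : ∀ c : Tm, (ev f a c).length = (ev f a' c).length := by
    intro c
    induction c with
    | v n => rfl
    | nil => rfl
    | cons s t hs ht => simp only [ev, List.length_append, hs, ht]
    | ap n t _ => rfl
  have h1 : ∀ c x, ev f a c = [x] → ∃ y, ev f a' c = [y] := by
    intro c x hc
    have := hlen c
    rw [hc] at this
    exact List.length_eq_one_iff.1 this.symm
  let D : U → Tm := fun x => if hx : x ∈ gen f a then hx.choose else Tm.nil
  have hD : ∀ x ∈ gen f a, ev f a (D x) = [x] := by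
    intro x hx
    simp only [D, dif_pos hx]
    exact hx.choose_spec
  let H : U → U := fun x => if hx : ∃ y, ev f a' (D x) = [y] then hx.choose else x
  have hH : ∀ x ∈ gen f a, ev f a' (D x) = [H x] := by
    intro x hx
    have h2 := h1 _ _ (hD x hx)
    simp only [H, dif_pos h2]
    exact h2.choose_spec
  have hH' : ∀ c x, ev f a c = [x] → ev f a' c = [H x] := by
    intro c x hc
    have hx : x ∈ gen f a := ⟨c, hc⟩
    have h2 : ev f a c = ev f a (D x) := by rw [hc, hD x hx]
    rw [(ht _ _).1 h2, hH x hx]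
  refine ⟨⟨gen f a, H, gen_countable f a, ?_⟩, ?_, ?_, ?_, rfl⟩
  · intro x hx y hy hxy
    have hxy' : H x = H y := hxy
    have h2 : ev f a' (D x) = ev f a' (D y) := by rw [hH x hx, hH y hy, hxy']
    have h3 := (ht _ _).2 h2
    rw [hD x hx, hD y hy] at h3
    exact List.singleton_inj.1 h3
  · intro n l hl
    obtain ⟨c, hc, hc'⟩ := exists_code f a a' H (fun x hx => ⟨D x, hD x hx, hH x hx⟩) l hl
    have h2 : ev f a (Tm.ap n c) = [f n l] := by rw [ev, hc]
    refine ⟨⟨_, h2⟩, ?_⟩
    have h3 := hH' _ _ h2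
    rw [ev, hc'] at h3
    exact (List.singleton_inj.1 h3).symm
  · intro n
    have h2 : ev f a (Tm.v n) = [a n] := rfl
    refine ⟨⟨_, h2⟩, ?_⟩
    have h3 := hH' _ _ h2
    exact (List.singleton_inj.1 h3).symm
  · intro c x hc
    exact ⟨⟨c, hc⟩, hH' c x hc⟩

/-- **Existence of closed models** containing a given countable set (with `h` the identity). -/
theorem exists_closed (f : ℕ → List U → U) {A : Set U} (hA : A.Countable) :
    ∃ π : Pr U, Cl f π ∧ A ⊆ π.N ∧ π.h = id := by
  obtain ⟨u⟩ := ‹Nonempty U›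
  obtain ⟨a, ha⟩ := (hA.insert u).exists_eq_range (insert_nonempty _ _)
  obtain ⟨π, h1, h2, h3, h4⟩ := exists_pair_aux f a a (fun _ _ => Iff.rfl)
  have hid : ∀ x ∈ π.N, π.h x = x := by
    intro x hx
    rw [h4] at hx
    obtain ⟨c, hc⟩ := hx
    have := (h3 c x hc).2
    rw [hc] at this
    exact (List.singleton_inj.1 this).symm
  refine ⟨⟨π.N, id, π.ctb, fun x _ y _ h => h⟩, ?_, ?_, rfl⟩
  · intro n l hl
    refine ⟨(h1 n l hl).1, ?_⟩
    simp
  · intro x hx
    have : x ∈ range a := by rw [← ha]; exact mem_insert_of_mem _ hx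
    obtain ⟨n, rfl⟩ := this
    exact (h2 n).1

omit [Nonempty U] in
/-- **Pigeonhole.**  Among many sequences there are two generating isomorphic models, the isomorphism
fixing the elements of a small set. -/
theorem exists_pair (f : ℕ → List U → U) (Z : Set U) {J : Type} (a : J → ℕ → U)
    (hJ : (#Z + 1) ^ ℵ₀ * 2 ^ ℵ₀ < #J) :
    ∃ i j, i ≠ j ∧ ∃ π : Pr U, Cl f π ∧ (∀ n, a i n ∈ π.N ∧ π.h (a i n) = a j n) ∧
      ∀ z ∈ Z, z ∈ π.N → π.h z = z := by
  classical
  let tp : J → (Tm → Option Z) × (Set (Tm × Tm)) := fun j =>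
    (fun c => if h : ∃ z : Z, ev f (a j) c = [z.1] then some h.choose else none,
      {cd | ev f (a j) cd.1 = ev f (a j) cd.2})
  have hcard : #((Tm → Option Z) × (Set (Tm × Tm))) ≤ (#Z + 1) ^ ℵ₀ * 2 ^ ℵ₀ := by
    rw [mk_prod, lift_id, lift_id, mk_set]
    refine mul_le_mul' ?_ ?_
    · rw [← mk_option, ← power_def]
      exact power_le_power_left (by simp) mk_le_aleph0
    · exact power_le_power_left two_ne_zero mk_le_aleph0
  have hninj : ¬ Function.Injective tp := fun h => by
    have := mk_le_of_injective h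
    exact absurd (this.trans hcard) (not_le.2 hJ)
  rw [Function.Injective] at hninj
  push Not at hninj
  obtain ⟨i, j, hij, hne⟩ := hninj
  obtain ⟨h1, h2⟩ := Prod.ext_iff.1 hij
  refine ⟨i, j, hne, ?_⟩
  obtain ⟨π, g1, g2, g3, g4⟩ := exists_pair_aux f (a i) (a j) (fun c d => by
    have := Set.ext_iff.1 h2 (c, d)
    exact this)
  refine ⟨π, g1, g2, ?_⟩
  intro z hz hzN
  rw [g4] at hzN
  obtain ⟨c, hc⟩ := hzN
  obtain ⟨-, h4⟩ := g3 c z hc
  have h5 : ∃ z' : Z, ev f (a i) c = [z'.1] := ⟨⟨z, hz⟩, hc⟩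
  have h6 := congrFun h1 c
  simp only [tp] at h6
  rw [dif_pos h5] at h6
  have h7 : ∃ z' : Z, ev f (a j) c = [z'.1] := by
    by_contra hcon
    rw [dif_neg hcon] at h6
    exact Option.some_ne_none _ h6
  rw [dif_pos h7] at h6
  have h8 := h5.choose_spec
  have h9 := h7.choose_spec
  rw [← Option.some_injective _ h6, h4] at h9
  have h10 : [z] = [(h5.choose : U)] := hc.symm.trans h8
  rw [← List.singleton_inj.1 h10] at h9
  exact List.singleton_inj.1 h9

end Pr

end Pool.Agent.MMA1
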