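import Pool.Agent.MMA1.TwoStep

/-!
# The literal Boolean value of SSP is below the club criterion
-/

set_option autoImplicit false

namespace Pool.Agent.MMA1.SSPAlg

open Classical

section

variable {W : Type} {𝔹 : Type} [CompleteBooleanAlgebra 𝔹] {R : W → W → 𝔹}

theorem frc_sup_lower (hR : IsBPre R) (X : TS R) (s : W) : ⨆ t, R s t ⊓ frc X t = frc X s := by
  apply le_antisymm
  · exact iSup_le fun t => frc_lower X t s
  · refine le_iSup_of_le s ?_
    rw [hR.1, top_inf_eq]

theorem frc_iSup_subtype (hR : IsBPre R) (P : W → Prop) (X : W → TS R) (p : W) :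
    frc (⨆ a, ⨆ _ : P a, X a) p = ⨅ q, R q p ⇨ ⨆ r, R r q ⊓ ⨆ a, ⨆ _ : P a, frc (X a) r := by
  rw [iSup_subtype', frc_iSup hR]
  refine iInf_congr fun q => ?_
  congr 1
  refine iSup_congr fun r => ?_
  rw [iSup_subtype']

end

variable {W : Type} [LinearOrder W] {𝔹 : Type} [CompleteBooleanAlgebra 𝔹] {R : W → W → 𝔹}

omit [LinearOrder W] in
/-- an element is determined by forcing -/
theorem vMem_frc (hR : IsBPre R) (X : W → TS R) (q a : W) :
    vMem R (fun a t => frc (X a) t) q a = frc (X a) q := by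
  rw [vMem, frc_dense hR]
  refine iInf_congr fun r => ?_
  congr 1
  refine iSup_congr fun s => ?_
  rw [frc_sup_lower hR]

theorem vUnbName_frc (hR : IsBPre R) (X : W → TS R) (p : W) :
    vUnbName R (fun a t => frc (X a) t) p = frc (unbv X) p := by
  rw [vUnbName, unbv, frc_iInf]
  simp only [vMem_frc hR]
  simp_rw [frc_iSup_subtype hR]
  rw [iInf_comm]
  refine iInf_congr fun q => ?_
  rw [← himp_iInf_eq]
  congr 1
  refine iInf_congr fun b => ?_
  simp only [inf_iSup_eq]
  rw [iSup_comm]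
  refine iSup_congr fun a => ?_
  rw [iSup_comm]

theorem vUnbBelow_frc (hR : IsBPre R) (X : W → TS R) (q d : W) :
    vUnbBelow R (fun a t => frc (X a) t) q d = frc (accv X d) q := by
  rw [vUnbBelow, accv, frc_iInf]
  simp only [vMem_frc hR, frc_iInf]
  simp_rw [frc_iSup_subtype hR]
  simp only [himp_iInf_eq]
  rw [iInf_comm]
  refine iInf_congr fun b => ?_
  rw [iInf_comm]
  refine iInf_congr fun hb => ?_
  refine iInf_congr fun r => ?_
  congr 1
  simp only [inf_iSup_eq]
  rw [iSup_comm]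
  refine iSup_congr fun a => ?_
  rw [iSup_comm]

theorem vClubName_frc (hR : IsBPre R) (X : W → TS R) (p : W) :
    vClubName R (fun a t => frc (X a) t) p = frc (vClub X) p := by
  rw [vClubName, vClub_eq, frc_inf, vUnbName_frc hR]
  congr 1
  simp only [frc_iInf, vUnbBelow_frc hR, vMem_frc hR, frc_himp hR]
  refine iInf_congr fun d => iInf_congr fun _ => iInf_congr fun q => ?_
  rw [himp_himp]

/-- the literal SSP in terms of the two step algebra -/
theorem vSSP_le (hR : IsBPre R) (S : W → 𝔹) (X : W → TS R) (p : W) :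
    vSSP R ⊓ (vStat S ⊓ frc (vClub X) p) ≤ ⨆ q, R q p ⊓ ⨆ a, S a ⊓ frc (X a) q := by
  have h : vSSP R ≤ vStat S ⊓ vClubName R (fun a t => frc (X a) t) p ⇨
      ⨆ q, R q p ⊓ ⨆ a, S a ⊓ vMem R (fun a t => frc (X a) t) q a :=
    (iInf_le _ S).trans ((iInf_le _ _).trans (iInf_le _ p))
  rw [le_himp_iff, vClubName_frc hR] at h
  simp only [vMem_frc hR] at h
  exact h

/-- SSP forcings preserve `omega_1` -/
theorem pres_cst [WellFoundedLT W] [SuccOrder W] [NoMaxOrder W] [Nonempty W]
    (hct : ∀ a : W, (Set.Iic a).Countable) (hP : Pres W (⊤ : 𝔹)) (hR : IsBPre R) :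
    Pres W (cst hR (vSSP R)) := by
  intro g hg
  by_contra hcon
  set c := cst hR (vSSP R) with hc
  set Y := ⨆ d, ⨅ n, ⨆ a, ⨆ _ : a < d, g n a with hY
  set z : TS R := c ⊓ Yᶜ with hz
  have hz0 : z ≠ ⊥ := by
    intro h
    apply hcon
    rw [← compl_compl Y, le_compl_iff_disjoint_right, disjoint_iff]
    exact h
  have hzY : z ⊓ Y = ⊥ := by
    rw [hz, inf_assoc, compl_inf_self, inf_bot_eq]
  obtain ⟨X, hX1, hX2⟩ := collapse_club (c := z) g (fun n => inf_le_left.trans (hg n)) hzY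
  apply hz0
  refine frc_ext fun p => ?_
  rw [frc_bot, eq_bot_iff]
  have h1 : frc z p ≤ vSSP R := by
    have : frc z p ≤ frc c p := frc_le_iff.1 inf_le_left p
    exact this
  have h2 : frc z p ≤ vStat (fun a : W => if IsLim a then (⊤ : 𝔹) else ⊥) :=
    le_top.trans (stat_lim hP hct)
  have h3 : frc z p ≤ frc (vClub X) p := frc_le_iff.1 hX1 p
  refine (le_inf h1 (le_inf h2 h3)).trans ((vSSP_le hR _ X p).trans ?_)
  refine iSup_le fun q => inf_le_right.trans (iSup_le fun a => ?_)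
  by_cases ha : IsLim a
  · rw [hX2 a ha, frc_bot]
    exact inf_le_right
  · show (if IsLim a then (⊤ : 𝔹) else ⊥) ⊓ _ ≤ ⊥
    rw [if_neg ha]
    exact inf_le_left

/-- value of: `A` intersected with `[0, d)` is predense below `q` -/
def pdv (R : W → W → 𝔹) (A : W → 𝔹) (d q : W) : 𝔹 :=
  ⨅ r, R r q ⇨ ⨆ a, ⨆ _ : a < d, ⨆ t, R t r ⊓ R t a ⊓ A a

/-- the literal SSP implies the club criterion -/
theorem vSSP_crit [WellFoundedLT W] [SuccOrder W] [NoMaxOrder W] [Nonempty W]
    (hct : ∀ a : W, (Set.Iic a).Countable) (hP : Pres W (⊤ : 𝔹)) (hR : IsBPre R)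
    (S : W → 𝔹) (p : W) (A : W → W → 𝔹) :
    vSSP R ⊓ (vStat S ⊓ ⨅ i, vDense R (A i)) ≤
      ⨆ q, R q p ⊓ ⨆ d, S d ⊓ ⨅ i, ⨅ _ : i < d, pdv R (A i) d q := by
  set b := vSSP R ⊓ (vStat S ⊓ ⨅ i, vDense R (A i)) with hb
  have hP' : Pres W (cst hR b) :=
    (pres_cst hct hP hR).mono (by rw [le_cst_iff]; intro p; exact inf_le_left)
  let F : W → W → TS R := fun i a => prn hR (A i a) a
  have hF : ∀ i, cst hR b ≤ ⨆ a, F i a := by
    intro i
    rw [le_cst_iff]
    intro q
    rw [frc_iSup hR]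
    refine le_iInf fun r => ?_
    rw [le_himp_iff]
    refine (inf_le_left.trans (inf_le_right.trans (inf_le_right.trans
      ((iInf_le _ i).trans (iInf_le _ r))))).trans ?_
    refine iSup_mono fun s => inf_le_inf_left _ ?_
    refine le_iSup_of_le s ?_
    rw [frc_prn]
    refine le_iInf fun t => ?_
    rw [le_himp_iff]
    refine le_iSup_of_le t ?_
    rw [hR.1, top_inf_eq]
  have hcl := vClub_clp hP' hct F hF
  have h1 : b ≤ frc (vClub (clp F)) p := (le_cst_iff hR b _).1 hcl p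
  refine (le_inf inf_le_left (le_inf (inf_le_right.trans inf_le_left) h1)).trans
    ((vSSP_le hR S (clp F) p).trans ?_)
  refine iSup_mono fun q => inf_le_inf_left _ (iSup_mono fun d => inf_le_inf_left _ ?_)
  rw [clp]
  simp only [frc_iInf]
  refine iInf₂_mono fun i _ => ?_
  rw [frc_iSup_subtype hR]
  refine iInf_mono fun r => himp_le_himp_left ?_
  refine iSup_le fun s => ?_
  simp only [inf_iSup_eq]
  refine iSup_mono fun a => iSup_mono fun _ => ?_
  have h2 : frc (F i a) s ≤ ⨆ t, R t s ⊓ (A i a ⊓ R t a) := by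
    show frc (prn hR (A i a) a) s ≤ _
    rw [frc_prn]
    refine (iInf_le _ s).trans ?_
    rw [hR.1, top_himp]
  refine (inf_le_inf_left _ h2).trans ?_
  rw [inf_iSup_eq]
  refine iSup_mono fun t => ?_
  have h3 : R t s ⊓ R s r ≤ R t r := hR.2 t s r
  refine le_inf (le_inf ?_ ?_) ?_
  · exact (le_inf (inf_le_right.trans inf_le_left) inf_le_left).trans h3
  · exact inf_le_right.trans (inf_le_right.trans inf_le_right)
  · exact inf_le_right.trans (inf_le_right.trans inf_le_left)

/-- `Bounded` implies `Pres` -/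
theorem Bounded.pres [WellFoundedLT W] (h : Bounded W 𝔹) : Pres W (⊤ : 𝔹) := by
  intro g hg
  have h1 := h (fun n => lst (g n)) (fun n a b hab => lst_disj _ hab)
  rw [← h1]
  refine iSup_mono fun d => le_iInf fun n => ?_
  have h2 : (⊤ : 𝔹) ≤ ⨆ a, lst (g n) a := by rw [iSup_lst]; exact hg n
  refine (iInf_le _ n).trans ?_
  refine (le_inf le_rfl (le_top.trans h2)).trans ?_
  rw [inf_iSup_eq]
  refine iSup_le fun a => ?_
  by_cases ha : a < d
  · exact inf_le_right.trans ((lst_le _ _).trans (le_iSup₂_of_le a ha le_rfl))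
  · refine (inf_le_inf_right _ (iInf₂_le a ha)).trans ?_
    rw [compl_inf_self]
    exact bot_le

end Pool.Agent.MMA1.SSPAlg
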