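import Pool.Agent.MMA1.Club

/-!
# The algebra of the two step forcing, as Boolean-valued regular open subsets
-/

set_option autoImplicit false

namespace Pool.Agent.MMA1.SSPAlg

open Classical

variable {W : Type} {𝔹 : Type} [CompleteBooleanAlgebra 𝔹]

/-- `R` is a Boolean-valued preorder -/
def IsBPre (R : W → W → 𝔹) : Prop := (∀ x, R x x = ⊤) ∧ ∀ x y z, R x y ⊓ R y z ≤ R x z

/-- the Boolean-valued lower sets of `R` -/
def LF (R : W → W → 𝔹) : CompleteSublattice (W → 𝔹) :=
  CompleteSublattice.mk' {X | ∀ p q, R q p ⊓ X p ≤ X q}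
    (by
      intro s hs p q
      simp only [sSup_apply, inf_iSup_eq]
      exact iSup_mono fun X => hs X.2 p q)
    (by
      intro s hs p q
      simp only [sInf_apply]
      exact le_iInf fun X => (inf_le_inf_left _ (iInf_le _ X)).trans (hs X.2 p q))

theorem mem_LF {R : W → W → 𝔹} {X : W → 𝔹} : X ∈ LF R ↔ ∀ p q, R q p ⊓ X p ≤ X q := Iff.rfl

instance frameLF (R : W → W → 𝔹) : Order.Frame (LF R) :=
  Order.Frame.ofMinimalAxioms
    { inf_sSup_le_iSup_inf := by
        intro a s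
        have h1 : ((a ⊓ sSup s : LF R) : W → 𝔹) = (a : W → 𝔹) ⊓ ⨆ b ∈ s, (b : W → 𝔹) := by
          rw [← CompleteSublattice.coe_sSup']; rfl
        have h2 : ((⨆ b ∈ s, a ⊓ b : LF R) : W → 𝔹) = ⨆ b ∈ s, (a : W → 𝔹) ⊓ (b : W → 𝔹) := by
          simp only [CompleteSublattice.coe_iSup]; rfl
        show ((a ⊓ sSup s : LF R) : W → 𝔹) ≤ ((⨆ b ∈ s, a ⊓ b : LF R) : W → 𝔹)
        rw [h1, h2]
        simp only [inf_iSup_eq]
        exact le_rfl }

/-- the complete Boolean algebra of regular elements of a frame -/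
@[reducible] noncomputable def regCBA (H : Type) [Order.Frame H] :
    CompleteBooleanAlgebra (Heyting.Regular H) where
  __ := (inferInstance : BooleanAlgebra (Heyting.Regular H))
  sSup s := Heyting.Regular.toRegular (sSup (Heyting.Regular.val '' s))
  sInf s := Heyting.Regular.toRegular (sInf (Heyting.Regular.val '' s))
  isLUB_sSup s := by
    constructor
    · intro a ha
      have h : (a : H) ≤ sSup (Heyting.Regular.val '' s) := le_sSup ⟨a, ha, rfl⟩
      exact (Heyting.Regular.toRegular_coe a).symm.le.trans (Heyting.Regular.toRegular.monotone h)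
    · intro b hb
      apply (Heyting.Regular.gi.gc _ _).mpr
      apply sSup_le
      rintro _ ⟨a, ha, rfl⟩
      exact hb ha
  isGLB_sInf s := by
    constructor
    · intro a ha
      apply (Heyting.Regular.gi.gc _ _).mpr
      exact sInf_le ⟨a, ha, rfl⟩
    · intro b hb
      have h : (b : H) ≤ sInf (Heyting.Regular.val '' s) := by
        apply le_sInf
        rintro _ ⟨a, ha, rfl⟩
        exact hb ha
      exact (Heyting.Regular.toRegular_coe b).symm.le.trans (Heyting.Regular.toRegular.monotone h)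
  le_top a := le_top
  bot_le a := bot_le

theorem reg_iSup (H : Type) [Order.Frame H] {ι : Sort*} (X : ι → Heyting.Regular H) :
    letI := regCBA H
    (⨆ i, X i) = Heyting.Regular.toRegular (⨆ i, (X i).val) := by
  show Heyting.Regular.toRegular (sSup (Heyting.Regular.val '' Set.range X)) = _
  rw [← Set.range_comp]
  rfl

theorem reg_iInf (H : Type) [Order.Frame H] {ι : Sort*} (X : ι → Heyting.Regular H) :
    letI := regCBA H
    ((⨅ i, X i : Heyting.Regular H).val : H) = ⨅ i, (X i).val := by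
  let _ := regCBA H
  have h : (⨅ i, X i) = Heyting.Regular.toRegular (⨅ i, (X i).val) := by
    show Heyting.Regular.toRegular (sInf (Heyting.Regular.val '' Set.range X)) = _
    rw [← Set.range_comp]
    rfl
  apply le_antisymm
  · exact le_iInf fun i => iInf_le X i
  · rw [h]; exact le_compl_compl

/-- the complete Boolean algebra of regular lower sets -/
def TS (R : W → W → 𝔹) : Type := Heyting.Regular (LF R)

noncomputable instance (R : W → W → 𝔹) : CompleteBooleanAlgebra (TS R) := regCBA (LF R)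

variable {R : W → W → 𝔹}

/-- the underlying lower function -/
def TS.low (X : TS R) : LF R := Heyting.Regular.val X

/-- the value of: `p` forces the element `X` -/
def frc (X : TS R) (p : W) : 𝔹 := (X.low : W → 𝔹) p

theorem frc_le_iff {X Y : TS R} : X ≤ Y ↔ ∀ p, frc X p ≤ frc Y p := Iff.rfl

theorem frc_ext {X Y : TS R} (h : ∀ p, frc X p = frc Y p) : X = Y :=
  le_antisymm (frc_le_iff.2 fun p => (h p).le) (frc_le_iff.2 fun p => (h p).ge)

theorem frc_lower (X : TS R) (p q : W) : R q p ⊓ frc X p ≤ frc X q := X.low.2 p q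

theorem frc_inf (X Y : TS R) (p : W) : frc (X ⊓ Y) p = frc X p ⊓ frc Y p := rfl

theorem frc_bot (p : W) : frc (⊥ : TS R) p = ⊥ := rfl

theorem frc_top (p : W) : frc (⊤ : TS R) p = ⊤ := rfl

theorem LF_himp (hR : IsBPre R) (X Y : LF R) (p : W) :
    ((X ⇨ Y : LF R) : W → 𝔹) p = ⨅ q, R q p ⇨ ((X : W → 𝔹) q ⇨ (Y : W → 𝔹) q) := by
  apply le_antisymm
  · refine le_iInf fun q => ?_
    rw [le_himp_iff, le_himp_iff]
    have h1 : ((X ⇨ Y : LF R) : W → 𝔹) p ⊓ R q p ≤ ((X ⇨ Y : LF R) : W → 𝔹) q := by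
      rw [inf_comm]; exact (X ⇨ Y : LF R).2 p q
    have h2 : (X ⇨ Y) ⊓ X ≤ Y := himp_inf_le
    exact (inf_le_inf_right _ h1).trans (h2 q)
  · let Z : LF R := ⟨fun p => ⨅ q, R q p ⇨ ((X : W → 𝔹) q ⇨ (Y : W → 𝔹) q), by
      rw [mem_LF]
      intro p q
      refine le_iInf fun r => ?_
      rw [le_himp_iff]
      refine le_trans ?_ (himp_inf_le (a := R r p))
      have h1 : R r q ⊓ R q p ≤ R r p := hR.2 r q p
      exact le_inf (inf_le_left.trans (inf_le_right.trans (iInf_le _ r)))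
        ((le_inf inf_le_right (inf_le_left.trans inf_le_left)).trans h1)⟩
    have hZ : Z ≤ X ⇨ Y := by
      rw [le_himp_iff]
      intro q
      show (⨅ r, R r q ⇨ ((X : W → 𝔹) r ⇨ (Y : W → 𝔹) r)) ⊓ (X : W → 𝔹) q ≤ (Y : W → 𝔹) q
      refine (inf_le_inf_right _ (iInf_le _ q)).trans ?_
      rw [hR.1, top_himp]
      exact himp_inf_le
    exact hZ p

theorem frc_himp (hR : IsBPre R) (X Y : TS R) (p : W) :
    frc (X ⇨ Y) p = ⨅ q, R q p ⇨ (frc X q ⇨ frc Y q) := LF_himp hR X.low Y.low p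

theorem frc_compl (hR : IsBPre R) (X : TS R) (p : W) :
    frc Xᶜ p = ⨅ q, R q p ⇨ (frc X q)ᶜ := by
  rw [← himp_bot, frc_himp hR]
  simp only [frc_bot, himp_bot]

theorem low_iInf {ι : Sort*} (X : ι → TS R) : (⨅ i, X i).low = ⨅ i, (X i).low :=
  reg_iInf (LF R) X

theorem frc_iInf {ι : Sort*} (X : ι → TS R) (p : W) : frc (⨅ i, X i) p = ⨅ i, frc (X i) p := by
  rw [frc, low_iInf, CompleteSublattice.coe_iInf, iInf_apply]
  rfl

theorem LF_compl (hR : IsBPre R) (X : LF R) (p : W) :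
    ((Xᶜ : LF R) : W → 𝔹) p = ⨅ q, R q p ⇨ ((X : W → 𝔹) q)ᶜ := by
  rw [← himp_bot, LF_himp hR]
  simp only [CompleteSublattice.coe_bot, Pi.bot_apply, himp_bot]

/-- double complement: dense below -/
theorem LF_compl_compl (hR : IsBPre R) (X : LF R) (p : W) :
    ((Xᶜᶜ : LF R) : W → 𝔹) p = ⨅ q, R q p ⇨ ⨆ r, R r q ⊓ (X : W → 𝔹) r := by
  rw [LF_compl hR]
  refine iInf_congr fun q => ?_
  rw [LF_compl hR]
  congr 1
  rw [compl_iInf]
  refine iSup_congr fun r => ?_
  rw [himp_eq, compl_sup, compl_compl, compl_compl, inf_comm]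

/-- regularisation of a lower function -/
def TS.reg (X : LF R) : TS R := Heyting.Regular.toRegular X

theorem frc_reg (hR : IsBPre R) (X : LF R) (p : W) :
    frc (TS.reg X) p = ⨅ q, R q p ⇨ ⨆ r, R r q ⊓ (X : W → 𝔹) r :=
  LF_compl_compl hR X p

theorem reg_low (X : TS R) : TS.reg X.low = X := Heyting.Regular.toRegular_coe _

theorem low_iSup {ι : Sort*} (X : ι → TS R) : (⨆ i, X i) = TS.reg (⨆ i, (X i).low) :=
  reg_iSup (LF R) X

theorem frc_iSup (hR : IsBPre R) {ι : Sort*} (X : ι → TS R) (p : W) :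
    frc (⨆ i, X i) p = ⨅ q, R q p ⇨ ⨆ r, R r q ⊓ ⨆ i, frc (X i) r := by
  rw [low_iSup, frc_reg hR]
  refine iInf_congr fun q => ?_
  congr 1
  refine iSup_congr fun r => ?_
  rw [CompleteSublattice.coe_iSup, iSup_apply]
  rfl

theorem frc_dense (hR : IsBPre R) (X : TS R) (p : W) :
    frc X p = ⨅ q, R q p ⇨ ⨆ r, R r q ⊓ frc X r := by
  conv_lhs => rw [← reg_low X]
  exact frc_reg hR X.low p

/-- the constant lower function -/
def cstL (R : W → W → 𝔹) (b : 𝔹) : LF R := ⟨fun _ => b, mem_LF.2 fun _ _ => inf_le_right⟩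

theorem cstL_compl_compl (hR : IsBPre R) (b : 𝔹) : (cstL R b)ᶜᶜ = cstL R b := by
  apply Subtype.coe_injective
  funext p
  show (((cstL R b)ᶜᶜ : LF R) : W → 𝔹) p = b
  rw [LF_compl_compl hR]
  show (⨅ q, R q p ⇨ ⨆ r, R r q ⊓ b) = b
  apply le_antisymm
  · refine (iInf_le _ p).trans ?_
    rw [hR.1, top_himp]
    exact iSup_le fun r => inf_le_right
  · refine le_iInf fun q => ?_
    rw [le_himp_iff]
    refine le_iSup_of_le q ?_
    rw [hR.1, top_inf_eq]
    exact inf_le_left

/-- the constant element -/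
def cst (hR : IsBPre R) (b : 𝔹) : TS R :=
  (⟨cstL R b, cstL_compl_compl hR b⟩ : Heyting.Regular (LF R))

theorem frc_cst (hR : IsBPre R) (b : 𝔹) (p : W) : frc (cst hR b) p = b := rfl

theorem le_cst_iff (hR : IsBPre R) (b : 𝔹) (X : TS R) : cst hR b ≤ X ↔ ∀ p, b ≤ frc X p := Iff.rfl

/-- the lower function of the element `(b, a)` -/
def prL (hR : IsBPre R) (b : 𝔹) (a : W) : LF R :=
  ⟨fun q => b ⊓ R q a, mem_LF.2 fun p q => by
    have := hR.2 q p a
    exact le_inf (inf_le_right.trans inf_le_left)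
      ((le_inf inf_le_left (inf_le_right.trans inf_le_right)).trans this)⟩

/-- the element `(b, a)` -/
def prn (hR : IsBPre R) (b : 𝔹) (a : W) : TS R := TS.reg (prL hR b a)

theorem frc_prn (hR : IsBPre R) (b : 𝔹) (a p : W) :
    frc (prn hR b a) p = ⨅ q, R q p ⇨ ⨆ r, R r q ⊓ (b ⊓ R r a) := frc_reg hR _ p

end Pool.Agent.MMA1.SSPAlg
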